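import Pool.Agent.Helper55.TT.Crit
import Pool.Graph.R_seed8.R939.PP.Mon

/-!
# Independence and substitutions of odd degree
-/

set_option autoImplicit false
set_option linter.all false

open Polynomial
open scoped Classical

namespace Pool.Agent.Helper55.TT

open Pool.Agent.TH115.GD Pool.Agent.R939.EI

section comp

variable {k : Type} [Field k]

/-- squares modulo `π(h)`, for `h` of odd degree -/
theorem sqMod_comp {π h q : k[X]} (hπ : Irreducible π) (hπh : Irreducible (π.comp h))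
    (hodd : Odd h.natDegree) (hs : SqMod (π.comp h) (q.comp h)) : SqMod π q := by
  obtain ⟨z, hz⟩ := hs
  haveI : Fact (Irreducible π) := ⟨hπ⟩
  haveI : Fact (Irreducible (π.comp h)) := ⟨hπh⟩
  let K1 := AdjoinRoot π
  let L := AdjoinRoot (π.comp h)
  let f : K1 →+* L := AdjoinRoot.lift (algebraMap k L) (AdjoinRoot.mk (π.comp h) h) (by
    have h1 : π.eval₂ (algebraMap k L) (AdjoinRoot.mk (π.comp h) h) =
        AdjoinRoot.mk (π.comp h) (π.comp h) := by
      have h2 : AdjoinRoot.mk (π.comp h) (π.eval₂ C h) =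
          π.eval₂ ((AdjoinRoot.mk (π.comp h)).comp C) (AdjoinRoot.mk (π.comp h) h) :=
        hom_eval₂ _ _ _ _
      exact h2.symm
    rw [h1, AdjoinRoot.mk_self])
  have hf : ∀ g : k[X], f (AdjoinRoot.mk π g) = AdjoinRoot.mk (π.comp h) (g.comp h) := by
    intro g
    show AdjoinRoot.lift _ _ _ _ = _
    have h2 : AdjoinRoot.mk (π.comp h) (g.eval₂ C h) =
        g.eval₂ ((AdjoinRoot.mk (π.comp h)).comp C) (AdjoinRoot.mk (π.comp h) h) :=
      hom_eval₂ _ _ _ _
    rw [AdjoinRoot.lift_mk]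
    exact h2.symm
  letI : Algebra K1 L := f.toAlgebra
  haveI : IsScalarTower k K1 L := IsScalarTower.of_algebraMap_eq fun x => by
    have h1 := hf (C x)
    rw [C_comp] at h1
    exact h1.symm
  haveI : FiniteDimensional k K1 := (AdjoinRoot.powerBasis hπ.ne_zero).finite
  haveI : FiniteDimensional k L := (AdjoinRoot.powerBasis hπh.ne_zero).finite
  haveI : FiniteDimensional K1 L := FiniteDimensional.right k K1 L
  have h1 : Module.finrank k K1 = π.natDegree := by
    rw [(AdjoinRoot.powerBasis hπ.ne_zero).finrank, AdjoinRoot.powerBasis_dim]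
  have h2 : Module.finrank k L = π.natDegree * h.natDegree := by
    rw [(AdjoinRoot.powerBasis hπh.ne_zero).finrank, AdjoinRoot.powerBasis_dim, natDegree_comp]
  have h3 : Module.finrank K1 L = h.natDegree := by
    have h4 := Module.finrank_mul_finrank k K1 L
    rw [h1, h2] at h4
    exact Nat.eq_of_mul_eq_mul_left hπ.natDegree_pos h4
  set y : L := AdjoinRoot.mk (π.comp h) z with hy
  have hy2 : y ^ 2 = algebraMap K1 L (AdjoinRoot.mk π q) := by
    show _ = f _
    rw [hf, hy, ← map_pow]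
    exact AdjoinRoot.mk_eq_mk.2 hz
  have hsq : IsSquare (AdjoinRoot.mk π q) := by
    by_contra hns
    have hirr : Irreducible (X ^ 2 - C (AdjoinRoot.mk π q) : K1[X]) := by
      refine X_pow_sub_C_irreducible_of_prime Nat.prime_two ?_
      intro b hb
      exact hns ⟨b, by rw [← hb]; ring⟩
    have hroot : aeval y (X ^ 2 - C (AdjoinRoot.mk π q) : K1[X]) = 0 := by
      rw [map_sub, map_pow, aeval_X, aeval_C, hy2, sub_self]
    have hmin := minpoly.eq_of_irreducible_of_monic hirr hroot (monic_X_pow_sub_C _ two_ne_zero)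
    have hdvd := minpoly.degree_dvd (K := K1) (L := L) (x := y) (Algebra.IsIntegral.isIntegral y)
    rw [← hmin, natDegree_X_pow_sub_C, h3] at hdvd
    exact (Nat.not_even_iff_odd.2 hodd) (even_iff_two_dvd.2 hdvd)
  obtain ⟨s, hs⟩ := hsq
  obtain ⟨z', rfl⟩ := AdjoinRoot.mk_surjective s
  refine ⟨z', AdjoinRoot.mk_eq_mk.1 ?_⟩
  rw [map_pow, hs, pow_two]

theorem cop_comp {f g h : k[X]} (hc : IsCoprime f g) : IsCoprime (f.comp h) (g.comp h) := by
  obtain ⟨a, b, hab⟩ := hc
  refine ⟨a.comp h, b.comp h, ?_⟩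
  rw [← mul_comp, ← mul_comp, ← add_comp, hab, one_comp]

/-- independence after a substitution of odd degree -/
theorem IndepAt.comp {π p h : k[X]} {c : k} (hπ : Irreducible π) (hp : p ≠ 0) (hc : c ≠ 0)
    (hodd : Odd h.natDegree) (hi : Inert p h) (hπp : π ∣ p) (hind : IndepAt π p) :
    IndepAt (π.comp h) (C c * p.comp h) := by
  intro u S hu hS hSs hSd hπS hsq
  have hcu : IsUnit (C c : k[X]) := isUnit_C.2 (isUnit_iff_ne_zero.2 hc)
  rw [hcu.dvd_mul_left] at hSd
  obtain ⟨A, ε, hA, hAs, hAp, hε, hSA⟩ := hi.divisor hp hodd.pos hS hSs hSd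
  have hπA : ¬ π ∣ A := by
    rintro ⟨A', rfl⟩
    apply hπS
    rw [hSA, mul_comp]
    exact ⟨C ε * A'.comp h, by ring⟩
  have h1 : SqMod π (C (u * ε) * A) := by
    refine sqMod_comp hπ (hi π hπ hπp).1 hodd ?_
    rw [mul_comp, C_comp, C_mul, mul_assoc, ← hSA]
    exact hsq
  obtain ⟨hA1, hsq'⟩ := hind (u * ε) A (mul_ne_zero hu hε) hA hAs hAp hπA h1
  rw [hA1, one_comp, mul_one] at hSA
  rw [hSA, Monic, leadingCoeff_C] at hS
  rw [hS, mul_one] at hsq'
  exact ⟨by rw [hSA, hS, C_1], hsq'⟩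

end comp

end Pool.Agent.Helper55.TT
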