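import Pool.Agent.Helper55.TT.Main

/-!
# The criterion
-/

set_option autoImplicit false
set_option linter.all false

open Polynomial IsDedekindDomain WeierstrassCurve WeierstrassCurve.Affine
open scoped Classical

namespace Pool.Agent.Helper55.TT

open Pool.Agent.TH115.GD Pool.Agent.R939.EI

section iter

variable {k' K F : Type} [Field k'] [Field K] [Field F] [Algebra K F] [Algebra k'[X] F]
  [IsFractionRing k'[X] F] {W : WeierstrassCurve K}

/-- Division of a class by two. -/
theorem div_class' {c : ℕ → (Sep F ≃ₐ[F] Sep F) → Pt W (Sep F)} (hT : IsTateClass k' W c)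
    {H : ℕ → Pt W (Sep F)} (H0 : 2 • H 0 = 0)
    (HS : ∀ j, 2 • H (j + 1) = H j) (key : ∀ σ, c 1 σ = act W (rs K σ) (H 1) - H 1) :
    IsTateClass k' W (fun j σ => c (j + 1) σ - (act W (rs K σ) (H (j + 1)) - H (j + 1))) := by
  have hc := hT.tc
  have hi := hT.inv
  have hloc := hT.loc
  set c' : ℕ → (Sep F ≃ₐ[F] Sep F) → Pt W (Sep F) :=
    fun j σ => c (j + 1) σ - (act W (rs K σ) (H (j + 1)) - H (j + 1)) with hc'
  have hc'T : IsTC W c' := by
    refine ⟨fun j => (hc.coc (j + 1)).sub W (cob_isCoc W _), fun σ => ?_, fun j σ => ?_⟩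
    · show c (0 + 1) σ - (act W (rs K σ) (H (0 + 1)) - H (0 + 1)) = 0
      rw [zero_add, key σ, sub_self]
    · show 2 • (c (j + 1 + 1) σ - (act W (rs K σ) (H (j + 1 + 1)) - H (j + 1 + 1))) =
        c (j + 1) σ - (act W (rs K σ) (H (j + 1)) - H (j + 1))
      rw [smul_sub, smul_sub, ← map_nsmul, HS (j + 1), hc.two (j + 1)]
  have hc'I : IsInv W c' := by
    intro τ
    obtain ⟨m, Q, hQ, hinv⟩ := hi τ
    refine ⟨m + 2, fun j => 2 • Q j - 2 ^ (m + 1) • (act W (ak τ) (H j) - H j),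
      ⟨?_, fun j => ?_⟩, ?_⟩
    · show 2 • Q 0 - 2 ^ (m + 1) • (act W (ak τ) (H 0) - H 0) = 0
      rw [hQ.zero, pow_succ, mul_smul, smul_sub 2, ← map_nsmul, H0, map_zero, sub_zero, smul_zero,
        smul_zero, sub_zero]
    · show 2 • (2 • Q (j + 1) - 2 ^ (m + 1) • (act W (ak τ) (H (j + 1)) - H (j + 1))) =
        2 • Q j - 2 ^ (m + 1) • (act W (ak τ) (H j) - H j)
      rw [smul_sub, hQ.two, smul_comm 2 (2 ^ (m + 1)), smul_sub 2 (act W (ak τ) (H (j + 1))),
        ← map_nsmul, HS]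
    · intro j σ σ' h
      have h1 := hinv j σ σ' h
      have hcomp : act W (ak τ) (act W (rs K σ') (H j)) = act W (rs K σ) (act W (ak τ) (H j)) := by
        have h5 : (ak τ).comp (rs K σ') = (rs K σ).comp (ak τ) := AlgHom.ext fun x => h x
        rw [act_act, act_act, h5]
      have h2 : ∀ ρ : Sep F ≃ₐ[F] Sep F, 2 • c' j ρ = c j ρ - (act W (rs K ρ) (H j) - H j) := by
        intro ρ
        show 2 • (c (j + 1) ρ - (act W (rs K ρ) (H (j + 1)) - H (j + 1))) = _
        rw [smul_sub, smul_sub, ← map_nsmul, HS, hc.two]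
      show 2 ^ (m + 2) • (act W (ak τ) (c' j σ') - c' j σ) =
        act W (rs K σ) (2 • Q j - 2 ^ (m + 1) • (act W (ak τ) (H j) - H j)) -
          (2 • Q j - 2 ^ (m + 1) • (act W (ak τ) (H j) - H j))
      have h3 : 2 ^ (m + 2) • (act W (ak τ) (c' j σ') - c' j σ) =
          2 • 2 ^ m • (act W (ak τ) (2 • c' j σ') - 2 • c' j σ) := by
        rw [map_nsmul, ← smul_sub, ← mul_smul, ← mul_smul]
        congr 1
        ring
      rw [h3, h2, h2, map_sub (act W (ak τ)), map_sub (act W (ak τ)), hcomp]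
      have h4 : act W (ak τ) (c j σ') -
          (act W (rs K σ) (act W (ak τ) (H j)) - act W (ak τ) (H j)) -
          (c j σ - (act W (rs K σ) (H j) - H j)) =
          (act W (ak τ) (c j σ') - c j σ) -
          (act W (rs K σ) (act W (ak τ) (H j) - H j) - (act W (ak τ) (H j) - H j)) := by
        rw [map_sub (act W (rs K σ))]; abel
      rw [h4, smul_sub (2 ^ m), h1]
      obtain ⟨T, hT⟩ : ∃ T, T = act W (ak τ) (H j) - H j := ⟨_, rfl⟩
      rw [← hT]
      have e7 : act W (rs K σ) (2 • Q j - 2 ^ (m + 1) • T) =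
          2 • act W (rs K σ) (Q j) - 2 • 2 ^ m • act W (rs K σ) T := by
        rw [map_sub, map_nsmul, map_nsmul, pow_succ', mul_smul]
      have e8 : 2 ^ (m + 1) • T = 2 • 2 ^ m • T := by rw [pow_succ', mul_smul]
      rw [e7, e8]
      simp only [smul_sub]
      abel
  exact ⟨hc'T, fun j => lt_subT (hloc (j + 1)) _, hc'I⟩

/-- The iteration of the step. -/
theorem iter (hdiv : ∀ X : Pt W (Sep F), ∃ Y : Pt W (Sep F), Y + Y = X)
    (h : ∀ c : ℕ → (Sep F ≃ₐ[F] Sep F) → Pt W (Sep F), IsTateClass k' W c →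
      ∃ R : Pt W (Sep F), 2 • (2 • R) = 0 ∧
        (∀ σ : Sep F ≃ₐ[F] Sep F, act W (rs K σ) (2 • R) = 2 • R) ∧
        ∀ σ, c 1 σ = act W (rs K σ) R - R) (n : ℕ) :
    ∀ c : ℕ → (Sep F ≃ₐ[F] Sep F) → Pt W (Sep F), IsTateClass k' W c →
      ∃ R : Pt W (Sep F), 2 • (2 ^ n • R) = 0 ∧
        (∀ σ : Sep F ≃ₐ[F] Sep F, act W (rs K σ) (2 ^ n • R) = 2 ^ n • R) ∧
        ∀ σ, c n σ = act W (rs K σ) R - R := by
  induction n with
  | zero =>
    intro c hc
    refine ⟨0, by rw [smul_zero, smul_zero], fun σ => by rw [smul_zero, map_zero], fun σ => ?_⟩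
    rw [hc.tc.zero, map_zero, sub_zero]
  | succ n ih =>
    intro c hc
    obtain ⟨R1, hR1, hR2, hR3⟩ := h c hc
    choose hv hhv using hdiv
    obtain ⟨G, G0, G1, GS⟩ : ∃ G : ℕ → Pt W (Sep F), G 0 = 2 • R1 ∧ G 1 = R1 ∧
        ∀ j, 2 • G (j + 1) = G j := by
      refine ⟨fun j => Nat.casesOn j (2 • R1) (fun i => Nat.rec R1 (fun _ X => hv X) i),
        rfl, rfl, fun j => ?_⟩
      cases j with
      | zero => rfl
      | succ j => rw [two_nsmul]; exact hhv _
    have Gpow : ∀ j, 2 ^ j • G j = 2 • R1 := by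
      intro j
      induction j with
      | zero => rw [pow_zero, one_smul, G0]
      | succ j ih => rw [pow_succ, mul_smul, GS, ih]
    obtain ⟨R', h1, h2, h3⟩ := ih _ (div_class' hc (by rw [G0]; exact hR1) GS
      (fun σ => by rw [G1]; exact hR3 σ))
    have e1 : 2 ^ (n + 1) • (R' + G (n + 1)) = 2 • R1 := by
      rw [smul_add, Gpow, pow_succ', mul_smul, h1, zero_add]
    refine ⟨R' + G (n + 1), ?_, fun σ => ?_, fun σ => ?_⟩
    · rw [e1, hR1]
    · rw [e1, hR2]
    · have h5 : c (n + 1) σ - (act W (rs K σ) (G (n + 1)) - G (n + 1)) =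
        act W (rs K σ) R' - R' := h3 σ
      rw [sub_eq_iff_eq_add] at h5
      rw [h5, map_add]
      abel

end iter

section core

variable {k k' K F : Type} [Field k] [Field k'] [Algebra k k'] [Field K] [Algebra k[X] K]
    [Field F] [Algebra k'[X] F] [IsFractionRing k'[X] F] [Algebra K F]

theorem halve_crvT (h2 : (2 : K) ≠ 0) {A B : K} (hB : B ≠ 0) (hd : A ^ 2 - 4 * B ≠ 0)
    (X : Pt (crvT A B) (Sep F)) : ∃ Y : Pt (crvT A B) (Sep F), Y + Y = X := by
  obtain ⟨α, β, hR⟩ := exists_roots (Ω := Sep F) h2 hB hd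
  exact halve_sep hR.E X

/-- **The criterion**: all classes are torsion. -/
theorem crit (hT : IsTower k k' K F) (h2 : (2 : k) ≠ 0) {a b D π : k[X]} (hb : b ≠ 0)
    (hd : a ^ 2 - 4 * b ≠ 0) (hD : D ≠ 0)
    (hsep : ∀ ρ : k[X], Irreducible ρ → ρ ∣ b * (a ^ 2 - 4 * b) * D → ρ.Separable)
    (hodd : OddFactor π D) (hπb : ¬ π ∣ b * (a ^ 2 - 4 * b))
    (hind : IndepAt π (b * (a ^ 2 - 4 * b) * D)) :
    GeneratedBy (F := F) k' (crvT (algebraMap k[X] K (a * D)) (algebraMap k[X] K (b * D ^ 2))) 0 ∧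
    ((∀ (u : k) (V : k[X]), a ^ 2 - 4 * b = C u * V ^ 2 → IsSquare u) →
      TateAtTwo (F := F) k' (crvT (algebraMap k[X] K (a * D)) (algebraMap k[X] K (b * D ^ 2)))) := by
  haveI := hT.sep
  haveI := hT.fracK
  haveI : IsSepClosed k' := IsSepClosure.sep_closed k
  haveI : IsSepClosure K (Sep F) := sepKΩ hT.map
  haveI : Algebra.IsSeparable K (Sep F) := IsSepClosure.separable
  haveI : IsGalois K (Sep F) := inferInstance
  have hKF := hT.map
  have h2K : (2 : K) ≠ 0 := tt h2
  have injK := IsFractionRing.injective k[X] K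
  obtain ⟨AK, hAK⟩ : ∃ AK : K, AK = algebraMap k[X] K (a * D) := ⟨_, rfl⟩
  obtain ⟨BK, hBK⟩ : ∃ BK : K, BK = algebraMap k[X] K (b * D ^ 2) := ⟨_, rfl⟩
  have hBK0 : BK ≠ 0 := by
    rw [hBK, Ne, map_eq_zero_iff _ injK]
    exact mul_ne_zero hb (pow_ne_zero 2 hD)
  have hdK : AK ^ 2 - 4 * BK = algebraMap k[X] K (D ^ 2 * (a ^ 2 - 4 * b)) := by
    rw [hAK, hBK, ← map_pow, ← map_ofNat (algebraMap k[X] K) 4, ← map_mul, ← map_sub]
    congr 1
    ring
  have hdK0 : AK ^ 2 - 4 * BK ≠ 0 := by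
    rw [hdK, Ne, map_eq_zero_iff _ injK]
    exact mul_ne_zero (pow_ne_zero 2 hD) hd
  obtain ⟨α, β, hR⟩ := exists_roots (Ω := Sep F) h2K hBK0 hdK0
  have hit := iter (k' := k') (F := F) (W := crvT AK BK) (halve_sep hR.E)
    (fun c hc => step hT h2 hb hd hD hsep hodd hπb hind hAK hBK hc)
  rw [← hAK, ← hBK]
  refine ⟨⟨0, fun i => i.elim0, le_rfl, fun i => i.elim0, fun c hc n => ?_⟩, fun hsq => ?_⟩
  · obtain ⟨R, h1, -, h3⟩ := hit n c hc
    refine ⟨fun i => i.elim0, R, by rw [pow_succ', mul_smul]; exact h1, fun σ => ?_⟩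
    rw [h3 σ, Finset.univ_eq_empty, Finset.sum_empty, zero_add]
  · intro c hcc hcl hci n
    obtain ⟨R, h1, h3, h4⟩ := hit n c ⟨hcc, hcl, hci⟩
    set X := 2 ^ n • R with hX
    rw [two_nsmul] at h1
    have hsum' : β = -algebraMap K (Sep F) AK - α := by linear_combination hR.sum
    -- the coordinates
    have key : (∀ σ : Sep F ≃ₐ[F] Sep F, σ α = α) → ∀ g : Sep F ≃ₐ[K] Sep F, g α = α := by
      intro hα
      have hf : α - β ∈ Set.range (algebraMap F (Sep F)) := by
        rw [InfiniteGalois.mem_range_algebraMap_iff_fixed]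
        intro σ
        rw [hsum', map_sub, map_sub, map_neg, hα, IsScalarTower.algebraMap_apply K F (Sep F),
          σ.commutes]
      obtain ⟨f, hf⟩ := hf
      have hdiff : (α - β) ^ 2 = algebraMap K (Sep F) (AK ^ 2 - 4 * BK) := by
        have e1 : (α - β) ^ 2 = (α + β) ^ 2 - 4 * (α * β) := by ring
        rw [e1, hR.sum, hR.prod]
        simp only [map_mul, map_sub, map_pow, map_ofNat]
        ring
      have hDK : algebraMap k[X] K D ≠ 0 := by
        rw [Ne, map_eq_zero_iff _ injK]; exact hD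
      have hDF : algebraMap K F (algebraMap k[X] K D) ≠ 0 := (_root_.map_ne_zero _).2 hDK
      have hδK : algebraMap k[X] K (a ^ 2 - 4 * b) ≠ 0 := by
        rw [Ne, map_eq_zero_iff _ injK]; exact hd
      have hff : algebraMap K F (algebraMap k[X] K (a ^ 2 - 4 * b)) =
          (f / algebraMap K F (algebraMap k[X] K D)) ^ 2 := by
        have e2 : f ^ 2 = algebraMap K F (AK ^ 2 - 4 * BK) := by
          apply inj_alg (E := Sep F)
          rw [map_pow, hf, hdiff, ← IsScalarTower.algebraMap_apply K F (Sep F)]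
        rw [div_pow, e2, hdK, map_mul, map_mul, map_pow, map_pow]
        field_simp
      obtain ⟨ε, h, hε, hh, hεh⟩ := sq_const hKF hδK hff
      have hCε : algebraMap k[X] K (C ε) ≠ 0 := by
        rw [Ne, map_eq_zero_iff _ injK]; exact C_ne_zero.2 hε
      have hh2 : h ^ 2 = algebraMap k[X] K (C ε⁻¹ * (a ^ 2 - 4 * b)) := by
        have e3 : algebraMap k[X] K (C ε⁻¹) * algebraMap k[X] K (C ε) = 1 := by
          rw [← map_mul, ← C_mul, inv_mul_cancel₀ hε, C_1, map_one]
        rw [map_mul, hεh]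
        linear_combination -(h ^ 2) * e3
      obtain ⟨V, hV⟩ := IsIntegrallyClosed.exists_algebraMap_eq_of_isIntegral_pow (R := k[X])
        (K := K) (x := h) (n := 2) (by norm_num) (by rw [hh2]; exact isIntegral_algebraMap)
      obtain ⟨ρ, hρ⟩ := hsq ε V (by
        apply injK
        rw [hεh, map_mul, map_pow, hV])
      have hαβ : α - β = algebraMap K (Sep F) (algebraMap k[X] K (D * (C ρ * V))) ∨
          α - β = -algebraMap K (Sep F) (algebraMap k[X] K (D * (C ρ * V))) := by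
        apply sq_eq_sq_iff_eq_or_eq_neg.1
        rw [hdiff, hdK, ← map_pow, ← map_pow]
        congr 2
        apply injK
        rw [map_mul, hεh, ← hV, hρ]
        simp only [map_mul, map_pow]
        ring
      intro g
      have hg : g (α - β) = α - β := by
        rcases hαβ with h | h
        · rw [h, g.commutes]
        · rw [h, map_neg, g.commutes]
      have hα2 : 2 * α = (α - β) - algebraMap K (Sep F) AK := by linear_combination hR.sum
      have hg2 : g (2 * α) = 2 * α := by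
        rw [hα2, map_sub, hg, g.commutes]
      rw [map_mul, map_ofNat] at hg2
      exact mul_left_cancel₀ hR.E.two hg2
    have hXK : ∀ g : Sep F ≃ₐ[K] Sep F, act (crvT AK BK) (rs K g) X = X := by
      have hpt : ∀ {x : Sep F} {hn} {g : Sep F ≃ₐ[K] Sep F}, g x = x →
          act (crvT AK BK) (rs K g) (Point.some x 0 hn) = Point.some x 0 hn := by
        intro x hn g hx
        obtain ⟨h, hh⟩ := act_some (crvT AK BK) (rs K g) hn
        have e1 : rs K g x = x := hx
        rw [hh]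
        simp only [e1, map_zero]
      have hptF : ∀ {x : Sep F} {hn} {σ : Sep F ≃ₐ[F] Sep F},
          act (crvT AK BK) (rs K σ) (Point.some x 0 hn) = Point.some x 0 hn → σ x = x := by
        intro x hn σ hx
        obtain ⟨h, hh⟩ := act_some (crvT AK BK) (rs K σ) hn
        rw [hh] at hx
        exact (Point.some.inj hx).1
      intro g
      rcases tor_cases hR.E h1 with ⟨h, -⟩ | ⟨hn, h, -⟩ | ⟨hn, h, -⟩ | ⟨hn, h, -⟩
      · rw [h, map_zero]
      · rw [h]; exact hpt (map_zero g)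
      · rw [h] at h3 ⊢
        exact hpt (key (fun σ => hptF (h3 σ)) g)
      · rw [h] at h3 ⊢
        apply hpt
        have hβF : ∀ σ : Sep F ≃ₐ[F] Sep F, σ β = β := fun σ => hptF (h3 σ)
        have hα' : α = -algebraMap K (Sep F) AK - β := by linear_combination hR.sum
        have hαg := key (fun σ => by
          rw [hα', map_sub, map_neg, hβF, IsScalarTower.algebraMap_apply K F (Sep F),
            σ.commutes]) g
        rw [hsum', map_sub, map_neg, hαg, g.commutes]
    obtain ⟨P, hP⟩ := fixed_point (K := K) (F := K) (crvT AK BK) X hXK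
    exact ⟨P, R, hP.symm, h4⟩

end core

end Pool.Agent.Helper55.TT
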