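import Pool.Agent.Helper55.TT.GoodC

/-!
# Almost all twists of every elliptic curve over `k(t)` with a rational point of order 2
-/

set_option autoImplicit false
set_option linter.all false

namespace Pool.Agent.Helper55.TT

open Polynomial NumberField Pool.Agent Pool.Agent.R939.EI Pool.Agent.R939.HI Pool.Agent.W275.UB
open Pool.Agent.TH115.GD Pool.Agent.H927R2.RD Pool.Agent.R939.PP

section div

variable {k : Type} [Field k]

/-- the monic divisors of a polynomial -/
theorem fin_div {P : k[X]} (hP : P ≠ 0) : ∃ s : Finset k[X], ∀ S : k[X], S.Monic → S ∣ P → S ∈ s := by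
  classical
  refine ⟨((UniqueFactorizationMonoid.normalizedFactors P).powerset.map Multiset.prod).toFinset, ?_⟩
  intro S hS hd
  rw [Multiset.mem_toFinset, Multiset.mem_map]
  refine ⟨UniqueFactorizationMonoid.normalizedFactors S, ?_, ?_⟩
  · rw [Multiset.mem_powerset]
    exact (UniqueFactorizationMonoid.dvd_iff_normalizedFactors_le_normalizedFactors hS.ne_zero
      hP).1 hd
  · rw [UniqueFactorizationMonoid.prod_normalizedFactors_eq hS.ne_zero, hS.normalize_eq_self]

end div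

section nf

variable {k : Type} [Field k] [NumberField k] {J : Type} [Fintype J] (ω : Module.Basis J ℤ (𝓞 k))
  {u : ℕ} {n : Fin u → ℕ}

/-- good parameters -/
structure Good (P : k[X]) (l0 : Fin u) (x : (Σ l : Fin u, Fin (n l + 1)) × J → ℤ) : Prop where
  irr : ∀ l, AllIrr (Dp ω x l)
  deg : (Dp ω x l0).natDegree = n l0
  nn : NotNorm (Dp ω x l0)
  cop : ∀ l, l ≠ l0 → ¬ Dp ω x l0 ∣ Dp ω x l
  copP : ¬ Dp ω x l0 ∣ P
  bad : ∀ T : Finset (Fin u), l0 ∉ T → ∀ S : k[X], S.Monic → Squarefree S → S ∣ P →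
    (T.Nonempty ∨ S ≠ 1) → x ∉ BadK ω n l0 S T

theorem dens_good (l0 : Fin u) (hn : 3 ≤ n l0) (hn1 : ∀ l, 1 ≤ n l) {P : k[X]} (hP : P ≠ 0) :
    D0 {x : (Σ l : Fin u, Fin (n l + 1)) × J → ℤ | ¬ Good ω P l0 x} := by
  classical
  obtain ⟨s, hs⟩ := fin_div hP
  have h1 : D0 (⋃ l ∈ (Finset.univ : Finset (Fin u)),
      {x : (Σ l : Fin u, Fin (n l + 1)) × J → ℤ | ¬ AllIrr (Dp ω x l)}) :=
    D0.biUnion _ _ fun l _ => dens_allIrr ω l (hn1 l)
  have h2 := dens_top (n := n) ω l0
  have h3 := dens_notNorm (n := n) ω l0 hn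
  have h4 : D0 (⋃ l ∈ (Finset.univ.erase l0 : Finset (Fin u)),
      {x : (Σ l : Fin u, Fin (n l + 1)) × J → ℤ | Irreducible (Dp ω x l0) ∧
        Dp ω x l0 ∣ Dp ω x l}) :=
    D0.biUnion _ _ fun l hl => dens_ndvd' ω l0 l (Finset.mem_erase.1 hl).1 (hn1 l0)
  have h5 := dens_ndvd (n := n) ω l0 (hn1 l0) hP
  have h6 : D0 (⋃ p ∈ (((Finset.univ : Finset (Finset (Fin u))) ×ˢ s).filter fun p =>
      l0 ∉ p.1 ∧ p.2.Monic ∧ Squarefree p.2 ∧ p.2 ∣ P ∧ (p.1.Nonempty ∨ p.2 ≠ 1)),
      BadK ω n l0 p.2 p.1) := by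
    refine D0.biUnion _ _ fun p hp => ?_
    obtain ⟨-, q1, q2, q3, q4, q5⟩ := Finset.mem_filter.1 hp
    refine dens_badK ω l0 (by omega) hn1 q2.ne_zero q1 ?_
    rcases q5 with q5 | q5
    · exact Or.inl q5
    · right
      intro c g e
      apply q5
      have h7 : g * g ∣ p.2 := ⟨C c, by rw [e]; ring⟩
      have hg : IsUnit g := q3 g h7
      have hc : c ≠ 0 := by
        rintro rfl
        rw [C_0, zero_mul] at e
        exact q2.ne_zero e
      refine q2.eq_one_of_isUnit ?_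
      rw [e]
      exact (isUnit_C.2 (isUnit_iff_ne_zero.2 hc)).mul (hg.pow 2)
  intro ε hε
  refine ((((((h1.union h2).union h3).union h4).union h5).union h6) ε hε).mono ?_
  intro x hx
  by_contra hcon
  apply hx
  simp only [Set.mem_union, not_or, Set.mem_iUnion, exists_prop, not_exists, not_and,
    Finset.mem_univ, forall_true_left, Set.mem_setOf_eq, not_not, Finset.mem_erase,
    Finset.mem_filter, Finset.mem_product, true_and] at hcon
  obtain ⟨⟨⟨⟨⟨c1, c2⟩, c3⟩, c4⟩, c5⟩, c6⟩ := hcon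
  have hirr := (c1 l0).1
  refine ⟨c1, (lead_polA (c := fun j => kv ω x ⟨l0, j⟩) c2).1, c3 hirr,
    fun l hl => c4 l ⟨hl, trivial⟩ hirr, c5 hirr, ?_⟩
  intro T hT S hS hSs hSd hcase
  exact c6 (T, S) ⟨hs S hS hSd, hT, hS, hSs, hSd, hcase⟩

/-- independence for good parameters -/
theorem Good.indep {P : k[X]} (hP : P ≠ 0) {l0 : Fin u}
    {x : (Σ l : Fin u, Fin (n l + 1)) × J → ℤ} (hx : Good ω P l0 x) :
    IndepAt (Dp ω x l0) (P * ∏ l, Dp ω x l) := by
  classical
  intro u' S hu hS hSs hSd hDS hsq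
  have hirr : ∀ l, Irreducible (Dp ω x l) := fun l => (hx.irr l).1
  have hD0 := (hirr l0).ne_zero
  obtain ⟨S0, S1, hS0, hS1, hSe⟩ := exists_dvd_and_dvd_of_dvd_mul hSd
  obtain ⟨T, -, hT⟩ := dvd_prod_irr hirr Finset.univ S1 hS1
  have hT0 : l0 ∉ T := by
    intro h0
    apply hDS
    rw [hSe]
    exact ((Finset.dvd_prod_of_mem _ h0).trans hT.symm.dvd).mul_left _
  have hS00 : S0 ≠ 0 := by
    rintro rfl
    rw [zero_mul] at hSe
    exact hS.ne_zero hSe
  have hl : S0.leadingCoeff ≠ 0 := leadingCoeff_ne_zero.2 hS00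
  set S0' : k[X] := C S0.leadingCoeff⁻¹ * S0 with hS0'
  have hm : S0'.Monic := by
    rw [hS0', Monic, leadingCoeff_mul, leadingCoeff_C, inv_mul_cancel₀ hl]
  have hass : Associated S0' S0 :=
    associated_unit_mul_left _ _ (isUnit_C.2 (isUnit_iff_ne_zero.2 (inv_ne_zero hl)))
  have hSass : Associated (S0' * ∏ l ∈ T, Dp ω x l) S := by
    rw [hSe]
    exact hass.mul_mul hT.symm
  obtain ⟨v, hv⟩ := hSass
  obtain ⟨ε, hε, hεv⟩ := Polynomial.isUnit_iff.1 v.isUnit
  have hε0 : ε ≠ 0 := hε.ne_zero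
  rw [← hεv] at hv
  have hS0s : Squarefree S0' := by
    refine hSs.squarefree_of_dvd (hass.dvd.trans ?_)
    rw [hSe]
    exact dvd_mul_right _ _
  obtain ⟨z, hz⟩ := hsq
  have hz' : Dp ω x l0 ∣ (z % Dp ω x l0) ^ 2 - C (u' * ε) * (S0' * ∏ l ∈ T, Dp ω x l) := by
    have e1 : (z % Dp ω x l0) ^ 2 - C (u' * ε) * (S0' * ∏ l ∈ T, Dp ω x l) =
        (z ^ 2 - C u' * S) - Dp ω x l0 * ((z / Dp ω x l0) * (z + z % Dp ω x l0)) := by
      have e2 := EuclideanDomain.div_add_mod z (Dp ω x l0)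
      have e3 : z % Dp ω x l0 = z - Dp ω x l0 * (z / Dp ω x l0) := by
        linear_combination e2
      rw [e3, ← hv, C_mul]
      ring
    rw [e1]
    exact dvd_sub hz (dvd_mul_right _ _)
  have hw0 : z % Dp ω x l0 ≠ 0 := by
    intro h0
    apply hDS
    rw [h0, zero_pow two_ne_zero, zero_sub, dvd_neg,
      (isUnit_C.2 (isUnit_iff_ne_zero.2 (mul_ne_zero hu hε0))).dvd_mul_left] at hz'
    rw [← hv]
    exact hz'.mul_right _
  have hwd : (z % Dp ω x l0).natDegree < n l0 := by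
    rw [← hx.deg]
    exact natDegree_lt_natDegree hw0 (EuclideanDomain.mod_lt z hD0)
  by_cases hcase : T.Nonempty ∨ S0' ≠ 1
  · exfalso
    exact hx.bad T hT0 S0' hm hS0s (hass.dvd.trans hS0) hcase
      ⟨_, u' * ε, hw0, hwd, mul_ne_zero hu hε0, hz'⟩
  · rw [not_or, Finset.not_nonempty_iff_eq_empty, not_not] at hcase
    rw [hcase.1, hcase.2, Finset.prod_empty, mul_one, one_mul] at hv
    have hε1 : ε = 1 := by
      rw [← hv, Monic, leadingCoeff_C] at hS
      exact hS
    rw [hcase.1, hcase.2, hε1, Finset.prod_empty, mul_one, mul_one, mul_one] at hz'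
    refine ⟨by rw [← hv, hε1, C_1], ?_⟩
    by_contra hns
    obtain ⟨c, A, B, e⟩ := norm_of_sq_mod (hirr l0) hns (r := z % Dp ω x l0) (by
      rw [← dvd_neg, neg_sub]
      exact hz')
    exact hns (hx.nn c u' A B e).2

end nf

section main

variable {k k' K F : Type} [Field k] [Field k'] [Algebra k k'] [Field K] [Algebra k[X] K]
    [Field F] [Algebra k'[X] F] [IsFractionRing k'[X] F] [Algebra K F]

/-- For all the quadratic twists by constants `c` of the quadratic twist by `D` of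
`E : y² = x (x² + a x + b)`, and all their base changes by polynomials `h` of odd degree such that the
irreducible divisors of `b (a² - 4 b)` remain irreducible after the substitution `t ↦ h(t)`, and such
that either `h` is monic with integral coefficients or the irreducible divisors of `D` remain
irreducible after `t ↦ h(t)`: all the Galois-invariant classes in the 2-adic Selmer group are torsion
classes; and the Tate conjecture at 2 holds in the integral form if `a² - 4 b` is not a nonsquare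
constant times a square. -/
def NoClasses (k' K F : Type) {k : Type} [Field k] [NumberField k] [Field k'] [Field K]
    [Algebra k[X] K] [Field F] [Algebra k'[X] F] [IsFractionRing k'[X] F] [Algebra K F]
    (a b D : k[X]) : Prop :=
  ∀ (c : k) (h : k[X]), c ≠ 0 → Odd h.natDegree →
    (∀ π : k[X], Irreducible π → π ∣ b * (a ^ 2 - 4 * b) → Irreducible (π.comp h)) →
    ((∃ g : (𝓞 k)[X], g.Monic ∧ h = g.map (algebraMap (𝓞 k) k)) ∨
      ∀ π : k[X], Irreducible π → π ∣ D → Irreducible (π.comp h)) →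
    GeneratedBy (F := F) k' (crvT (algebraMap k[X] K ((C c * (a * D)).comp h))
      (algebraMap k[X] K ((C (c ^ 2) * (b * D ^ 2)).comp h))) 0 ∧
    ((∀ (e : k) (g : k[X]), a ^ 2 - 4 * b = C e * g ^ 2 → IsSquare e) →
      TateAtTwo (F := F) k' (crvT (algebraMap k[X] K ((C c * (a * D)).comp h))
        (algebraMap k[X] K ((C (c ^ 2) * (b * D ^ 2)).comp h))))

theorem good_main [NumberField k] (hT : IsTower k k' K F) {J : Type} [Fintype J]
    (ω : Module.Basis J ℤ (𝓞 k)) {a b : k[X]} (hb : b ≠ 0) (hd : a ^ 2 - 4 * b ≠ 0) {u : ℕ}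
    {n : Fin u → ℕ} {l0 : Fin u} {x : (Σ l : Fin u, Fin (n l + 1)) × J → ℤ}
    (hx : Good ω (b * (a ^ 2 - 4 * b)) l0 x) :
    NoClasses k' K F a b (∏ l, Dp ω x l) := by
  classical
  intro c h hc hodd hP hcase
  have hh := hodd.pos
  have hirr : ∀ l, Irreducible (Dp ω x l) := fun l => (hx.irr l).1
  set D := ∏ l, Dp ω x l with hD
  have hD0 : D ≠ 0 := Finset.prod_ne_zero_iff.2 fun l _ => (hirr l).ne_zero
  set P := b * (a ^ 2 - 4 * b) with hPdef
  have hP0 : P ≠ 0 := mul_ne_zero hb hd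
  -- the primes of `D` remain primes
  have hDh : ∀ π : k[X], Irreducible π → π ∣ D → Irreducible (π.comp h) := by
    intro π hπ hdv
    rcases hcase with ⟨g, hg, rfl⟩ | h9
    · obtain ⟨l, -, hl⟩ := (hπ.prime.dvd_finsetProd_iff _).1 hdv
      have has : Associated (Dp ω x l) π := (hπ.associated_of_dvd (hirr l) hl).symm
      have hgd : g.natDegree ≠ 0 := by
        intro h0
        rw [hg.natDegree_map, h0] at hodd
        exact absurd hodd (by decide)
      have h10 := (hx.irr l).2 g hg hgd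
      obtain ⟨w, hw⟩ := has
      rw [← hw, mul_comp]
      obtain ⟨c0, hc0, hc0'⟩ := Polynomial.isUnit_iff.1 w.isUnit
      rw [← hc0', C_comp]
      exact (irreducible_mul_isUnit (isUnit_C.2 hc0)).2 h10
    · exact h9 π hπ hdv
  have hin : Inert (P * D) h := by
    intro π hπ hdv
    have h1 : Irreducible (π.comp h) := by
      rcases hπ.prime.dvd_or_dvd hdv with h2 | h2
      · exact hP π hπ h2
      · exact hDh π hπ h2
    exact ⟨h1, h1.separable⟩
  have hcD : (C c : k[X]) ≠ 0 := C_ne_zero.2 hc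
  have e1 : (C c * (a * D)).comp h = a.comp h * (C c * D.comp h) := by
    simp only [mul_comp, C_comp]
    ring
  have e2 : (C (c ^ 2) * (b * D ^ 2)).comp h = b.comp h * (C c * D.comp h) ^ 2 := by
    simp only [mul_comp, C_comp, pow_comp, C_pow]
    ring
  have e3 : (a.comp h) ^ 2 - 4 * b.comp h = (a ^ 2 - 4 * b).comp h := by
    simp
  have e4 : b.comp h * ((a.comp h) ^ 2 - 4 * b.comp h) = P.comp h := by
    rw [e3, hPdef, mul_comp]
  have e5 : b.comp h * ((a.comp h) ^ 2 - 4 * b.comp h) * (C c * D.comp h) =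
      C c * (P * D).comp h := by
    rw [e4, mul_comp P D h]
    ring
  have hdvD : Dp ω x l0 ∣ D := Finset.dvd_prod_of_mem _ (Finset.mem_univ l0)
  have hirrh : Irreducible ((Dp ω x l0).comp h) := hDh _ (hirr l0) hdvD
  have key := crit (F := F) (k' := k') hT two_ne_zero (a := a.comp h) (b := b.comp h)
    (D := C c * D.comp h) (π := (Dp ω x l0).comp h) (comp_ne hh hb)
    (by rw [e3]; exact comp_ne hh hd) (mul_ne_zero hcD (comp_ne hh hD0))
    (fun ρ hρ _ => hρ.separable) ?_ ?_ ?_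
  · rw [e1, e2]
    refine ⟨key.1, fun hsq => key.2 ?_⟩
    intro e V heV
    rw [e3] at heV
    -- `a² - 4 b` is a constant times a square, if `(a² - 4 b)(h)` is
    obtain ⟨r, S, T, hr, hS, hSs, hT0, hdec⟩ := sq_dec _ (a ^ 2 - 4 * b) rfl hd
    have he0 : e ≠ 0 := by
      rintro rfl
      rw [C_0, zero_mul] at heV
      exact comp_ne hh hd heV
    have hSu : S = 1 := by
      refine hS.eq_one_of_isUnit ?_
      by_contra hnu
      obtain ⟨ρ, hρ, hρS⟩ := WfDvdMonoid.exists_irreducible_factor hnu hS.ne_zero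
      obtain ⟨S', rfl⟩ := hρS
      have hρd : ρ ∣ a ^ 2 - 4 * b := by
        rw [hdec]
        exact ⟨C r * S' * T ^ 2, by ring⟩
      have hρS' : ¬ ρ ∣ S' := by
        rintro ⟨S'', rfl⟩
        exact hρ.not_isUnit (hSs ρ ⟨S'', by ring⟩)
      have hρh := hP ρ hρ (hρd.mul_left b)
      obtain ⟨m, T', hT', rfl⟩ := WfDvdMonoid.max_power_factor hT0 hρ
      have hS'h : ¬ ρ.comp h ∣ S'.comp h := by
        intro hdv
        have := (cop_comp (h := h) (hρ.coprime_iff_not_dvd.2 hρS')).isUnit_of_dvd' dvd_rfl hdv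
        exact hρh.not_isUnit this
      have hT'h : ¬ ρ.comp h ∣ T'.comp h := by
        intro hdv
        have := (cop_comp (h := h) (hρ.coprime_iff_not_dvd.2 hT')).isUnit_of_dvd' dvd_rfl hdv
        exact hρh.not_isUnit this
      have heq : (ρ.comp h) ^ (2 * m + 1) * (C r * S'.comp h * (T'.comp h) ^ 2) = C e * V ^ 2 := by
        rw [← heV, hdec]
        simp only [mul_comp, C_comp, pow_comp]
        ring
      have hV0 : V ≠ 0 := by
        rintro rfl
        rw [zero_pow two_ne_zero, mul_zero] at heV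
        exact comp_ne hh hd heV
      obtain ⟨m', V', hV', rfl⟩ := WfDvdMonoid.max_power_factor hV0 hρh
      have hndl : ¬ ρ.comp h ∣ C r * S'.comp h * (T'.comp h) ^ 2 := by
        intro hdv
        rcases hρh.prime.dvd_or_dvd hdv with h1 | h1
        · rcases hρh.prime.dvd_or_dvd h1 with h2 | h2
          · exact hρh.not_isUnit (isUnit_of_dvd_unit h2 (isUnit_C.2 (isUnit_iff_ne_zero.2 hr)))
          · exact hS'h h2
        · exact hT'h (hρh.prime.dvd_of_dvd_pow h1)
      have hndr : ¬ ρ.comp h ∣ C e * V' ^ 2 := by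
        intro hdv
        rcases hρh.prime.dvd_or_dvd hdv with h1 | h1
        · exact hρh.not_isUnit (isUnit_of_dvd_unit h1 (isUnit_C.2 (isUnit_iff_ne_zero.2 he0)))
        · exact hV' (hρh.prime.dvd_of_dvd_pow h1)
      have heq' : (ρ.comp h) ^ (2 * m + 1) * (C r * S'.comp h * (T'.comp h) ^ 2) =
          (ρ.comp h) ^ (2 * m') * (C e * V' ^ 2) := by
        rw [heq]
        ring
      rcases lt_trichotomy (2 * m + 1) (2 * m') with hlt | heq2 | hgt
      · apply hndl
        have h1 : (ρ.comp h) ^ (2 * m') = (ρ.comp h) ^ (2 * m + 1) *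
            ((ρ.comp h) * (ρ.comp h) ^ (2 * m' - (2 * m + 1) - 1)) := by
          rw [← pow_succ', ← pow_add]
          congr 1
          omega
        rw [h1] at heq'
        have h2 := mul_left_cancel₀ (pow_ne_zero _ hρh.ne_zero) (heq'.trans (mul_assoc _ _ _))
        exact ⟨(ρ.comp h) ^ (2 * m' - (2 * m + 1) - 1) * (C e * V' ^ 2), by rw [h2]; ring⟩
      · omega
      · apply hndr
        have h1 : (ρ.comp h) ^ (2 * m + 1) = (ρ.comp h) ^ (2 * m') *
            ((ρ.comp h) * (ρ.comp h) ^ (2 * m + 1 - 2 * m' - 1)) := by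
          rw [← pow_succ', ← pow_add]
          congr 1
          omega
        rw [h1] at heq'
        have h2 := mul_left_cancel₀ (pow_ne_zero _ hρh.ne_zero)
          ((mul_assoc _ _ _).symm.trans heq')
        exact ⟨(ρ.comp h) ^ (2 * m + 1 - 2 * m' - 1) * (C r * S'.comp h * (T'.comp h) ^ 2), by
          rw [← h2]; ring⟩
    rw [hSu, mul_one] at hdec
    obtain ⟨s, hs⟩ := hsq r T hdec
    -- compare the leading coefficients
    have h1 : C r * (T.comp h) ^ 2 = C e * V ^ 2 := by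
      rw [← heV, hdec]
      simp only [mul_comp, C_comp, pow_comp]
    have hTh : (T.comp h).leadingCoeff ≠ 0 := leadingCoeff_ne_zero.2 (comp_ne hh hT0)
    have hV0 : V.leadingCoeff ≠ 0 := by
      rw [Ne, leadingCoeff_eq_zero]
      rintro rfl
      rw [zero_pow two_ne_zero, mul_zero] at heV
      exact comp_ne hh hd heV
    have h2 := congrArg leadingCoeff h1
    rw [leadingCoeff_mul, leadingCoeff_mul, leadingCoeff_C, leadingCoeff_C, leadingCoeff_pow,
      leadingCoeff_pow] at h2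
    refine ⟨s * (T.comp h).leadingCoeff / V.leadingCoeff, ?_⟩
    field_simp
    rw [← h2, hs]
    ring
  · -- multiplicity one
    refine ⟨hirrh, 0, ?_, ?_⟩
    · rw [mul_zero, zero_add, pow_one]
      obtain ⟨D', hD'⟩ := hdvD
      rw [hD', mul_comp]
      exact ⟨C c * D'.comp h, by ring⟩
    · rw [mul_zero, zero_add]
      intro hdv
      rw [(isUnit_C.2 (isUnit_iff_ne_zero.2 hc)).dvd_mul_left, hD,
        ← Finset.mul_prod_erase _ _ (Finset.mem_univ l0), mul_comp, pow_two,
        mul_dvd_mul_iff_left hirrh.ne_zero] at hdv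
      have hcop : IsCoprime (Dp ω x l0) (∏ l ∈ Finset.univ.erase l0, Dp ω x l) := by
        refine IsCoprime.prod_right fun l hl => ?_
        exact (hirr l0).coprime_iff_not_dvd.2 (hx.cop l (Finset.mem_erase.1 hl).1)
      exact hirrh.not_isUnit ((cop_comp (h := h) hcop).isUnit_of_dvd' dvd_rfl hdv)
  · rw [e4]
    intro hdv
    have hcop : IsCoprime (Dp ω x l0) P := (hirr l0).coprime_iff_not_dvd.2 hx.copP
    exact hirrh.not_isUnit ((cop_comp (h := h) hcop).isUnit_of_dvd' dvd_rfl hdv)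
  · rw [e5]
    exact (hx.indep ω hP0).comp (hirr l0) (mul_ne_zero hP0 hD0) hc hodd hin
      (hdvD.mul_left _)

/-- **Almost all twists of every elliptic curve over `k(t)` with a rational point of order 2.** -/
theorem all_twists [NumberField k] (hT : IsTower k k' K F) {J : Type} [Fintype J]
    (B : Module.Basis J ℤ (𝓞 k)) {a b : k[X]} (hb : b ≠ 0) (hd : a ^ 2 - 4 * b ≠ 0) {u : ℕ}
    {n : Fin u → ℕ} (hn : ∀ l, 1 ≤ n l) {l0 : Fin u} (hl0 : 3 ≤ n l0) {η : ℝ} (hη : 0 < η) :
    ∃ H0 : ℕ, ∀ H : ℕ, H0 ≤ H →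
      (({x : (l : Fin u) → Fin (n l + 1) → 𝓞 k | (∀ l j t, |B.repr (x l j) t| ≤ (H : ℤ)) ∧
        ¬ NoClasses k' K F a b (∏ l, polA fun j => algebraMap (𝓞 k) k (x l j))}.ncard : ℕ) : ℝ) ≤
        η * (2 * H + 1) ^ (Fintype.card J * ∑ l, (n l + 1)) := by
  classical
  obtain ⟨H0, hH⟩ := (dens_good (n := n) B l0 hl0 hn (mul_ne_zero hb hd)) η hη
  refine ⟨H0, fun H hHH => ?_⟩
  have h1 := hH H hHH
  have hcard : Fintype.card ((Σ l : Fin u, Fin (n l + 1)) × J) =
      Fintype.card J * ∑ l, (n l + 1) := by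
    rw [Fintype.card_prod, Fintype.card_sigma, Nat.mul_comm]
    simp
  rw [hcard] at h1
  refine le_trans ?_ h1
  let φ : ((l : Fin u) → Fin (n l + 1) → 𝓞 k) → ((Σ l : Fin u, Fin (n l + 1)) × J → ℤ) :=
    fun y o => B.repr (y o.1.1 o.1.2) o.2
  have hkv : ∀ y (o : Σ l : Fin u, Fin (n l + 1)), kv B (φ y) o =
      algebraMap (𝓞 k) k (y o.1 o.2) := by
    intro y o
    show algebraMap (𝓞 k) k (elt B fun j => B.repr (y o.1 o.2) j) = _
    rw [← basis_elt B]
  have hinj : Function.Injective φ := by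
    intro y z hyz
    funext l j
    apply FaithfulSMul.algebraMap_injective (𝓞 k) k
    have h3 := hkv y ⟨l, j⟩
    rw [hyz, hkv z ⟨l, j⟩] at h3
    exact h3.symm
  have h4 : (Set.ncard {x : (l : Fin u) → Fin (n l + 1) → 𝓞 k |
      (∀ l j t, |B.repr (x l j) t| ≤ (H : ℤ)) ∧
        ¬ NoClasses k' K F a b (∏ l, polA fun j => algebraMap (𝓞 k) k (x l j))}) ≤
      Set.ncard {v : (Σ l : Fin u, Fin (n l + 1)) × J → ℤ |
        v ∈ {x : (Σ l : Fin u, Fin (n l + 1)) × J → ℤ |
          ¬ Good B (b * (a ^ 2 - 4 * b)) l0 x} ∧ ∀ i, |v i| ≤ (H : ℤ)} := by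
    rw [← Set.ncard_image_of_injective _ hinj]
    refine Set.ncard_le_ncard ?_ (box_fin _ H)
    rintro _ ⟨y, ⟨b1, hbad⟩, rfl⟩
    refine ⟨?_, ?_⟩
    · intro hgood
      apply hbad
      have h5 := good_main (k' := k') (F := F) hT B hb hd hgood
      simp only [Dp, hkv] at h5
      exact h5
    · rintro ⟨⟨l, j⟩, t⟩
      exact b1 l j t
  exact_mod_cast h4

end main

end Pool.Agent.Helper55.TT
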