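import Pool.Agent.Helper55.TT.LocC

/-!
# Density zero: constants times a polynomial which are squares modulo a polynomial of the family
-/

set_option autoImplicit false
set_option linter.all false

namespace Pool.Agent.Helper55.TT

open Polynomial Pool.Agent.R939.EI Pool.Agent.W275.UB Pool.Agent.R939.HI Pool.Agent NumberField
open Pool.Agent.H927R2.RD

section fam

variable {u : ℕ}

/-- the generic polynomials of the family -/
noncomputable def PX (n : Fin u → ℕ) (l : Fin u) :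
    (MvPolynomial (Σ l : Fin u, Fin (n l + 1)) ℤ)[X] :=
  polA fun j => MvPolynomial.X ⟨l, j⟩

theorem map_PX {n : Fin u → ℕ} {R : Type} [CommRing R]
    (v : (Σ l : Fin u, Fin (n l + 1)) → R) (l : Fin u) :
    (PX n l).map (av v) = polA fun j => v ⟨l, j⟩ := by
  rw [PX, polA_map]
  simp only [av_X]

theorem map_prodPX {n : Fin u → ℕ} {R : Type} [CommRing R]
    (v : (Σ l : Fin u, Fin (n l + 1)) → R) (T : Finset (Fin u)) :
    (∏ l ∈ T, PX n l).map (av v) = ∏ l ∈ T, polA fun j => v ⟨l, j⟩ := by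
  rw [Polynomial.map_prod]
  exact Finset.prod_congr rfl fun l _ => map_PX v l

theorem PX_natDegree {n : Fin u → ℕ} (l : Fin u) : (PX n l).natDegree = n l := by
  refine le_antisymm (polA_natDegree _) (le_natDegree_of_ne_zero ?_)
  have : (PX n l).coeff (n l) = MvPolynomial.X ⟨l, Fin.last (n l)⟩ := by
    unfold PX polA
    rw [finset_sum_coeff, Finset.sum_eq_single (Fin.last (n l))]
    · simp
    · intro j _ hj
      rw [coeff_C_mul, coeff_X_pow, if_neg, mul_zero]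
      intro h
      exact hj (Fin.ext h.symm)
    · intro h
      exact absurd (Finset.mem_univ _) h
  rw [this]
  exact MvPolynomial.X_ne_zero _

variable {O J : Type} [CommRing O] [IsDomain O] [Fintype J] (ω : Module.Basis J ℤ O)

/-- the parameters such that `c Q ∏ D l` is a square modulo `D l0` for a constant `c` -/
def BadC (n : Fin u → ℕ) (l0 : Fin u) (Q : O[X]) (T : Finset (Fin u)) (q : ℕ) (i : Fin (n l0)) :
    Set ((Σ l : Fin u, Fin (n l + 1)) × J → ℤ) :=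
  {x | ∃ (K : Type) (_ : Field K) (_ : NumberField K) (σ : O →+* K)
      (w : Fin (n l0) → K) (h : Fin q → K) (c : K),
      Module.finrank ℚ K ≤ Fintype.card J ∧ w i = 1 ∧ c ≠ 0 ∧
      (pl w) ^ 2 - C c *
        (Q.map σ * (∏ l ∈ T, PX n l).map (av (cv (fun j => σ (ω j)) fun q => (x q : K)))) =
        (PX n l0).map (av (cv (fun j => σ (ω j)) fun q => (x q : K))) * pl h}

/-- the local target for the modulus -/
noncomputable def Tg {p : ℕ} [Fact p.Prime] (N : ℕ) (ρ : ℤ_[p]) : ℤ_[p][X] :=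
  if Even N then (X - C ρ) ^ N - C (p : ℤ_[p])
  else (X - C (ρ + 1)) * ((X - C ρ) ^ (N - 1) - C (p : ℤ_[p]))

theorem Tg_natDegree {p : ℕ} [Fact p.Prime] {N : ℕ} (hN : 2 ≤ N) (ρ : ℤ_[p]) :
    (Tg N ρ).natDegree ≤ N := by
  have h1 : ∀ M : ℕ, ((X - C ρ) ^ M - C (p : ℤ_[p])).natDegree ≤ M := by
    intro M
    refine (natDegree_sub_le _ _).trans (max_le ?_ ?_)
    · rw [natDegree_pow, natDegree_X_sub_C, mul_one]
    · rw [natDegree_C]
      exact Nat.zero_le _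
  unfold Tg
  split_ifs with h
  · exact h1 N
  · refine natDegree_mul_le.trans ?_
    rw [natDegree_X_sub_C]
    have := h1 (N - 1)
    omega

theorem dens_gen (n : Fin u → ℕ) (l0 : Fin u) (hn : 2 ≤ n l0) (Q : O[X]) (T : Finset (Fin u))
    (q : ℕ) (i : Fin (n l0)) (p : ℕ) [Fact p.Prime] (σ₀ : O →+* ℤ_[p]) (ρ : ℤ_[p])
    (AA : Fin u → ℤ_[p][X]) (hAd : ∀ l, (AA l).natDegree ≤ n l) (hA0 : AA l0 = Tg (n l0) ρ)
    (hS : ∀ BB : Fin u → ℤ_[p][X], (∀ l, ∃ R, BB l = AA l + C ((p : ℤ_[p]) ^ 2) * R) →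
      ∀ (A : Type) [CommRing A] [IsDomain A] [IsDiscreteValuationRing A] (π : A)
      (τ : ℤ_[p] →+* A) (θ : A) (v : Aˣ), Irreducible π → π ∣ (p : A) → θ - τ ρ = v * π →
      ∃ (U : A) (m : ℕ), IsUnit U ∧
        ((Q.map σ₀ * ∏ l ∈ T, BB l).map τ).eval θ = U * π ^ (2 * m + 1)) :
    D0 (BadC ω n l0 Q T q i) := by
  obtain ⟨A, B, Δ, hΔ, hAB⟩ := gen_sep (n := n l0) (by omega)
    (fun j => (⟨l0, j⟩ : Σ l : Fin u, Fin (n l + 1))) (by
      intro j j' h
      exact eq_of_heq (Sigma.mk.inj_iff.1 h).2)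
  refine sysC ω (PX n l0) (∏ l ∈ T, PX n l) A B Δ hΔ hAB Q q i (PX_natDegree l0) p σ₀
    (fun j => (AA j.1).coeff (j.2 : ℕ)) 2 ?_
  intro b hb w h c hc e
  have hBB : ∀ l, ∃ R, (polA fun j => b ⟨l, j⟩) = AA l + C ((p : ℤ_[p]) ^ 2) * R := by
    intro l
    obtain ⟨R, hR⟩ := polA_near' (b := fun j => b ⟨l, j⟩) (c := fun j : Fin (n l + 1) =>
      (AA l).coeff (j : ℕ)) (fun j => hb ⟨l, j⟩)
    rw [polA_of (hAd l)] at hR
    exact ⟨R, hR⟩
  have hS' := hS (fun l => polA fun j => b ⟨l, j⟩) hBB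
  rw [map_PX, map_prodPX, ← Polynomial.map_mul] at e
  obtain ⟨R, hR⟩ := hBB l0
  rw [hA0] at hR
  have hPd : (polA fun j => b ⟨l0, j⟩).natDegree ≤ n l0 := polA_natDegree _
  unfold Tg at hR
  split_ifs at hR with hev
  · exact loc_main hev (by omega) (eis_of (by omega) hPd hR) hS' hc e
  · obtain ⟨z, P₂, hP₂, hE⟩ := eis_odd hn hPd hR
    refine loc_main (e := n l0 - 1) ?_ (by omega) hE hS' hc (w := w)
      (h := (X - C z).map (algebraMap ℤ_[p] ℚ_[p]) * h) ?_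
    · rcases Nat.even_or_odd (n l0) with h1 | h1
      · exact absurd h1 hev
      · obtain ⟨t, ht⟩ := h1
        exact ⟨t, by omega⟩
    · rw [e, hP₂, Polynomial.map_mul]
      ring

/-- no factors from the family: the given polynomial has a root of odd order -/
theorem dens_one (n : Fin u → ℕ) (l0 : Fin u) (hn : 2 ≤ n l0) (Q : O[X]) (q : ℕ) (i : Fin (n l0))
    (p : ℕ) [Fact p.Prime] (σ₀ : O →+* ℤ_[p]) (ρ : ℤ_[p]) (m : ℕ) (G : ℤ_[p][X])
    (hQ : Q.map σ₀ = (X - C ρ) ^ (2 * m + 1) * G) (hG : IsUnit (G.eval ρ)) :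
    D0 (BadC ω n l0 Q ∅ q i) := by
  classical
  refine dens_gen ω n l0 hn Q ∅ q i p σ₀ ρ (fun l => if l = l0 then Tg (n l0) ρ else 0) ?_
    (if_pos rfl) ?_
  · intro l
    split_ifs with h
    · rw [h]
      exact Tg_natDegree hn ρ
    · rw [natDegree_zero]
      exact Nat.zero_le _
  intro BB _ A _ _ _ π τ θ v hπ hπp hv
  rw [Finset.prod_empty, mul_one, hQ]
  refine ⟨(v : A) ^ (2 * m + 1) * (G.map τ).eval θ, m, (v.isUnit.pow _).mul ?_, ?_⟩
  · have h1 : θ - τ ρ ∣ (G.map τ).eval θ - (G.map τ).eval (τ ρ) := sub_dvd_eval_sub _ _ _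
    have h2 : (G.map τ).eval (τ ρ) = τ (G.eval ρ) := by
      rw [eval_map, eval₂_at_apply]
    have h3 : IsUnit (τ (G.eval ρ)) := hG.map τ
    have h4 : π ∣ (G.map τ).eval θ - τ (G.eval ρ) := by
      rw [← h2]
      exact (Dvd.intro_left (v : A) hv.symm).trans h1
    have h5 := unit_add hπ h3 h4
    rwa [add_sub_cancel] at h5
  · rw [Polynomial.map_mul, Polynomial.map_pow, Polynomial.map_sub, map_X, map_C, eval_mul,
      eval_pow, eval_sub, eval_X, eval_C, hv]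
    ring

/-- a factor from the family -/
theorem dens_two (n : Fin u → ℕ) (l0 : Fin u) (hn : 2 ≤ n l0) (Q : O[X]) (T : Finset (Fin u))
    (q : ℕ) (i : Fin (n l0)) (hT0 : l0 ∉ T) {l1 : Fin u} (hT1 : l1 ∈ T) (hn1 : 1 ≤ n l1)
    (p : ℕ) [Fact p.Prime] (σ₀ : O →+* ℤ_[p]) (ρ : ℤ_[p])
    (hQ : IsUnit ((Q.map σ₀).eval ρ)) :
    D0 (BadC ω n l0 Q T q i) := by
  classical
  have h10 : l1 ≠ l0 := fun h => hT0 (h ▸ hT1)
  refine dens_gen ω n l0 hn Q T q i p σ₀ ρ
    (fun l => if l = l0 then Tg (n l0) ρ else if l = l1 then X - C ρ else 1) ?_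
    (if_pos rfl) ?_
  · intro l
    split_ifs with h h'
    · rw [h]
      exact Tg_natDegree hn ρ
    · rw [natDegree_X_sub_C, h']
      exact hn1
    · rw [natDegree_one]
      exact Nat.zero_le _
  intro BB hBB A _ _ _ π τ θ v hπ hπp hv
  have hQθ : IsUnit (((Q.map σ₀).map τ).eval θ) := by
    have h1 : θ - τ ρ ∣ ((Q.map σ₀).map τ).eval θ - ((Q.map σ₀).map τ).eval (τ ρ) :=
      sub_dvd_eval_sub _ _ _
    have h2 : ((Q.map σ₀).map τ).eval (τ ρ) = τ ((Q.map σ₀).eval ρ) := by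
      rw [eval_map, eval₂_at_apply]
    have h4 : π ∣ ((Q.map σ₀).map τ).eval θ - τ ((Q.map σ₀).eval ρ) := by
      rw [← h2]
      exact (Dvd.intro_left (v : A) hv.symm).trans h1
    have h5 := unit_add hπ (hQ.map τ) h4
    rwa [add_sub_cancel] at h5
  have hB1 : ∃ U : A, IsUnit U ∧ ((BB l1).map τ).eval θ = π * U := by
    obtain ⟨R, hR⟩ := hBB l1
    rw [if_neg h10, if_pos rfl] at hR
    obtain ⟨g, hg⟩ := hπp
    refine ⟨v + π * (g ^ 2 * (R.map τ).eval θ), unit_add hπ v.isUnit (dvd_mul_right _ _), ?_⟩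
    rw [hR, Polynomial.map_add, Polynomial.map_sub, map_X, map_C, Polynomial.map_mul, map_C,
      eval_add, eval_sub, eval_X, eval_C, eval_mul, eval_C, hv, map_pow, map_natCast, hg]
    ring
  have hBu : ∀ l ∈ T.erase l1, IsUnit (((BB l).map τ).eval θ) := by
    intro l hl
    obtain ⟨h1, h2⟩ := Finset.mem_erase.1 hl
    have h3 : l ≠ l0 := fun h => hT0 (h ▸ h2)
    obtain ⟨R, hR⟩ := hBB l
    rw [if_neg h3, if_neg h1] at hR
    rw [hR, Polynomial.map_add, Polynomial.map_one, Polynomial.map_mul, map_C, eval_add, eval_one,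
      eval_mul, eval_C, map_pow, map_natCast]
    exact unit_add hπ isUnit_one ((hπp.trans (dvd_pow_self _ two_ne_zero)).mul_right _)
  obtain ⟨U, hU, hUe⟩ := hB1
  refine ⟨((Q.map σ₀).map τ).eval θ * (U * ∏ l ∈ T.erase l1, ((BB l).map τ).eval θ), 0,
    hQθ.mul (hU.mul ?_), ?_⟩
  · rw [IsUnit.prod_iff]
    exact hBu
  · rw [Polynomial.map_mul, eval_mul, Polynomial.map_prod, eval_prod,
      ← Finset.mul_prod_erase _ _ hT1, hUe]
    ring

end fam

end Pool.Agent.Helper55.TT
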