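import Pool.Agent.Helper55.TT.NfC

/-!
# Number fields: almost all parameters are good
-/

set_option autoImplicit false
set_option linter.all false

namespace Pool.Agent.Helper55.TT

open Polynomial NumberField Pool.Agent Pool.Agent.R939.EI Pool.Agent.R939.HI Pool.Agent.W275.UB
open Pool.Agent.TH115.GD Pool.Agent.H927R2.RD Pool.Agent.R939.PP

section nf

variable {k : Type} [Field k] [NumberField k] {J : Type} [Fintype J] (ω : Module.Basis J ℤ (𝓞 k))
  {u : ℕ} {n : Fin u → ℕ}

include ω in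
theorem exJ : Nonempty J := by
  rw [← Fintype.card_pos_iff, card_J ω]
  exact Module.finrank_pos

/-- the leading coefficients -/
theorem dens_top (l0 : Fin u) : D0 {x : (Σ l : Fin u, Fin (n l + 1)) × J → ℤ |
    ¬ IsUnit (kv ω x ⟨l0, Fin.last (n l0)⟩)} := by
  obtain ⟨j0⟩ := exJ ω
  have h3 : D0 {x : (Σ l : Fin u, Fin (n l + 1)) × J → ℤ |
      MvPolynomial.eval x (MvPolynomial.X (⟨l0, Fin.last (n l0)⟩, j0)) = 0} :=
    zero _ (MvPolynomial.X_ne_zero _)
  intro ε hε
  refine (h3 ε hε).mono ?_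
  intro x hx
  by_contra hcon
  apply hx
  refine isUnit_iff_ne_zero.2 (kv_ne ω (j := j0) ?_)
  intro h0
  apply hcon
  show MvPolynomial.eval x (MvPolynomial.X _) = 0
  rw [MvPolynomial.eval_X]
  exact h0

theorem dens_ne {ι : Type} [Fintype ι] {c : MvPolynomial ι ℤ} (hc : c ≠ 0) :
    D0 {x : ι × J → ℤ | av (kv ω x) c = 0} := by
  intro ε hε
  refine (dens_lead (P := C c) (N := 0) ω (by rw [coeff_C_zero]; exact hc) ε hε).mono ?_
  intro x hx
  rw [Set.mem_setOf_eq, map_C, coeff_C_zero]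
  exact hx

/-- **Constants times a fixed polynomial which are squares modulo a polynomial of the family.** -/
theorem dens_badK (l0 : Fin u) (hn : 2 ≤ n l0) (hn1 : ∀ l, 1 ≤ n l) {f : k[X]} (hf : f ≠ 0)
    {T : Finset (Fin u)} (hT : l0 ∉ T)
    (hcase : T.Nonempty ∨ ∀ (c : k) (g : k[X]), f ≠ C c * g ^ 2) : D0 (BadK ω n l0 f T) := by
  classical
  obtain ⟨Q, c0, hc0, hQ, hD⟩ : ∃ (Q : (𝓞 k)[X]) (c0 : k), c0 ≠ 0 ∧
      Q.map (algebraMap (𝓞 k) k) = C (c0 ^ 2) * f ∧ ∀ q i, D0 (BadC ω n l0 Q T q i) := by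
    rcases T.eq_empty_or_nonempty with rfl | hTn
    · have hns : ∀ (c : k) (g : k[X]), f ≠ C c * g ^ 2 := by
        rcases hcase with h | h
        · exact absurd h Finset.not_nonempty_empty
        · exact h
      obtain ⟨Q, c0, hc0, hQ, p, _, -, σ₀, ρ, m, G, hQe, hG⟩ := padic_root ω hf hns
      exact ⟨Q, c0, hc0, hQ, fun q i => dens_one ω n l0 hn Q q i p σ₀ ρ m G hQe hG⟩
    · obtain ⟨Q, c0, hc0, hQ⟩ := int_model f
      have hQ0 : Q ≠ 0 := by
        rintro rfl
        rw [Polynomial.map_zero] at hQ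
        exact mul_ne_zero (C_ne_zero.2 (pow_ne_zero 2 hc0)) hf hQ.symm
      obtain ⟨r, hr⟩ : ∃ r : 𝓞 k, Q.eval r ≠ 0 := by
        by_contra hcon
        push Not at hcon
        exact hQ0 (Polynomial.funext fun r => by rw [hcon r, eval_zero])
      obtain ⟨p, _, σ₀, hu⟩ := emb_unit ω hr
      obtain ⟨l1, hl1⟩ := hTn
      refine ⟨Q, c0, hc0, hQ, fun q i => dens_two ω n l0 hn Q T q i hT hl1 (hn1 l1) p σ₀ (σ₀ r) ?_⟩
      rw [eval_map, eval₂_at_apply]
      exact hu
  have h1 : D0 (⋃ i ∈ (Finset.univ : Finset (Fin (n l0))),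
      BadC ω n l0 Q T (2 * n l0 + Q.natDegree + ∑ l ∈ T, n l + 1) i) :=
    D0.biUnion _ _ fun i _ => hD _ i
  intro ε hε
  refine ((h1.union (dens_top ω l0)) ε hε).mono ?_
  intro x hx
  by_contra hcon
  simp only [Set.mem_union, not_or, Set.mem_iUnion, exists_prop, not_exists, not_and,
    Finset.mem_univ, forall_true_left, Set.mem_setOf_eq, not_not] at hcon
  obtain ⟨k1, k2⟩ := hcon
  have hD0 : Dp ω x l0 ≠ 0 := by
    intro h0
    have h8 := (lead_polA (c := fun j => kv ω x ⟨l0, j⟩) k2).2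
    rw [show polA (fun j => kv ω x ⟨l0, j⟩) = 0 from h0, leadingCoeff_zero] at h8
    exact k2.ne_zero h8.symm
  obtain ⟨i, hi⟩ := badK_sub ω hc0 hQ hx hD0
  exact k1 i hi

/-- no member of the family divides a given polynomial -/
theorem dens_ndvd (l0 : Fin u) (hn : 1 ≤ n l0) {P : k[X]} (hP : P ≠ 0) :
    D0 {x : (Σ l : Fin u, Fin (n l + 1)) × J → ℤ | Irreducible (Dp ω x l0) ∧ Dp ω x l0 ∣ P} := by
  obtain ⟨r, hr⟩ : ∃ r : k, P.eval r ≠ 0 := by
    by_contra hcon
    push Not at hcon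
    exact hP (Polynomial.funext fun r => by rw [hcon r, eval_zero])
  have hns : ∀ (c : k) (g : k[X]), P * (X - C r) ≠ C c * g ^ 2 := by
    intro c g e
    have hc : c ≠ 0 := by
      rintro rfl
      rw [C_0, zero_mul] at e
      exact mul_ne_zero hP (X_sub_C_ne_zero r) e
    have h1 : (X - C r) ∣ g ^ 2 := by
      have h2 : (X - C r) ∣ C c * g ^ 2 := ⟨P, by rw [← e]; ring⟩
      rwa [(isUnit_C.2 (isUnit_iff_ne_zero.2 hc)).dvd_mul_left] at h2
    obtain ⟨g', rfl⟩ := (prime_X_sub_C r).dvd_of_dvd_pow h1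
    have h3 : P = (X - C r) * (C c * g' ^ 2) := by
      apply mul_right_cancel₀ (X_sub_C_ne_zero r)
      rw [e]
      ring
    apply hr
    rw [h3, eval_mul, eval_sub, eval_X, eval_C, sub_self, zero_mul]
  obtain ⟨Q, c, hc, hQ, p, _, -, σ₀, ρ, m, G, e, hu⟩ :=
    padic_root ω (mul_ne_zero hP (X_sub_C_ne_zero r)) hns
  intro ε hε
  refine (dens_fix ω l0 hn Q p σ₀ ρ m G e hu ε hε).mono ?_
  rintro x ⟨hx, hd⟩
  by_contra hcon
  refine not_fixSq ω hc hQ hcon hx (polA_natDegree _) dvd_rfl 0 ?_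
  rw [zero_pow two_ne_zero, sub_zero]
  exact hd.mul_right _

/-- no member of the family divides another one -/
theorem dens_ndvd' (l0 l1 : Fin u) (h01 : l1 ≠ l0) (hn : 1 ≤ n l0) :
    D0 {x : (Σ l : Fin u, Fin (n l + 1)) × J → ℤ | Irreducible (Dp ω x l0) ∧
      Dp ω x l0 ∣ Dp ω x l1} := by
  classical
  set Δ := Polynomial.resultant (PX n l0) (PX n l1) (n l0) (n l1) with hΔ
  have hΔ0 : Δ ≠ 0 := by
    intro h0
    let v : (Σ l : Fin u, Fin (n l + 1)) → ℤ := fun i =>
      if i.1 = l0 then (X ^ n l0 : ℤ[X]).coeff (i.2 : ℕ) else (1 : ℤ[X]).coeff (i.2 : ℕ)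
    have h1 := Polynomial.resultant_map_map (PX n l0) (PX n l1) (n l0) (n l1) (av v)
    have e0 : (PX n l0).map (av v) = X ^ n l0 := by
      rw [map_PX]
      simp only [v, if_true]
      exact polA_of (natDegree_X_pow_le _)
    have e1 : (PX n l1).map (av v) = 1 := by
      rw [map_PX]
      simp only [v, if_neg h01]
      exact polA_of (by rw [natDegree_one]; exact Nat.zero_le _)
    rw [← hΔ, h0, map_zero, e0, e1, resultant_one_right, coeff_X_pow, if_pos rfl, one_pow] at h1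
    exact one_ne_zero h1
  intro ε hε
  refine ((dens_ne ω hΔ0) ε hε).mono ?_
  rintro x ⟨hx, hd⟩
  rw [Set.mem_setOf_eq]
  have h1 := Polynomial.resultant_map_map (PX n l0) (PX n l1) (n l0) (n l1) (av (kv ω x))
  rw [← hΔ, map_PX, map_PX] at h1
  rw [← h1]
  obtain ⟨A, B, -, -, hAB⟩ := Polynomial.exists_mul_add_mul_eq_C_resultant (m := n l0)
    (n := n l1) (Dp ω x l0) (Dp ω x l1) (polA_natDegree _) (polA_natDegree _) (Or.inl (by omega))
  have h2 : Dp ω x l0 ∣ C ((Dp ω x l0).resultant (Dp ω x l1) (n l0) (n l1)) := by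
    rw [← hAB]
    exact dvd_add (dvd_mul_right _ _) (hd.mul_right _)
  by_contra hne
  exact hx.not_isUnit (isUnit_of_dvd_unit h2 (isUnit_C.2 (isUnit_iff_ne_zero.2 hne)))

/-- the polynomials of the family of even degree are not norms from quadratic extensions of the
constants -/
theorem dens_notNorm (l0 : Fin u) (hn : 3 ≤ n l0) :
    D0 {x : (Σ l : Fin u, Fin (n l + 1)) × J → ℤ | Irreducible (Dp ω x l0) ∧
      ¬ NotNorm (Dp ω x l0)} := by
  classical
  have htop := dens_top (n := n) ω l0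
  rcases Nat.even_or_odd (n l0) with hev | hodd
  · have h4 : 4 ≤ n l0 := by
      obtain ⟨t, ht⟩ := hev
      omega
    have h1 : D0 (FacSet ω (PX n l0) (n l0 / 2)) := by
      refine dens_fac1 (N := n l0) ω h4 hev (polA_natDegree _) ?_
      intro p hp hp2
      let v : (Σ l : Fin u, Fin (n l + 1)) → ℤ := fun i =>
        (X ^ n i.1 + C (p : ℤ) * X : ℤ[X]).coeff (i.2 : ℕ)
      have hdg : (X ^ n l0 + C (p : ℤ) * X : ℤ[X]).natDegree ≤ n l0 := by
        refine (natDegree_add_le _ _).trans (max_le (natDegree_X_pow_le _) ?_)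
        refine (natDegree_C_mul_le _ _).trans ?_
        rw [natDegree_X]
        omega
      have e0 : (PX n l0).map (av v) = X ^ n l0 + C (p : ℤ) * X := by
        rw [map_PX]
        simp only [v]
        exact polA_of hdg
      clear_value v
      refine ⟨v, 1, isCoprime_one_left, ?_, ?_, ?_⟩
      · rw [e0, coeff_add, coeff_X_pow, if_neg (by omega), coeff_C_mul, coeff_X_one]
        ring
      · rw [e0, coeff_add, coeff_X_pow, if_pos rfl, coeff_C_mul, coeff_X, if_neg (by omega),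
          mul_zero, add_zero]
        exact isCoprime_one_left
      · intro j h1 hN
        rw [e0, coeff_add, coeff_X_pow, if_neg hN, coeff_C_mul, coeff_X, if_neg (Ne.symm h1)]
        ring
    intro ε hε
    refine ((h1.union htop) ε hε).mono ?_
    rintro x ⟨hx, hN⟩
    by_contra hcon
    simp only [Set.mem_union, not_or, Set.mem_setOf_eq, not_not] at hcon
    obtain ⟨k1, k2⟩ := hcon
    apply hN
    have hd : (Dp ω x l0).natDegree = 2 * (n l0 / 2) := by
      rw [show (Dp ω x l0).natDegree = n l0 from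
        (lead_polA (c := fun j => kv ω x ⟨l0, j⟩) k2).1, Nat.two_mul_div_two_of_even hev]
    refine notNorm_of_irr hx fun D hD => ?_
    have h6 := not_norm_of_facSet ω k1 (by omega) (by rw [map_PX]; exact hd) hD
    rw [map_PX] at h6
    exact h6
  · intro ε hε
    refine (htop ε hε).mono ?_
    rintro x ⟨hx, hN⟩
    by_contra hcon
    simp only [Set.mem_setOf_eq, not_not] at hcon
    apply hN
    refine notNorm_of_odd ?_
    rw [show (Dp ω x l0).natDegree = n l0 from
        (lead_polA (c := fun j => kv ω x ⟨l0, j⟩) hcon).1]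
    exact hodd

end nf

end Pool.Agent.Helper55.TT
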