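import Pool.Agent.Helper55.TT.Lift

/-!
# The inertia group at a place with a fibre of type `I₀*`
-/

set_option autoImplicit false
set_option linter.all false

open WeierstrassCurve WeierstrassCurve.Affine
open scoped Classical Pointwise

namespace Pool.Agent.Helper55.TT

open Pool.Agent.TH115.GD Pool.Agent.R939.EI
open Pool.Agent.W309.TD (locConst_apply exists_root sq_of_nonsq)

universe u

section loc

variable {K F Ω L Ω' : Type u} [Field K] [Field F] [Field Ω] [Field L] [Field Ω']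
  [Algebra K F] [Algebra F Ω] [Algebra K Ω] [IsScalarTower K F Ω] [IsGalois F Ω]
  [Algebra K L] [Algebra F L] [IsScalarTower K F L]
  [Algebra L Ω'] [Algebra K Ω'] [Algebra F Ω'] [IsScalarTower K L Ω'] [IsScalarTower F L Ω']
  [IsScalarTower K F Ω'] [IsGalois L Ω'] [IsSepClosed Ω] {a b : K} {α β : Ω}

/-- The square roots over `L`, and the valuations of the coordinates of the points of order two. -/
structure AddPl (w : Valuation L (WithZero (Multiplicative ℤ))) (ι : Ω →ₐ[F] Ω')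
    (α β r : Ω) : Prop where
  hsq : ∀ x : L, x ≠ 0 → IsSquare (w x) → ∃ z, z ≠ 0 ∧ x = z ^ 2
  hr : ∃ x : L, algebraMap L Ω' x = ι r ^ 2 ∧ ¬ IsSquare (w x)
  hα : ∃ x : L, algebraMap L Ω' x = ι α ∧ ¬ IsSquare (w x)
  hβ : ∃ x : L, algebraMap L Ω' x = ι β ∧ ¬ IsSquare (w x)
  hαβ : ∀ x : L, algebraMap L Ω' x = ι (α - β) → ¬ IsSquare (w x)

/-- The elements of the inertia group. -/
def InI (L : Type u) [Field L] [Algebra L Ω'] (ι : Ω →ₐ[F] Ω') (σ : Ω ≃ₐ[F] Ω) : Prop :=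
  ∃ τ : Ω' ≃ₐ[L] Ω', ∀ x, τ (ι x) = ι (σ x)

variable {w : Valuation L (WithZero (Multiplicative ℤ))} {ι : Ω →ₐ[F] Ω'} {r : Ω}

theorem nz {x : L} (h : ¬ IsSquare (w x)) : x ≠ 0 := by
  rintro rfl
  apply h
  rw [map_zero]
  exact ⟨0, (mul_zero 0).symm⟩

section sgn

variable (hA : AddPl w ι α β r)

include hA


theorem AddPl.fix {u : Ω'} {x : L} (hu : u ^ 2 = algebraMap L Ω' x) (hx : x ≠ 0)
    (h : IsSquare (w x)) (τ : Ω' ≃ₐ[L] Ω') : τ u = u := by
  obtain ⟨z, hz, rfl⟩ := hA.hsq x hx h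
  rw [map_pow] at hu
  rcases sq_eq_sq_iff_eq_or_eq_neg.1 hu with h | h
  · rw [h, τ.commutes]
  · rw [h, map_neg, τ.commutes]

/-- Square roots of elements of odd valuation. -/
theorem AddPl.flip {u : Ω'} {x : L} (hu : u ^ 2 = algebraMap L Ω' x)
    (h : ¬ IsSquare (w x)) (τ : Ω' ≃ₐ[L] Ω') {e : Ω'} (he : e = 1 ∨ e = -1)
    (hτ : τ (ι r) = e * ι r) : τ u = e * u := by
  obtain ⟨y, hy, hny⟩ := hA.hr
  have hx0 : x ≠ 0 := nz h
  have hy0 : y ≠ 0 := nz hny
  have hr0 : ι r ≠ 0 := by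
    intro h0
    rw [h0, zero_pow two_ne_zero] at hy
    exact hy0 ((_root_.map_eq_zero _).1 hy)
  have h1 : τ (u * ι r) = u * ι r := by
    refine hA.fix (x := x * y) ?_ (mul_ne_zero hx0 hy0) ?_ τ
    · rw [mul_pow, hu, ← hy, map_mul]
    · rw [map_mul]
      exact sq_of_nonsq h hny
  rw [map_mul, hτ] at h1
  have h2 : τ u * e * ι r = u * ι r := by rw [← h1]; ring
  have h3 := mul_right_cancel₀ hr0 h2
  rcases he with rfl | rfl
  · rw [one_mul]; rwa [mul_one] at h3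
  · linear_combination -h3

theorem AddPl.r_cases (τ : Ω' ≃ₐ[L] Ω') : τ (ι r) = ι r ∨ τ (ι r) = -ι r := by
  obtain ⟨y, hy, hny⟩ := hA.hr
  have : τ (ι r) ^ 2 = ι r ^ 2 := by rw [← map_pow, ← hy, τ.commutes]
  exact sq_eq_sq_iff_eq_or_eq_neg.1 this

end sgn

section tors

variable (hA : AddPl w ι α β r) (hR : Roots a b Ω α β)

include hA

/-- There is an element of the inertia group which moves `r`. -/
theorem AddPl.exists_flip' : ∃ τ : Ω' ≃ₐ[L] Ω', τ (ι r) = -ι r := by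
  by_contra hcon
  push Not at hcon
  have hfix : ∀ τ : Ω' ≃ₐ[L] Ω', τ (ι r) = ι r := fun τ => (hA.r_cases τ).resolve_right (hcon τ)
  obtain ⟨y, hy, hny⟩ := hA.hr
  have : ι r ∈ Set.range (algebraMap L Ω') := by
    rw [InfiniteGalois.mem_range_algebraMap_iff_fixed]
    exact hfix
  obtain ⟨z, hz⟩ := this
  apply hny
  have : y = z ^ 2 := by
    apply (algebraMap L Ω').injective
    rw [hy, map_pow, hz]
  rw [this, map_pow, pow_two]
  exact ⟨_, rfl⟩

theorem AddPl.exists_flip : ∃ σ : Ω ≃ₐ[F] Ω, InI L ι σ ∧ σ r = -r := by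
  obtain ⟨τ, hτ⟩ := hA.exists_flip'
  obtain ⟨σ, hσ⟩ := exists_restrict (F := F) (Ω := Ω) (L := L) (Ω' := Ω') ι τ
  refine ⟨σ, ⟨τ, hσ⟩, ?_⟩
  have hinj : Function.Injective ι := ι.toRingHom.injective
  apply hinj
  rw [← hσ, hτ, map_neg]

theorem AddPl.fixα {σ : Ω ≃ₐ[F] Ω} (hσ : InI L ι σ) : σ α = α ∧ σ β = β := by
  obtain ⟨τ, hτ⟩ := hσ
  obtain ⟨x, hx, -⟩ := hA.hα
  obtain ⟨y, hy, -⟩ := hA.hβ
  have hinj : Function.Injective ι := ι.toRingHom.injective
  constructor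
  · apply hinj
    rw [← hτ, ← hx, τ.commutes]
  · apply hinj
    rw [← hτ, ← hy, τ.commutes]

include hR

/-- The inertia group acts trivially on the points of order two. -/
theorem AddPl.fix_two {σ : Ω ≃ₐ[F] Ω} (hσ : InI L ι σ) {X : Pt (crvT a b) Ω} (hX : X + X = 0) :
    act (crvT a b) (rs K σ) X = X := by
  obtain ⟨h1, h2⟩ := hA.fixα hσ
  have key : ∀ {x : Ω} (hn), σ x = x → act (crvT a b) (rs K σ) (Point.some x 0 hn) =
      Point.some x 0 hn := by
    intro x hn hx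
    obtain ⟨h, hh⟩ := act_some (crvT a b) (rs K σ) hn
    have e1 : rs K σ x = x := hx
    rw [hh]
    simp only [e1, map_zero]
  rcases tor_cases hR.E hX with ⟨h, -⟩ | ⟨hn, h, -⟩ | ⟨hn, h, -⟩ | ⟨hn, h, -⟩
  · rw [h, map_zero]
  · rw [h]; exact key hn (map_zero σ)
  · rw [h]; exact key hn h1
  · rw [h]; exact key hn h2

/-- The signs of the square roots attached to the points of order two. -/
theorem AddPl.signs {σ : Ω ≃ₐ[F] Ω} (hσ : InI L ι σ) (hr : σ r = -r) {Y : Pt (crvT a b) Ω}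
    (hY : Y + Y = 0) {u : Ω} :
    (u ^ 2 = d0 α β Y → σ u = s0 Y * u) ∧ (u ^ 2 = d1 α β Y → σ u = s1 α Y * u) := by
  obtain ⟨τ, hτ⟩ := hσ
  have hτr : τ (ι r) = -1 * ι r := by rw [hτ, hr, map_neg, neg_one_mul]
  have hinj : Function.Injective ι := ι.toRingHom.injective
  obtain ⟨x, hx, nx⟩ := hA.hα
  obtain ⟨y, hy, ny⟩ := hA.hβ
  have hxy : algebraMap L Ω' (x - y) = ι (α - β) := by rw [map_sub, hx, hy, map_sub]
  have nxy := hA.hαβ _ hxy
  have x0 : x ≠ 0 := nz nx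
  have y0 : y ≠ 0 := nz ny
  have xy0 : x - y ≠ 0 := nz nxy
  have even : ∀ {u : Ω} {z : L}, algebraMap L Ω' z = ι u ^ 2 → z ≠ 0 → IsSquare (w z) →
      σ u = 1 * u := by
    intro u z hz z0 hw
    apply hinj
    rw [← hτ, one_mul]
    exact hA.fix hz.symm z0 hw τ
  have odd : ∀ {u : Ω} {z : L}, algebraMap L Ω' z = ι u ^ 2 → ¬ IsSquare (w z) →
      σ u = -1 * u := by
    intro u z hz hw
    apply hinj
    rw [← hτ, hA.flip hz.symm hw τ (Or.inr rfl) hτr]
    simp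
  have nneg : ∀ {z : L}, ¬ IsSquare (w z) → ¬ IsSquare (w (-z)) := by
    intro z h
    rwa [Valuation.map_neg]
  rcases tor_cases hR.E hY with ⟨h, e0, e1⟩ | ⟨hn, h, e0, e1⟩ | ⟨hn, h, e0, e1⟩ | ⟨hn, h, e0, e1⟩
  · rw [e0, e1, h]
    have f0 : d0 α β (0 : Pt (crvT a b) Ω) = 1 := rfl
    have f1 : d1 α β (0 : Pt (crvT a b) Ω) = 1 := rfl
    rw [f0, f1]
    have : u ^ 2 = 1 → σ u = 1 * u := fun hu => even (z := 1) (by
      rw [← map_pow, hu, map_one, map_one]) one_ne_zero (by rw [map_one]; exact sq_one)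
    exact ⟨this, this⟩
  · rw [e0, e1, h]
    have f0 : d0 α β (Point.some 0 0 hn : Pt (crvT a b) Ω) = α * β := by simp [d0]
    have f1 : d1 α β (Point.some 0 0 hn : Pt (crvT a b) Ω) = -α := by
      simp [d1, Ne.symm hR.E.nea]
    rw [f0, f1]
    refine ⟨fun hu => even (z := x * y) ?_ (mul_ne_zero x0 y0) ?_, fun hu => odd (z := -x) ?_
      (nneg nx)⟩
    · rw [← map_pow, hu, map_mul, map_mul, hx, hy]
    · rw [map_mul]; exact sq_of_nonsq nx ny
    · rw [← map_pow, hu, map_neg, map_neg, hx]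
  · rw [e0, e1, h]
    have f0 : d0 α β (Point.some α 0 hn : Pt (crvT a b) Ω) = α := by simp [d0, hR.E.nea]
    have f1 : d1 α β (Point.some α 0 hn : Pt (crvT a b) Ω) = α * (α - β) := by simp [d1]
    rw [f0, f1]
    refine ⟨fun hu => odd (z := x) ?_ nx, fun hu => even (z := x * (x - y)) ?_
      (mul_ne_zero x0 xy0) ?_⟩
    · rw [← map_pow, hu, hx]
    · rw [← map_pow, hu, map_mul, map_mul, hx, hxy]
    · rw [map_mul]; exact sq_of_nonsq nx nxy
  · rw [e0, e1, h]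
    have f0 : d0 α β (Point.some β 0 hn : Pt (crvT a b) Ω) = β := by simp [d0, hR.E.neb]
    have f1 : d1 α β (Point.some β 0 hn : Pt (crvT a b) Ω) = β - α := by
      simp [d1, Ne.symm hR.E.neab]
    rw [f0, f1]
    refine ⟨fun hu => odd (z := y) ?_ ny, fun hu => odd (z := -(x - y)) ?_ (nneg nxy)⟩
    · rw [← map_pow, hu, hy]
    · rw [← map_pow, hu, map_neg, hxy, map_sub, map_sub]; ring

/-- The elements of the inertia group which move `r` act on the points of order four as `-1`. -/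
theorem AddPl.neg_four {σ : Ω ≃ₐ[F] Ω} (hσ : InI L ι σ) (hr : σ r = -r) {X : Pt (crvT a b) Ω}
    (hX : 2 • (2 • X) = 0) : act (crvT a b) (rs K σ) X = -X := by
  rw [two_nsmul, two_nsmul] at hX
  by_cases h2 : X + X = 0
  · rw [hA.fix_two hR hσ h2]
    exact eq_neg_of_add_eq_zero_left h2
  obtain ⟨ha, hb⟩ := hA.fixα hσ
  set T := act (crvT a b) (rs K σ) X - X with hT
  have hTT : T + T = 0 := by
    rw [hT, sub_add_sub_comm, ← map_add, hA.fix_two hR hσ hX, sub_self]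
  have hTX : act (crvT a b) (rs K σ) X = X + T := by rw [hT]; abel
  obtain ⟨t0, t1⟩ := h_translate hR.E hTT (P := X) (fun h => absurd h h2)
  have g0 : h0 α β (X + T) = σ (h0 α β X) := by
    rw [← hTX]
    exact hR.h0_act (rs K σ) X
  have g1 : h1 α β (X + T) = σ (h1 α β X) := by
    rw [← hTX]
    have := Pool.Agent.TH115.GD.h1_act (crvT a b) (rs K σ) α β X
    have ea : rs K σ α = α := ha
    have eb : rs K σ β = β := hb
    rw [ea, eb] at this
    exact this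
  have k0 := (hA.signs hR hσ hr hX (u := h0 α β X)).1 (h0_sq hR.E X)
  have k1 := (hA.signs hR hσ hr hX (u := h1 α β X)).2 (h1_sq hR.E X)
  have q0 : s0 T = s0 (X + X) := by
    apply mul_right_cancel₀ (h0_ne hR.E X)
    rw [← t0, g0, k0]
  have q1 : s1 α T = s1 α (X + X) := by
    apply mul_right_cancel₀ (h1_ne hR.E X)
    rw [← t1, g1, k1]
  have hTe : T = X + X := tor_ext hR.E hTT hX q0 q1
  rw [hTX, hTe]
  have : X + (X + X) + X = 0 := by rw [← hX]; abel
  exact eq_neg_of_add_eq_zero_left this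

/-- There are no rational points of order four. -/
theorem AddPl.tors (m : ℕ) {X : Pt (crvT a b) Ω}
    (hX : ∀ σ : Ω ≃ₐ[F] Ω, act (crvT a b) (rs K σ) X = X) (h : 2 ^ m • X = 0) : 2 • X = 0 := by
  obtain ⟨γ, hγ, hγr⟩ := hA.exists_flip
  induction m with
  | zero => rw [pow_zero, one_smul] at h; rw [h, smul_zero]
  | succ m ih =>
    rcases Nat.eq_zero_or_pos m with rfl | hm
    · rwa [zero_add, pow_one] at h
    · obtain ⟨j, rfl⟩ : ∃ j, m = j + 1 := ⟨m - 1, by omega⟩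
      apply ih
      have h4 : 2 • (2 • (2 ^ j • X)) = 0 := by
        rw [← h, ← mul_smul, ← mul_smul]
        congr 1
        ring
      have h5 := hA.neg_four hR hγ hγr h4
      rw [map_nsmul, hX] at h5
      have h6 : 2 ^ j • X + 2 ^ j • X = 0 := by
        nth_rewrite 1 [h5]
        exact neg_add_cancel _
      rw [← two_nsmul, ← mul_smul, ← pow_succ'] at h6
      exact h6

end tors

end loc

end Pool.Agent.Helper55.TT
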