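import Pool.Agent.Helper55.TT.Add

/-!
# The decomposition group at a place with a fibre of type `I₀*`
-/

set_option autoImplicit false
set_option linter.all false

open WeierstrassCurve WeierstrassCurve.Affine
open scoped Classical Pointwise

namespace Pool.Agent.Helper55.TT

open Pool.Agent.TH115.GD Pool.Agent.R939.EI
open Pool.Agent.W309.TD (locConst_apply exists_root sq_of_nonsq)

universe u

section loc

variable {K F Ω L Ω' : Type u} [Field K] [Field F] [Field Ω] [Field L] [Field Ω']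
  [Algebra K F] [Algebra F Ω] [Algebra K Ω] [IsScalarTower K F Ω] [IsGalois F Ω]
  [Algebra K L] [Algebra F L] [IsScalarTower K F L]
  [Algebra L Ω'] [Algebra K Ω'] [Algebra F Ω'] [IsScalarTower K L Ω'] [IsScalarTower F L Ω']
  [IsScalarTower K F Ω'] [IsGalois L Ω'] [IsSepClosed Ω] {a b : K} {α β : Ω}
  {w : Valuation L (WithZero (Multiplicative ℤ))} {ι : Ω →ₐ[F] Ω'} {r : Ω}

omit [Field K] [Algebra K F] [Algebra K Ω] [IsScalarTower K F Ω] [IsGalois F Ω] [Algebra K L]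
  [Algebra F L] [IsScalarTower K F L] [Algebra K Ω'] [IsScalarTower K L Ω'] [IsScalarTower F L Ω']
  [IsScalarTower K F Ω'] [IsGalois L Ω'] [IsSepClosed Ω] in
theorem InI.mul {σ σ' : Ω ≃ₐ[F] Ω} (h : InI L ι σ) (h' : InI L ι σ') : InI L ι (σ * σ') := by
  obtain ⟨τ, hτ⟩ := h
  obtain ⟨τ', hτ'⟩ := h'
  exact ⟨τ * τ', fun x => by rw [AlgEquiv.mul_apply, hτ', hτ]; rfl⟩

omit [Field K] [Algebra K F] [Algebra K Ω] [IsScalarTower K F Ω] [IsGalois F Ω] [Algebra K L]
  [Algebra F L] [IsScalarTower K F L] [Algebra K Ω'] [IsScalarTower K L Ω'] [IsScalarTower F L Ω']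
  [IsScalarTower K F Ω'] [IsGalois L Ω'] [IsSepClosed Ω] in
theorem InI.inv {σ : Ω ≃ₐ[F] Ω} (h : InI L ι σ) : InI L ι σ⁻¹ := by
  obtain ⟨τ, hτ⟩ := h
  refine ⟨τ⁻¹, fun x => ?_⟩
  apply τ.injective
  rw [hτ, ← AlgEquiv.mul_apply, mul_inv_cancel, ← AlgEquiv.mul_apply, mul_inv_cancel]
  rfl

section van

variable (hA : AddPl w ι α β r) (hR : Roots a b Ω α β)

include hA hR

/-- The elements of the inertia group which fix `r` are killed by cocycles with values in the points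
of order two. -/
theorem AddPl.van {f : (Ω ≃ₐ[F] Ω) → Pt (crvT a b) Ω} (hf : IsCoc (crvT a b) f)
    (hf2 : ∀ σ, InI L ι σ → f σ + f σ = 0) {σ : Ω ≃ₐ[F] Ω} (hσ : InI L ι σ) (hr : σ r = r) :
    f σ = 0 := by
  choose res hres using exists_restrict (F := F) (Ω := Ω) (L := L) (Ω' := Ω') ι
  have hinj : Function.Injective ι := ι.toRingHom.injective
  have hI : ∀ τ, InI L ι (res τ) := fun τ => ⟨τ, hres τ⟩
  have hmul : ∀ τ τ', res (τ * τ') = res τ * res τ' := by
    intro τ τ'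
    apply AlgEquiv.ext
    intro x
    apply hinj
    rw [← hres, AlgEquiv.mul_apply, hres τ', hres τ]
    rfl
  obtain ⟨τ0, hτ0⟩ := hσ
  have hσ0 : res τ0 = σ := by
    apply AlgEquiv.ext
    intro x
    apply hinj
    rw [← hres, hτ0]
  have hg : ∀ τ τ', f (res (τ * τ')) = f (res τ) + f (res τ') := by
    intro τ τ'
    rw [hmul, hf.mul, hA.fix_two hR (hI τ) (hf2 _ (hI τ'))]
  obtain ⟨S, hS, hSf⟩ := fin_det hf.lc
  have hlc : ∀ (X : Type u) (g : Pt (crvT a b) Ω → X), IsLocallyConstant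
      (fun τ : Ω' ≃ₐ[L] Ω' => g (f (res τ))) := by
    intro X g
    rw [IsLocallyConstant.iff_exists_open]
    intro τ
    refine ⟨_, open_fix (hS.image ι) τ, fun x _ => rfl, fun τ' hτ' => ?_⟩
    have : f (res τ') = f (res τ) := by
      apply hSf
      intro x hx
      apply hinj
      rw [← hres, ← hres]
      exact hτ' _ ⟨x, hx, rfl⟩
    rw [this]
  have h2' : (2 : Ω') ≠ 0 := by
    rw [← map_ofNat ι 2]
    exact (map_ne_zero_iff _ hinj).2 hR.E.two
  have key : ∀ g : Pt (crvT a b) Ω → Ω, (∀ P, g P = 1 ∨ g P = -1) →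
      (∀ P P', P + P = 0 → P' + P' = 0 → g (P + P') = g P * g P') → g (f σ) = 1 := by
    intro g hg1 hgm
    obtain ⟨z, x, z0, hz, hτz⟩ := exists_root (K := L) h2' (fun τ => ι (g (f (res τ))))
      (fun τ => by
        rcases hg1 (f (res τ)) with h | h <;> rw [h] <;> simp)
      (fun τ τ' => by
        show ι (g (f (res (τ * τ')))) = ι (g (f (res τ))) * ι (g (f (res τ')))
        rw [hg, hgm _ _ (hf2 _ (hI _)) (hf2 _ (hI _)), map_mul])
      (hlc Ω' (fun P => ι (g P)))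
    have hx0 : x ≠ 0 := by
      rintro rfl
      rw [map_zero] at hz
      exact pow_ne_zero 2 z0 hz
    have h1 : τ0 z = z := by
      by_cases hw : IsSquare (w x)
      · exact hA.fix hz hx0 hw τ0
      · have := hA.flip hz hw τ0 (e := 1) (Or.inl rfl) (by rw [hτ0, hr, one_mul])
        rwa [one_mul] at this
    have h3 := hτz τ0
    rw [h1] at h3
    have h4 : ι (g (f (res τ0))) = 1 := by
      apply mul_right_cancel₀ z0
      rw [← h3, one_mul]
    rw [hσ0] at h4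
    apply hinj
    rw [h4, map_one]
  have hfσ := hf2 σ ⟨τ0, hτ0⟩
  apply tor_ext hR.E hfσ (add_zero 0)
  · rw [key s0 s0_sq fun P P' hP hP' => (s_addA hR.E hP hP').1]
    rfl
  · rw [key (s1 α) (s1_sq α) fun P P' hP hP' => (s_addA hR.E hP hP').2]
    rfl

theorem AddPl.eq_of_flip {f : (Ω ≃ₐ[F] Ω) → Pt (crvT a b) Ω} (hf : IsCoc (crvT a b) f)
    (hf2 : ∀ σ, InI L ι σ → f σ + f σ = 0) {σ σ' : Ω ≃ₐ[F] Ω} (hσ : InI L ι σ)
    (hσ' : InI L ι σ') (hr : σ r = -r) (hr' : σ' r = -r) : f σ' = f σ := by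
  have h1 : InI L ι (σ' * σ⁻¹) := hσ'.mul hσ.inv
  have h2 : (σ' * σ⁻¹) r = r := by
    have h3 : σ⁻¹ r = -r := by
      apply σ.injective
      rw [← AlgEquiv.mul_apply, mul_inv_cancel, map_neg, hr, neg_neg]
      rfl
    rw [AlgEquiv.mul_apply, h3, map_neg, hr', neg_neg]
  have h3 := hf.mul (σ' * σ⁻¹) σ
  rw [inv_mul_cancel_right, hA.van hR hf hf2 h1 h2, hA.fix_two hR h1 (hf2 _ hσ), zero_add] at h3
  exact h3

end van

/-- The elements of the decomposition group. -/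
def InD (K L : Type u) [Field K] [Field L] [Algebra L Ω'] [Algebra K Ω] [Algebra K Ω']
    (ι : Ω →ₐ[F] Ω') (g : Ω ≃ₐ[K] Ω) : Prop :=
  ∃ (G : Ω' ≃ₐ[K] Ω') (γ : L ≃+* L), (∀ x, G (algebraMap L Ω' x) = algebraMap L Ω' (γ x)) ∧
    ∀ x, G (ι x) = ι (g x)

omit [IsScalarTower K F Ω] [IsGalois F Ω] [Algebra K L]
  [Algebra F L] [IsScalarTower K F L] [IsScalarTower K L Ω'] [IsScalarTower F L Ω']
  [IsScalarTower K F Ω'] [IsGalois L Ω'] [IsSepClosed Ω] in
theorem InD.conj {g : Ω ≃ₐ[K] Ω} (hg : InD K L ι g) {σ σ' : Ω ≃ₐ[F] Ω} (hσ : InI L ι σ)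
    (h : ∀ x, σ' (g x) = g (σ x)) : InI L ι σ' := by
  obtain ⟨G, γ, hG, hGι⟩ := hg
  obtain ⟨τ, hτ⟩ := hσ
  let e : Ω' ≃+* Ω' := (G.symm.toRingEquiv.trans τ.toRingEquiv).trans G.toRingEquiv
  refine ⟨AlgEquiv.ofRingEquiv (f := e) ?_, ?_⟩
  · intro x
    show G (τ (G.symm (algebraMap L Ω' x))) = algebraMap L Ω' x
    have h1 : G.symm (algebraMap L Ω' x) = algebraMap L Ω' (γ.symm x) := by
      apply G.injective
      rw [AlgEquiv.apply_symm_apply, hG, RingEquiv.apply_symm_apply]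
    rw [h1, τ.commutes, hG, RingEquiv.apply_symm_apply]
  · intro x
    show G (τ (G.symm (ι x))) = ι (σ' x)
    obtain ⟨y, rfl⟩ := g.surjective x
    rw [← hGι, AlgEquiv.symm_apply_apply, hτ, hGι, h]

section dec

variable (hA : AddPl w ι α β r) (hR : Roots a b Ω α β) (hN : Preserves K F Ω)

include hA hR hN

/-- The relation at the decomposition group. -/
theorem AddPl.dec {δ : K} (hr2 : r ^ 2 = algebraMap K Ω δ)
    {c : ℕ → (Ω ≃ₐ[F] Ω) → Pt (crvT a b) Ω} (hc : ∀ n, IsCoc (crvT a b) (c n))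
    {C : ℕ → (Ω ≃ₐ[K] Ω) → Pt (crvT a b) Ω} (hC : IsLift (crvT a b) c C) (n : ℕ)
    (hc2 : ∀ σ, InI L ι σ → c n σ + c n σ = 0) {γ : Ω ≃ₐ[F] Ω} (hγ : InI L ι γ)
    (hγr : γ r = -r) {g : Ω ≃ₐ[K] Ω} (hg : InD K L ι g) (h4 : 2 • (2 • C n g) = 0) :
    2 • C n g = c n γ - act (crvT a b) (ak g) (c n γ) := by
  obtain ⟨γ', hγ'⟩ := exists_conj hN g⁻¹ γ
  have hconj : ∀ x, γ' (g x) = g (γ x) := by
    intro x
    have h1 := hγ' (g x)
    have h3 := congrArg g h1
    rw [← AlgEquiv.mul_apply, mul_inv_cancel, ← AlgEquiv.mul_apply g⁻¹ g, inv_mul_cancel] at h3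
    exact h3
  have hI' : InI L ι γ' := hg.conj hγ hconj
  have hgr : g r = r ∨ g r = -r := by
    have : g r ^ 2 = r ^ 2 := by rw [← map_pow, hr2, g.commutes]
    exact sq_eq_sq_iff_eq_or_eq_neg.1 this
  have hr' : γ' r = -r := by
    have h1 := hconj r
    rw [hγr, map_neg] at h1
    rcases hgr with h | h
    · rw [h] at h1; exact h1
    · rw [h, map_neg, neg_neg] at h1
      rw [← neg_eq_iff_eq_neg]
      exact h1
  have hcγ : c n γ' = c n γ := hA.eq_of_flip hR (hc n) hc2 hγ hI' hγr hr'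
  have e1 := hC.mul n g (γ.restrictScalars K)
  have e2 := hC.mul n (γ'.restrictScalars K) g
  have e3 : g * γ.restrictScalars K = γ'.restrictScalars K * g := by
    apply AlgEquiv.ext
    intro x
    exact (hconj x).symm
  have e4 : act (crvT a b) (ak (γ'.restrictScalars K)) (C n g) = -(C n g) :=
    hA.neg_four hR hI' hr' h4
  rw [e3, e2, hC.res, hC.res, hcγ, e4] at e1
  rw [two_nsmul]
  have e5 : c n γ - C n g = C n g + act (crvT a b) (ak g) (c n γ) := by
    rw [← e1]; abel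
  have e6 : C n g + C n g + act (crvT a b) (ak g) (c n γ) = c n γ := by
    rw [add_assoc, ← e5]; abel
  exact eq_sub_of_add_eq e6

end dec

end loc

end Pool.Agent.Helper55.TT
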