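import Pool.Graph.R_seed8.TH115.SD.Second
import Pool.Agent.Helper55.TT.Dec

/-!
# Quadratic characters of `Gal(Sep F / K)` which are trivial at one place
-/

set_option autoImplicit false
set_option linter.all false

open Polynomial IsDedekindDomain WeierstrassCurve WeierstrassCurve.Affine
open scoped Classical

namespace Pool.Agent.Helper55.TT

open Pool.Agent.TH115.GD Pool.Agent.R939.EI
open Pool.Agent.W309.TD (exists_root)

theorem inj_alg {L E : Type} [Field L] [Field E] [Algebra L E] {x y : L}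
    (h : algebraMap L E x = algebraMap L E y) : x = y := (algebraMap L E).injective h

section glob

variable {k k' K F : Type} [Field k] [Field k'] [Algebra k k'] [IsSepClosure k k']
  [Field K] [Algebra k[X] K] [IsFractionRing k[X] K] [Field F] [Algebra k'[X] F]
  [IsFractionRing k'[X] F] [Algebra K F]
  (hKF : ∀ p : k[X], algebraMap K F (algebraMap k[X] K p) =
    algebraMap k'[X] F (p.map (algebraMap k k')))
  (h2 : (2 : k) ≠ 0) {p : k[X]} (hp : p ≠ 0)
  (hsep : ∀ π : k[X], Irreducible π → π ∣ p → π.Separable)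

include hKF h2 hp hsep in
/-- Elements of `K` with even valuations at the places of `F` outside of `p`. -/
theorem glob0 {e : K} (he : e ≠ 0)
    (hloc : ∀ v : HeightOneSpectrum k'[X], p.map (algebraMap k k') ∉ v.asIdeal →
      par v (algebraMap K F e) = 0) :
    ∃ (A : k[X]) (ε : k) (h : K), A.Monic ∧ Squarefree A ∧ A ∣ p ∧ ε ≠ 0 ∧ h ≠ 0 ∧
      e = algebraMap k[X] K (C ε * A) * h ^ 2 := by
  haveI : IsSepClosed k' := IsSepClosure.sep_closed k
  haveI : IsGalois k k' := inferInstance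
  have injk := (algebraMap k k').injective
  set a0 := algebraMap K F e with ha0
  have n0 : a0 ≠ 0 := (_root_.map_ne_zero _).2 he
  set pp := p.map (algebraMap k k') with hpp
  have hpp0 : pp ≠ 0 := (Polynomial.map_ne_zero_iff injk).2 hp
  have hsplit : pp.Splits := splits_of_sep hp hsep
  have h2' : (2 : k') ≠ 0 := by
    rw [← map_ofNat (algebraMap k k') 2]
    exact (_root_.map_ne_zero _).2 h2
  have key : ∀ (s : k' ≃ₐ[k] k') θ, par (pl (s θ)) a0 = par (pl θ) a0 := by
    intro s θ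
    obtain ⟨τ, hτ⟩ := lift (Ω := Sep F) hKF s
    refine par_galois τ s hτ n0 ?_ θ
    rw [ha0, ← IsScalarTower.algebraMap_apply K F (Sep F), τ.commutes]
  set Z : Finset k' := pp.roots.toFinset with hZ
  have hZmem : ∀ θ, θ ∈ Z ↔ pp.IsRoot θ := by
    intro θ
    rw [hZ, Multiset.mem_toFinset, mem_roots hpp0]
  obtain ⟨c, hc, r⟩ := rep h2' n0 Z (fun v hv => hloc v fun hm => by
    obtain ⟨θ, hθ, h4⟩ := exists_root_of_mem hpp0 hsplit hm
    exact hv θ (Multiset.mem_toFinset.2 hθ) h4)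
  have isRoot_gal : ∀ (s : k' ≃ₐ[k] k') (θ : k'), pp.IsRoot θ → pp.IsRoot (s θ) := by
    intro s θ h
    rw [IsRoot.def, hpp, eval_map_algebraMap] at h ⊢
    have h5 : aeval (s θ) p = s (aeval θ p) := Polynomial.aeval_algHom_apply s.toAlgHom θ p
    rw [h5, h, map_zero]
  set DA := Z.filter (fun θ => par (pl θ) a0 = 1) with hDA
  obtain ⟨A, hA1, hA2⟩ := desc (k := k) DA (fun s θ hθ => by
    rw [hDA, Finset.mem_filter] at hθ ⊢
    refine ⟨(hZmem _).2 (isRoot_gal s θ ((hZmem θ).1 hθ.1)), ?_⟩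
    rw [key]
    exact hθ.2)
  have hAsq : Squarefree A := by
    apply Separable.squarefree
    rw [← separable_map (algebraMap k k'), hA2, separable_prod_X_sub_C_iff']
    intro x _ y _ h
    exact h
  have hAp : A ∣ p := by
    rw [← Polynomial.map_dvd_map' (algebraMap k k'), hA2]
    have := (Multiset.prod_X_sub_C_dvd_iff_le_roots hpp0 DA.val).2 (by
      rw [Multiset.le_iff_subset DA.nodup]
      intro θ hθ
      exact (mem_roots hpp0).2 ((hZmem θ).1 (Finset.mem_filter.1 hθ).1))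
    exact this
  have hAK : algebraMap k[X] K A ≠ 0 := by simpa using hA1.ne_zero
  have hAF : algebraMap K F (algebraMap k[X] K A) ≠ 0 := (_root_.map_ne_zero _).2 hAK
  have hg : algebraMap K F (e / algebraMap k[X] K A) = c ^ 2 := by
    rw [map_div₀, div_eq_iff hAF, hKF, hA2, ← ha0]
    exact r
  obtain ⟨ε, h, hε, hh, hεh⟩ := sq_const hKF (div_ne_zero he hAK) hg
  refine ⟨A, ε, h, hA1, hAsq, hAp, hε, hh, ?_⟩
  rw [div_eq_iff hAK] at hεh
  rw [hεh, map_mul]
  ring

end glob

section core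

variable {k k' K F : Type} [Field k] [Field k'] [Algebra k k'] [Field K] [Algebra k[X] K]
    [Field F] [Algebra k'[X] F] [IsFractionRing k'[X] F] [Algebra K F]

/-- The nonzero constant multiples of the monic squarefree divisors of `p` which are prime to `π` and
squares modulo `π` are squares. -/
def IndepAt {k : Type} [Field k] (π p : k[X]) : Prop :=
  ∀ (u : k) (S : k[X]), u ≠ 0 → S.Monic → Squarefree S → S ∣ p → ¬ π ∣ S → SqMod π (C u * S) →
    S = 1 ∧ IsSquare u

/-- Elements of the decomposition group fix the square root of a constant times a polynomial only if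
it is a square modulo `π`. -/
theorem sq_res (hT : IsTower k k' K F) (h2 : (2 : k) ≠ 0) {π : k[X]} (hπ : Irreducible π) {θ : k'}
    (hθ : aeval θ π = 0) (ι : Sep F →ₐ[F] Sep (Comp k'[X] F (pl θ))) {q : k[X]} (hq : ¬ π ∣ q)
    {y : Sep F} (hy : y ^ 2 = algebraMap K (Sep F) (algebraMap k[X] K q))
    (hD : ∀ g : Sep F ≃ₐ[K] Sep F, InD K (Comp k'[X] F (pl θ)) ι g → g y = y) : SqMod π q := by
  haveI := hT.sep
  haveI := hT.fracK
  haveI : IsSepClosed k' := IsSepClosure.sep_closed k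
  have h2' : (2 : k') ≠ 0 := by
    rw [← map_ofNat (algebraMap k k') 2]
    exact (_root_.map_ne_zero _).2 h2
  haveI : IsSepClosure K (Sep F) := sepKΩ hT.map
  haveI : Normal K (Sep F) := inferInstance
  have hqθ : aeval θ q ≠ 0 := by rwa [Ne, ← dvd_iff_aeval hπ hθ]
  have hqθ' : (q.map (algebraMap k k')).eval θ ≠ 0 := by rwa [eval_map_algebraMap]
  have hq0 : q ≠ 0 := by
    rintro rfl
    exact hq (dvd_zero _)
  have hx : algebraMap K (Comp k'[X] F (pl θ)) (algebraMap k[X] K q) =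
      algebraMap F (Comp k'[X] F (pl θ)) (algebraMap k'[X] F (q.map (algebraMap k k'))) := by
    rw [IsScalarTower.algebraMap_apply K F (Comp k'[X] F (pl θ)), hT.map]
  have hL0 : algebraMap K (Comp k'[X] F (pl θ)) (algebraMap k[X] K q) ≠ 0 := by
    have : algebraMap k[X] K q ≠ 0 := by simpa using hq0
    exact (_root_.map_ne_zero _).2 this
  obtain ⟨z, z0, hz⟩ := even_sq θ h2' hL0 ⟨1, by rw [wv_one hT hqθ, mul_one]⟩
  have hιy : ι y ^ 2 = algebraMap (Comp k'[X] F (pl θ)) (Sep (Comp k'[X] F (pl θ))) z ^ 2 := by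
    rw [← map_pow, hy, ← map_pow, ← hz,
      ← IsScalarTower.algebraMap_apply K (Comp k'[X] F (pl θ))]
    exact (ι.restrictScalars K).commutes _
  haveI : NeZero ((2 : ℕ) : k') := ⟨by exact_mod_cast h2'⟩
  obtain ⟨ω, hω⟩ := IsSepClosed.exists_pow_nat_eq ((q.map (algebraMap k k')).eval θ) 2
  have key : ∀ s : k' ≃ₐ[k] k', s θ = θ → s ω = ω := by
    intro s hs
    obtain ⟨γ, hγ, hγw⟩ := comp_aut (pl θ) (es F (s : k' ≃+* k'))
      (es_val (F := F) θ (s : k' ≃+* k') hs)
    have hγK : ∀ x : K, γ (algebraMap K (Comp k'[X] F (pl θ)) x) = algebraMap K _ x := by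
      intro x
      rw [IsScalarTower.algebraMap_apply K F (Comp k'[X] F (pl θ)), hγ, es_K hT]
    obtain ⟨G0, hG0⟩ := exists_G γ
    let G : Sep (Comp k'[X] F (pl θ)) ≃ₐ[K] Sep (Comp k'[X] F (pl θ)) :=
      AlgEquiv.ofRingEquiv (f := G0) (by
        intro x
        rw [IsScalarTower.algebraMap_apply K (Comp k'[X] F (pl θ)) (Sep (Comp k'[X] F (pl θ))),
          hG0, hγK])
    obtain ⟨g, hg⟩ := exists_g ι G
    have hgy := hD g ⟨G, γ, hG0, fun x => (hg x).symm⟩
    have hGy : G (ι y) = ι y := by rw [← hg, hgy]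
    have hγz : γ z = z := by
      apply inj_alg (E := Sep (Comp k'[X] F (pl θ)))
      refine (hG0 z).symm.trans ?_
      show G _ = _
      rcases sq_eq_sq_iff_eq_or_eq_neg.1 hιy with h | h
      · rw [← h]; exact hGy
      · have h' : algebraMap (Comp k'[X] F (pl θ)) (Sep (Comp k'[X] F (pl θ))) z = -ι y := by
          rw [h, neg_neg]
        rw [h', map_neg, hGy]
    have := resid_sign θ (s : k' ≃+* k') hs hγ hγw hqθ' (y := z) (by rw [← hz, hx]) (η := 1)
      (Or.inl rfl) (by rw [map_one, one_mul]; exact hγz) hω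
    rw [one_mul] at this
    exact this
  obtain ⟨t, ht⟩ := mem_of_stab (k := k) (θ := θ) (x := ω) key
  refine ⟨t, ?_⟩
  rw [dvd_iff_aeval hπ hθ, map_sub, map_pow, ht, hω, eval_map_algebraMap, sub_self]

/-- **Characters which are unramified outside of `p` and trivial at the decomposition group at a
place at which the divisors of `p` are independent are trivial.** -/
theorem char_one (hT : IsTower k k' K F) (h2 : (2 : k) ≠ 0) {p : k[X]} (hp : p ≠ 0)
    (hsep : ∀ π : k[X], Irreducible π → π ∣ p → π.Separable) {π : k[X]} (hπ : Irreducible π)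
    (hind : IndepAt π p) {θ : k'} (hθ : aeval θ π = 0)
    (ι : Sep F →ₐ[F] Sep (Comp k'[X] F (pl θ))) {χ : (Sep F ≃ₐ[K] Sep F) → Sep F}
    (hχ : ∀ σ, χ σ = 1 ∨ χ σ = -1) (hmul : ∀ σ τ, χ (σ * τ) = χ σ * χ τ)
    {S : Set (Sep F)} (hS : S.Finite) (hSχ : ∀ u : Sep F ≃ₐ[K] Sep F, (∀ x ∈ S, u x = x) → χ u = 1)
    (hev : ∀ (z : Sep F) (e : K), z ≠ 0 → z ^ 2 = algebraMap K (Sep F) e →
      (∀ σ : Sep F ≃ₐ[F] Sep F, σ z = χ (σ.restrictScalars K) * z) →
      ∀ v : HeightOneSpectrum k'[X], p.map (algebraMap k k') ∉ v.asIdeal →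
        par v (algebraMap K F e) = 0)
    (hI : ∀ σ : Sep F ≃ₐ[F] Sep F, InI (Comp k'[X] F (pl θ)) ι σ → χ (σ.restrictScalars K) = 1)
    (hD : ∀ g : Sep F ≃ₐ[K] Sep F, InD K (Comp k'[X] F (pl θ)) ι g → χ g = 1)
    (g : Sep F ≃ₐ[K] Sep F) : χ g = 1 := by
  haveI := hT.sep
  haveI := hT.fracK
  haveI : IsSepClosed k' := IsSepClosure.sep_closed k
  haveI : IsSepClosure K (Sep F) := sepKΩ hT.map
  haveI : Algebra.IsSeparable K (Sep F) := IsSepClosure.separable
  haveI : IsGalois K (Sep F) := inferInstance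
  have h2K : (2 : K) ≠ 0 := tt h2
  have h2Ω : (2 : Sep F) ≠ 0 := by
    rw [← map_ofNat (algebraMap K (Sep F)) 2]
    exact (_root_.map_ne_zero _).2 h2K
  obtain ⟨z, e, z0, hz, hχz⟩ := exists_root (K := K) h2Ω χ hχ hmul (by
    rw [IsLocallyConstant.iff_exists_open]
    intro σ₀
    refine ⟨_, open_fix hS σ₀, fun x _ => rfl, fun σ hσ => ?_⟩
    have h1 : χ (σ₀⁻¹ * σ) = 1 := by
      apply hSχ
      intro x hx
      rw [AlgEquiv.mul_apply, hσ x hx, ← AlgEquiv.mul_apply, inv_mul_cancel]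
      rfl
    have h3 := hmul σ₀ (σ₀⁻¹ * σ)
    rw [h1, mul_one, mul_inv_cancel_left] at h3
    exact h3)
  have he0 : e ≠ 0 := by
    rintro rfl
    rw [map_zero] at hz
    exact pow_ne_zero 2 z0 hz
  obtain ⟨A, ε, h, hA1, hA2, hA3, hε, hh, he⟩ := glob0 (F := F) hT.map h2 hp hsep he0
    (hev z e z0 hz fun σ => hχz (σ.restrictScalars K))
  have hhΩ : algebraMap K (Sep F) h ≠ 0 := (_root_.map_ne_zero _).2 hh
  set y := z / algebraMap K (Sep F) h with hy
  have hy2 : y ^ 2 = algebraMap K (Sep F) (algebraMap k[X] K (C ε * A)) := by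
    rw [hy, div_pow, hz, he, map_mul, map_pow, mul_div_assoc, div_self (pow_ne_zero 2 hhΩ),
      mul_one]
  have hyχ : ∀ g, g y = χ g * y := by
    intro g
    rw [hy, map_div₀, hχz, g.commutes, mul_div_assoc]
  -- `ι y` is in the completion
  have hιy : ι y ∈ Set.range (algebraMap (Comp k'[X] F (pl θ)) (Sep (Comp k'[X] F (pl θ)))) := by
    rw [InfiniteGalois.mem_range_algebraMap_iff_fixed]
    intro τ
    obtain ⟨σ, hσ⟩ := exists_restrict (F := F) (Ω := Sep F) (L := Comp k'[X] F (pl θ))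
      (Ω' := Sep (Comp k'[X] F (pl θ))) ι τ
    rw [hσ]
    have h3 := hyχ (σ.restrictScalars K)
    rw [hI σ ⟨τ, hσ⟩, one_mul] at h3
    have h4 : (σ.restrictScalars K) y = σ y := rfl
    rw [← h4, h3]
  obtain ⟨t, ht⟩ := hιy
  have hA0 : A ≠ 0 := hA1.ne_zero
  have hCA0 : C ε * A ≠ 0 := mul_ne_zero (C_ne_zero.2 hε) hA0
  have hnd : ¬ π ∣ A := by
    intro hd
    have hAθ : aeval θ A = 0 := (dvd_iff_aeval hπ hθ).1 hd
    have hm : rootMultiplicity θ ((C ε * A).map (algebraMap k k')) = 1 :=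
      mult_one (k' := k') (squarefree_C_mul hε hA2) (by rw [map_mul, hAθ, mul_zero])
    have h3 := (wv_poly hT hCA0 θ).not.2 (by rw [hm]; decide)
    apply h3
    have h4 : algebraMap K (Comp k'[X] F (pl θ)) (algebraMap k[X] K (C ε * A)) = t ^ 2 := by
      apply inj_alg (E := Sep (Comp k'[X] F (pl θ)))
      rw [← IsScalarTower.algebraMap_apply K (Comp k'[X] F (pl θ)), map_pow, ht, ← map_pow, hy2]
      exact ((ι.restrictScalars K).commutes _).symm
    rw [h4, map_pow, pow_two]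
    exact ⟨_, rfl⟩
  have hnd' : ¬ π ∣ C ε * A := by
    intro hd
    rcases hπ.prime.dvd_or_dvd hd with h3 | h3
    · exact hπ.not_isUnit (isUnit_of_dvd_unit h3 (isUnit_C.2 (isUnit_iff_ne_zero.2 hε)))
    · exact hnd h3
  have hsq := sq_res hT h2 hπ hθ ι hnd' hy2 (fun g hg => by rw [hyχ, hD g hg, one_mul])
  obtain ⟨rfl, ⟨ρ, hρ⟩⟩ := hind ε A hε hA1 hA2 hA3 hnd hsq
  have hyK : y = algebraMap K (Sep F) (algebraMap k[X] K (C ρ)) ∨
      y = -algebraMap K (Sep F) (algebraMap k[X] K (C ρ)) := by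
    apply sq_eq_sq_iff_eq_or_eq_neg.1
    rw [hy2, mul_one, hρ, C_mul, map_mul, map_mul, pow_two]
  have hgy : g y = y := by
    rcases hyK with h3 | h3
    · rw [h3, g.commutes]
    · rw [h3, map_neg, g.commutes]
  have hy0 : y ≠ 0 := div_ne_zero z0 hhΩ
  have h5 := hyχ g
  rw [hgy] at h5
  apply mul_right_cancel₀ hy0
  rw [← h5, one_mul]

end core

end Pool.Agent.Helper55.TT
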