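import Pool.Graph.R_seed8.R939.EI.Main

/-!
# The extension of an invariant class to the Galois group of `K`
-/

set_option autoImplicit false
set_option linter.all false

open WeierstrassCurve WeierstrassCurve.Affine
open scoped Classical Pointwise

namespace Pool.Agent.Helper55.TT

open Pool.Agent.TH115.GD Pool.Agent.R939.EI
open Pool.Agent.W309.TD (locConst_apply)

universe u

section lift

variable {K F Ω : Type u} [Field K] [Field F] [Field Ω] [Algebra K F] [Algebra F Ω] [Algebra K Ω]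
  [IsScalarTower K F Ω] [IsGalois F Ω] [IsSepClosed Ω] (W : WeierstrassCurve K)

/-- `C` is a cocycle of `Gal(Ω / K)` which extends `c`. -/
structure IsLift (c : ℕ → (Ω ≃ₐ[F] Ω) → Pt W Ω) (C : ℕ → (Ω ≃ₐ[K] Ω) → Pt W Ω) : Prop where
  mul : ∀ n σ τ, C n (σ * τ) = C n σ + act W (ak σ) (C n τ)
  two : ∀ n σ, 2 • C (n + 1) σ = C n σ
  res : ∀ n (σ : Ω ≃ₐ[F] Ω), C n (σ.restrictScalars K) = c n σ
  lc : ∀ n, ∃ S : Set Ω, S.Finite ∧ ∀ u : Ω ≃ₐ[K] Ω, (∀ x ∈ S, u x = x) → C n u = 0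

variable {W}

/-- Uniqueness of `R`. -/
theorem uniqR (htor : ∀ (m : ℕ) (X : Pt W Ω), (∀ σ : Ω ≃ₐ[F] Ω, act W (rs K σ) X = X) →
      2 ^ m • X = 0 → 2 • X = 0)
    (hN : Preserves K F Ω) {c : ℕ → (Ω ≃ₐ[F] Ω) → Pt W Ω} {τ : Ω ≃ₐ[K] Ω}
    {R R' : ℕ → Pt W Ω} (h : IsR W c τ R) (h' : IsR W c τ R') (h0 : 2 • R 0 = 0)
    (h0' : 2 • R' 0 = 0) (j : ℕ) : R j = R' j := by
  have hD : ∀ j, 2 • (R j - R' j) = 0 := by
    intro j
    apply htor (j + 1)
    · intro σ
      obtain ⟨σ', hσ'⟩ := exists_conj hN τ σ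
      have e1 := h.rel j σ σ' hσ'
      have e2 := h'.rel j σ σ' hσ'
      rw [e1] at e2
      rw [map_sub]
      have e3 : act W (rs K σ) (R j) = act W (rs K σ) (R' j) - R' j + R j := by
        rw [← e2]; abel
      rw [e3]; abel
    · rw [pow_succ', mul_smul, smul_sub (2 ^ j), pow_R h.two, pow_R h'.two, smul_sub, h0, h0',
        sub_zero]
  have h1 := hD (j + 1)
  rwa [smul_sub, h.two, h'.two, sub_eq_zero] at h1

/-- The class extends to `Gal(Ω / K)`. -/
theorem exists_lift (htor : ∀ (m : ℕ) (X : Pt W Ω), (∀ σ : Ω ≃ₐ[F] Ω, act W (rs K σ) X = X) →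
      2 ^ m • X = 0 → 2 • X = 0)
    (hN : Preserves K F Ω) {c : ℕ → (Ω ≃ₐ[F] Ω) → Pt W Ω} (hc : IsTC W c) (hi : IsInv W c) :
    ∃ C : ℕ → (Ω ≃ₐ[K] Ω) → Pt W Ω, IsLift W c C ∧ (∀ τ, 2 • C 0 τ = 0) ∧
      ∀ τ (σ : Ω ≃ₐ[F] Ω), act W (rs K σ) (C 0 τ) = C 0 τ := by
  have hex : ∀ τ : Ω ≃ₐ[K] Ω, ∃ R : ℕ → Pt W Ω, IsR W c τ R ∧ 2 • R 0 = 0 ∧
      ∀ σ : Ω ≃ₐ[F] Ω, act W (rs K σ) (R 0) = R 0 := by
    intro τ
    obtain ⟨m, Q, hQ, hinv⟩ := hi τ
    have hR : IsR W c τ (fun j => Q (j + m)) := by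
      refine ⟨fun j => ?_, fun j σ σ' h => ?_⟩
      · show 2 • Q (j + 1 + m) = Q (j + m)
        rw [add_right_comm, hQ.two]
      · have h1 := hinv (j + m) σ σ' h
        rw [smul_sub, ← map_nsmul, pow_c hc, pow_c hc] at h1
        exact h1
    have hfix : ∀ σ : Ω ≃ₐ[F] Ω, act W (rs K σ) (Q (0 + m)) = Q (0 + m) := by
      intro σ
      obtain ⟨σ', hσ'⟩ := exists_conj hN τ σ
      have h1 := hR.rel 0 σ σ' hσ'
      rw [hc.zero, hc.zero, map_zero, sub_zero] at h1
      exact sub_eq_zero.1 h1.symm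
    refine ⟨_, hR, ?_, hfix⟩
    apply htor m _ hfix
    have h1 := pow_R hQ.two m
    rw [zero_add, h1, hQ.zero]
  choose R hR hR0 hRf using hex
  refine ⟨fun n τ => R τ n, ⟨fun n σ τ => ?_, fun n σ => (hR σ).two n, fun n σ => ?_,
    fun n => ?_⟩, hR0, hRf⟩
  · -- the cocycle relation
    have h1 : IsR W c (σ * τ) (fun j => R σ j + act W (ak σ) (R τ j)) := by
      refine ⟨fun j => ?_, fun j n n' h => ?_⟩
      · show 2 • (R σ (j + 1) + act W (ak σ) (R τ (j + 1))) = R σ j + act W (ak σ) (R τ j)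
        rw [smul_add, ← map_nsmul, (hR σ).two, (hR τ).two]
      · obtain ⟨n'', hn''⟩ := exists_conj hN σ n
        have h2 : ∀ x, τ (n' x) = n'' (τ x) := by
          intro x
          apply σ.injective
          rw [hn'']
          exact h x
        have e1 := (hR σ).rel j n n'' hn''
        have e2 := (hR τ).rel j n'' n' h2
        have e3 : act W (ak (σ * τ)) (c j n') = act W (ak σ) (act W (ak τ) (c j n')) := by
          rw [act_act]
          rfl
        have e4 : act W (ak σ) (act W (rs K n'') (R τ j)) =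
            act W (rs K n) (act W (ak σ) (R τ j)) := by
          have h5 : (ak σ).comp (rs K n'') = (rs K n).comp (ak σ) := AlgHom.ext fun x => hn'' x
          rw [act_act, act_act, h5]
        have e5 : act W (ak τ) (c j n') = c j n'' + (act W (rs K n'') (R τ j) - R τ j) := by
          rw [← e2]; abel
        have e6 : act W (ak σ) (c j n'') = c j n + (act W (rs K n) (R σ j) - R σ j) := by
          rw [← e1]; abel
        show act W (ak (σ * τ)) (c j n') - c j n =
          act W (rs K n) (R σ j + act W (ak σ) (R τ j)) - (R σ j + act W (ak σ) (R τ j))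
        rw [e3, e5, map_add, map_sub, e4, e6, map_add]
        abel
    have h2 := uniqR htor hN (hR (σ * τ)) h1 (hR0 _) (by
      show 2 • (R σ 0 + act W (ak σ) (R τ 0)) = 0
      rw [smul_add, ← map_nsmul, hR0, hR0, map_zero, add_zero]) n
    exact h2
  · -- extension
    have h1 : IsR W c (σ.restrictScalars K) (fun j => c j σ) := by
      refine ⟨fun j => hc.two j σ, fun j n n' h => ?_⟩
      have e0 : σ * n' = n * σ := AlgEquiv.ext fun x => h x
      have e1 := (hc.coc j).mul σ n'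
      have e2 := (hc.coc j).mul n σ
      rw [e0, e2] at e1
      have e3 : act W (ak (σ.restrictScalars K)) (c j n') = act W (rs K σ) (c j n') := rfl
      show act W (ak (σ.restrictScalars K)) (c j n') - c j n =
        act W (rs K n) (c j σ) - c j σ
      rw [e3]
      have e4 : act W (rs K σ) (c j n') = c j n + act W (rs K n) (c j σ) - c j σ := by
        rw [e1]; abel
      rw [e4]; abel
    exact uniqR htor hN (hR _) h1 (hR0 _) (by
      show 2 • c 0 σ = 0
      rw [hc.zero, smul_zero]) n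
  · obtain ⟨S, hS, hSc⟩ := near_one (K := K) W (hc.coc (n + 1)).lc
    refine ⟨S, hS, fun u hu => ?_⟩
    have h1 : 2 • R u (n + 1) = 0 := by
      apply htor (n + 2)
      · intro σ
        obtain ⟨σ', hσ'⟩ := exists_conj hN u σ
        have e1 := (hR u).rel (n + 1) σ σ' hσ'
        rw [hSc u hu σ σ' hσ', sub_self] at e1
        exact (sub_eq_zero.1 e1.symm)
      · have h3 := pow_R (hR u).two (n + 1)
        rw [pow_succ', mul_smul, h3, hR0]
    show R u n = 0
    rw [← (hR u).two n, h1]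

/-- Change of the extension by a coboundary. -/
theorem IsLift.add {c : ℕ → (Ω ≃ₐ[F] Ω) → Pt W Ω} {C : ℕ → (Ω ≃ₐ[K] Ω) → Pt W Ω}
    (h : IsLift W c C) {S : ℕ → Pt W Ω} (hS : ∀ j, 2 • S (j + 1) = S j) :
    IsLift W (fun n σ => c n σ + (act W (rs K σ) (S n) - S n))
      (fun n σ => C n σ + (act W (ak σ) (S n) - S n)) := by
  refine ⟨fun n σ τ => ?_, fun n σ => ?_, fun n σ => ?_, fun n => ?_⟩
  · show C n (σ * τ) + (act W (ak (σ * τ)) (S n) - S n) = C n σ + (act W (ak σ) (S n) - S n) +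
      act W (ak σ) (C n τ + (act W (ak τ) (S n) - S n))
    have e3 : act W (ak (σ * τ)) (S n) = act W (ak σ) (act W (ak τ) (S n)) := by
      rw [act_act]
      rfl
    rw [h.mul, e3, map_add, map_sub]
    abel
  · show 2 • (C (n + 1) σ + (act W (ak σ) (S (n + 1)) - S (n + 1))) = _
    rw [smul_add, smul_sub, ← map_nsmul, hS, h.two]
  · show C n (σ.restrictScalars K) + _ = _
    rw [h.res]
    rfl
  · obtain ⟨S', hS', hSC⟩ := h.lc n
    refine ⟨S' ∪ crd W (S n), hS'.union (crd_fin W _), fun u hu => ?_⟩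
    show C n u + (act W (ak u) (S n) - S n) = 0
    rw [hSC u fun x hx => hu x (Or.inl hx), act_crd W (fun x hx => hu x (Or.inr hx)), sub_self,
      add_zero]

theorem IsLift.one {c : ℕ → (Ω ≃ₐ[F] Ω) → Pt W Ω} {C : ℕ → (Ω ≃ₐ[K] Ω) → Pt W Ω}
    (h : IsLift W c C) (n : ℕ) : C n 1 = 0 := by
  obtain ⟨S, -, hS⟩ := h.lc n
  exact hS 1 fun x _ => rfl

end lift

end Pool.Agent.Helper55.TT
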