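import Pool.Graph.R_seed8.R939.HI.Base

/-!
# Generic points over the fraction field of an order, specialised to `p`-adic numbers
-/

set_option autoImplicit false
set_option linter.all false

namespace Pool.Agent.Helper55.TT

open MvPolynomial Pool.Agent.H936R2 Pool.Agent.H927R2.RD H294UB Pool.Agent.W275.UB
open Pool.Agent.W275.ND Pool.Agent Pool.Agent.W131.ND.Lmk

/-- a point over a field which is generated by the parameters over an order, near a given one, with
the given embedding of the constants -/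
theorem lmk1 (O J : Type) [CommRing O] [IsDomain O] [Fintype J] (ω : Module.Basis J ℤ O)
    (p : ℕ) [Fact p.Prime] (σ₀ : O →+* ℤ_[p]) (ι : Type) [Fintype ι] (a : ι → ℤ_[p]) (M : ℕ)
    (L : Type) [Field L] [Algebra (EE (ι × J)) L] [FiniteDimensional (EE (ι × J)) L] (σ : O →+* L)
    (hfin : Module.finrank (EE (ι × J)) L ≤ Fintype.card J) :
    ∃ (φ : L →+* ℚ_[p]) (b : ι → ℤ_[p]),
      (∀ i, algebraMap ℤ_[p] ℚ_[p] (b i) =
        φ (cv (fun j => σ (ω j)) (fun q => gn (ι × J) L (X q)) i)) ∧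
      (∀ o : O, φ (σ o) = algebraMap ℤ_[p] ℚ_[p] (σ₀ o)) ∧
      ∀ i, (p : ℤ_[p]) ^ M ∣ b i - a i := by
  classical
  have hθ := W688.UB.Theta2.main
  have hfinO : Module.Finite ℤ O := Module.Finite.of_basis ω
  have hgn : Function.Injective (gn (ι × J) L) :=
    (algebraMap (EE (ι × J)) L).injective.comp (IsFractionRing.injective _ _)
  let Φ : MvPolynomial (ι × J) O →+* L := eval₂Hom σ (fun q => gn (ι × J) L (X q))
  have hΦ : Φ.comp (mo O (ι × J)) = gn (ι × J) L := by
    apply MvPolynomial.ringHom_ext'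
    · exact RingHom.ext_int _ _
    · intro q
      simp [Φ, mo]
  have hΦinj : Function.Injective Φ := inj_of_restrict Φ (by rw [hΦ]; exact hgn)
  have hmo : Function.Injective (mo O (ι × J)) := by
    have h1 : Function.Injective (Φ ∘ mo O (ι × J)) := by
      rw [← RingHom.coe_comp, hΦ]
      exact hgn
    exact h1.of_comp
  let F1 : Type := FractionRing (MvPolynomial (ι × J) O)
  let algF1L : Algebra F1 L := (IsFractionRing.lift hΦinj : F1 →+* L).toAlgebra
  have hE : Function.Injective ((algebraMap (MvPolynomial (ι × J) O) F1).comp (mo O (ι × J))) :=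
    (IsFractionRing.injective (MvPolynomial (ι × J) O) F1).comp hmo
  let algEF1 : Algebra (EE (ι × J)) F1 := (IsFractionRing.lift hE : EE (ι × J) →+* F1).toAlgebra
  have hF1L : ∀ x : MvPolynomial (ι × J) O,
      algebraMap F1 L (algebraMap (MvPolynomial (ι × J) O) F1 x) = Φ x := fun x =>
    IsFractionRing.lift_algebraMap hΦinj x
  have hEF1 : ∀ c : MvPolynomial (ι × J) ℤ, algebraMap (EE (ι × J)) F1
      (algebraMap (MvPolynomial (ι × J) ℤ) (EE (ι × J)) c) =
      algebraMap (MvPolynomial (ι × J) O) F1 (mo O (ι × J) c) := fun c =>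
    IsFractionRing.lift_algebraMap hE c
  have htow : IsScalarTower (EE (ι × J)) F1 L := IsScalarTower.of_algebraMap_eq' (by
    apply IsLocalization.ringHom_ext (nonZeroDivisors (MvPolynomial (ι × J) ℤ))
    apply MvPolynomial.ringHom_ext'
    · exact RingHom.ext_int _ _
    · intro c
      change algebraMap (EE (ι × J)) L (algebraMap (MvPolynomial (ι × J) ℤ) (EE (ι × J)) (X c)) =
        algebraMap F1 L (algebraMap (EE (ι × J)) F1
          (algebraMap (MvPolynomial (ι × J) ℤ) (EE (ι × J)) (X c)))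
      rw [hEF1, hF1L]
      exact (DFunLike.congr_fun hΦ (X c)).symm)
  have hfd1 : FiniteDimensional (EE (ι × J)) F1 := FiniteDimensional.left (EE (ι × J)) F1 L
  have hfd2 : FiniteDimensional F1 L := FiniteDimensional.right (EE (ι × J)) F1 L
  have hcard : Fintype.card J ≤ Module.finrank (EE (ι × J)) F1 :=
    card_le ω F1 (algebraMap (MvPolynomial (ι × J) O) F1) (IsFractionRing.injective _ _)
      (fun c => (hEF1 c).symm)
  have hmul : Module.finrank (EE (ι × J)) F1 * Module.finrank F1 L =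
      Module.finrank (EE (ι × J)) L := Module.finrank_mul_finrank _ _ _
  have hpos : 0 < Module.finrank (EE (ι × J)) L := Module.finrank_pos
  have hle : Module.finrank F1 L ≤ 1 := by
    by_contra hcon
    have h1 : Fintype.card J * 2 ≤ Module.finrank (EE (ι × J)) F1 * Module.finrank F1 L :=
      Nat.mul_le_mul hcard (not_le.1 hcon)
    rw [hmul, mul_comm] at h1
    omega
  have hone : Module.finrank F1 L = 1 := le_antisymm hle Module.finrank_pos
  have hsurj : Function.Surjective (algebraMap F1 L) :=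
    Algebra.surjective_algebraMap_iff.2 (Subalgebra.bot_eq_top_of_finrank_eq_one hone).symm
  let e : F1 ≃+* L := RingEquiv.ofBijective (algebraMap F1 L) ⟨(algebraMap F1 L).injective, hsurj⟩
  obtain ⟨θ, hθ1, hθ2⟩ := hθ p (ι × J) (fun q => ((ω.repr 1 q.2 : ℤ) : ℤ_[p]) * a q.1) M
  -- the embedding of `F1`
  let Θ : MvPolynomial (ι × J) O →+* ℚ_[p] := eval₂Hom ((algebraMap ℤ_[p] ℚ_[p]).comp σ₀)
    (fun q => (θ q : ℚ_[p]))
  have hΘ : ∀ c, Θ (mo O (ι × J) c) = ((aeval θ c : ℤ_[p]) : ℚ_[p]) := by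
    intro c
    have h1 : Θ.comp (mo O (ι × J)) = (PadicInt.Coe.ringHom).comp
        (aeval θ : MvPolynomial (ι × J) ℤ →ₐ[ℤ] ℤ_[p]).toRingHom := by
      apply MvPolynomial.ringHom_ext'
      · exact RingHom.ext_int _ _
      · intro q
        simp [Θ, mo] <;> rfl
    exact DFunLike.congr_fun h1 c
  have hΘinj : Function.Injective Θ := by
    apply inj_of_restrict
    rw [injective_iff_map_eq_zero]
    intro c hc
    by_contra hc0
    have h1 : Θ (mo O (ι × J) c) = 0 := hc
    rw [hΘ] at h1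
    exact hθ2 c hc0 (PadicInt.ext (by rw [h1]; rfl))
  let ψ : L →+* ℚ_[p] := (IsFractionRing.lift hΘinj : F1 →+* ℚ_[p]).comp (e.symm : L →+* F1)
  have hψΦ : ∀ x : MvPolynomial (ι × J) O, ψ (Φ x) = Θ x := by
    intro x
    have h1 : e.symm (Φ x) = algebraMap (MvPolynomial (ι × J) O) F1 x := by
      rw [RingEquiv.symm_apply_eq]
      exact (hF1L x).symm
    show (IsFractionRing.lift hΘinj : F1 →+* ℚ_[p]) (e.symm (Φ x)) = _
    rw [h1, IsFractionRing.lift_algebraMap]
  have hψσ : ∀ o : O, ψ (σ o) = algebraMap ℤ_[p] ℚ_[p] (σ₀ o) := by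
    intro o
    have h1 := hψΦ (C o)
    have h2 : Φ (C o) = σ o := by simp [Φ]
    have h3 : Θ (C o) = ((σ₀ o : ℤ_[p]) : ℚ_[p]) := by simp [Θ]
    rw [h2, h3] at h1
    exact h1
  have hψX : ∀ q : ι × J, ψ (gn (ι × J) L (X q)) = algebraMap ℤ_[p] ℚ_[p] (θ q) := by
    intro q
    have h1 := hψΦ (X q)
    have h2 : Φ (X q) = gn (ι × J) L (X q) := by simp [Φ]
    have h3 : Θ (X q) = (θ q : ℚ_[p]) := by simp [Θ]
    rw [h2, h3] at h1
    exact h1
  refine ⟨ψ, fun i => ∑ j, σ₀ (ω j) * θ (i, j), ?_, hψσ, ?_⟩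
  · intro i
    show algebraMap ℤ_[p] ℚ_[p] (∑ j, σ₀ (ω j) * θ (i, j)) =
      ψ (∑ j, σ (ω j) * gn (ι × J) L (X (i, j)))
    rw [map_sum, map_sum]
    refine Finset.sum_congr rfl fun j _ => ?_
    rw [map_mul, map_mul, hψσ, ← hψX]
  · intro i
    have hone : ∑ j, ((ω.repr 1 j : ℤ) : ℤ_[p]) * σ₀ (ω j) = 1 := by
      have h1 := congrArg σ₀ (ω.sum_repr 1)
      rw [map_sum, map_one σ₀] at h1
      rw [← h1]
      refine Finset.sum_congr rfl fun j _ => ?_
      rw [zsmul_eq_mul, map_mul, map_intCast]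
    have e : (∑ j, σ₀ (ω j) * θ (i, j)) - a i =
        ∑ j, σ₀ (ω j) * (θ (i, j) - ((ω.repr 1 j : ℤ) : ℤ_[p]) * a i) := by
      have e1 : a i = (∑ j, ((ω.repr 1 j : ℤ) : ℤ_[p]) * σ₀ (ω j)) * a i := by
        rw [hone, one_mul]
      rw [e1, Finset.sum_mul, ← Finset.sum_sub_distrib]
      refine Finset.sum_congr rfl fun j _ => ?_
      rw [← Finset.sum_mul, hone]
      ring
    rw [e]
    exact Finset.dvd_sum fun j _ => Dvd.dvd.mul_left (hθ1 (i, j)) _

end Pool.Agent.Helper55.TT
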