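import Pool.Agent.Helper55.TT.SysD

/-!
# The local analysis: a constant times a polynomial with a root of odd order is not a square modulo
a polynomial with a ramified factor of even degree near this root
-/

set_option autoImplicit false
set_option linter.all false

namespace Pool.Agent.Helper55.TT

open Polynomial Pool.Agent.R939.EI Pool.Agent.W275.UB Pool.Agent.R939.HI Pool.Agent

section near

variable {A : Type} [CommRing A]

theorem polA_near' {n : ℕ} {b c : Fin (n + 1) → A} {q : A} (h : ∀ j, q ∣ b j - c j) :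
    ∃ R : A[X], polA b = polA c + C q * R := by
  choose s hs using h
  refine ⟨polA s, ?_⟩
  unfold polA
  rw [Finset.mul_sum, ← Finset.sum_add_distrib]
  refine Finset.sum_congr rfl fun j _ => ?_
  rw [← mul_assoc, ← C_mul, ← hs j, C_sub]
  ring

theorem C_dvd_cancel [IsDomain A] {r z : A} (hr : r ≠ 0) {f : A[X]} (h : C r ∣ (X - C z) * f) :
    C r ∣ f := by
  obtain ⟨g, hg⟩ := h
  have h1 := congrArg (Polynomial.eval z) hg
  rw [eval_mul, eval_sub, eval_X, eval_C, sub_self, zero_mul, eval_mul, eval_C] at h1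
  have h2 : g.eval z = 0 := by
    rcases mul_eq_zero.1 h1.symm with h | h
    · exact absurd h hr
    · exact h
  obtain ⟨g', hg'⟩ := dvd_iff_isRoot.2 h2
  refine ⟨g', mul_left_cancel₀ (X_sub_C_ne_zero z) ?_⟩
  rw [hg, hg']
  ring

end near

section padic

variable {p : ℕ} [Fact p.Prime]

/-- a polynomial of Eisenstein type, of degree `e`, at `ρ` -/
def EisF (ρ : ℤ_[p]) (e : ℕ) (P : ℤ_[p][X]) : Prop :=
  P.natDegree = e ∧ IsUnit P.leadingCoeff ∧
    ∃ R, P = (X - C ρ) ^ e - C (p : ℤ_[p]) + C ((p : ℤ_[p]) ^ 2) * R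

theorem eis_of {ρ : ℤ_[p]} {N : ℕ} (hN : 1 ≤ N) {P R : ℤ_[p][X]} (hPd : P.natDegree ≤ N)
    (h : P = (X - C ρ) ^ N - C (p : ℤ_[p]) + C ((p : ℤ_[p]) ^ 2) * R) : EisF ρ N P := by
  have hc : P.coeff N = 1 + (p : ℤ_[p]) * ((p : ℤ_[p]) * R.coeff N) := by
    have h1 : ((X - C ρ) ^ N).coeff N = 1 := by
      have h2 : ((X - C ρ) ^ N).natDegree = N := by
        rw [natDegree_pow, natDegree_X_sub_C, mul_one]
      have h3 : ((X - C ρ) ^ N).coeff ((X - C ρ) ^ N).natDegree = 1 := (monic_X_sub_C ρ).pow _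
      rwa [h2] at h3
    rw [h, coeff_add, coeff_sub, h1, coeff_C, if_neg (by omega), coeff_C_mul]
    ring
  have hu : IsUnit (P.coeff N) := by
    rw [hc]
    exact unit_add PadicInt.irreducible_p isUnit_one (dvd_mul_right _ _)
  have hd : P.natDegree = N := le_antisymm hPd (le_natDegree_of_ne_zero hu.ne_zero)
  exact ⟨hd, by rw [leadingCoeff, hd]; exact hu, R, h⟩

theorem eis_odd {ρ : ℤ_[p]} {N : ℕ} (hN : 2 ≤ N) {P R : ℤ_[p][X]} (hPd : P.natDegree ≤ N)
    (h : P = (X - C (ρ + 1)) * ((X - C ρ) ^ (N - 1) - C (p : ℤ_[p])) +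
      C ((p : ℤ_[p]) ^ 2) * R) :
    ∃ (z : ℤ_[p]) (P₂ : ℤ_[p][X]), P = (X - C z) * P₂ ∧ EisF ρ (N - 1) P₂ := by
  have hp0 : (p : ℤ_[p]) ≠ 0 := by
    exact_mod_cast (Fact.out : p.Prime).ne_zero
  set a := ρ + 1 with ha
  set E := (X - C ρ) ^ (N - 1) - C (p : ℤ_[p]) with hE
  have haρ : a - ρ = 1 := by rw [ha]; ring
  have hEa : E.eval a = 1 - p := by
    rw [hE, eval_sub, eval_pow, eval_sub, eval_X, eval_C, eval_C, haρ, one_pow]
  have hPa : P.eval a = (p : ℤ_[p]) ^ 2 * R.eval a := by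
    rw [h, eval_add, eval_mul, eval_sub, eval_X, eval_C, sub_self, zero_mul, zero_add, eval_mul,
      eval_C]
  have hP'a : (derivative P).eval a = 1 + (p : ℤ_[p]) * (-1 + p * (derivative R).eval a) := by
    rw [h, derivative_add, derivative_mul, derivative_sub, derivative_X, derivative_C, sub_zero,
      one_mul, derivative_mul, derivative_C, zero_mul, zero_add, eval_add, eval_add, hEa, eval_mul,
      eval_sub, eval_X, eval_C, sub_self, zero_mul, eval_mul, eval_C]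
    ring
  have hu : IsUnit ((derivative P).eval a) := by
    rw [hP'a]
    exact unit_add PadicInt.irreducible_p isUnit_one (dvd_mul_right _ _)
  have hnorm : ‖P.aeval a‖ < ‖(derivative P).aeval a‖ ^ 2 := by
    rw [coe_aeval_eq_eval, PadicInt.isUnit_iff.1 hu, one_pow]
    rw [PadicInt.norm_lt_one_iff_dvd, hPa, pow_two, mul_assoc]
    exact dvd_mul_right _ _
  obtain ⟨z, hz0, hza, -, -⟩ := hensels_lemma hnorm
  rw [coe_aeval_eq_eval] at hz0 hza
  rw [PadicInt.isUnit_iff.1 hu, PadicInt.norm_lt_one_iff_dvd] at hza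
  obtain ⟨P₂, hP₂⟩ := dvd_iff_isRoot.2 hz0
  have hP₂a : IsUnit (P₂.eval a) := by
    have h1 : (derivative P).eval a = P₂.eval a + (a - z) * (derivative P₂).eval a := by
      rw [hP₂, derivative_mul, derivative_sub, derivative_X, derivative_C, sub_zero, one_mul,
        eval_add, eval_mul, eval_sub, eval_X, eval_C]
    have h2 : P₂.eval a = (derivative P).eval a + (z - a) * (derivative P₂).eval a := by
      rw [h1]; ring
    rw [h2]
    exact unit_add PadicInt.irreducible_p hu (hza.mul_right _)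
  have hdz : (p : ℤ_[p]) ^ 2 ∣ a - z := by
    have h1 : (a - z) * P₂.eval a = (p : ℤ_[p]) ^ 2 * R.eval a := by
      rw [← hPa, hP₂, eval_mul, eval_sub, eval_X, eval_C]
    have h2 : (p : ℤ_[p]) ^ 2 ∣ (a - z) * P₂.eval a := ⟨_, h1⟩
    exact (hP₂a.dvd_mul_right).1 h2
  obtain ⟨t, ht⟩ := hdz
  have hcan : C ((p : ℤ_[p]) ^ 2) ∣ P₂ - E := by
    refine C_dvd_cancel (pow_ne_zero 2 hp0) (z := z) ?_
    refine ⟨R - C t * E, ?_⟩
    have e1 : (X - C z) * (P₂ - E) = P - (X - C z) * E := by rw [hP₂]; ring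
    have e2 : (C a : ℤ_[p][X]) - C z = C ((p : ℤ_[p]) ^ 2) * C t := by rw [← C_sub, ht, C_mul]
    rw [e1, h]
    linear_combination (-E) * e2
  obtain ⟨R₂, hR₂⟩ := hcan
  refine ⟨z, P₂, hP₂, eis_of (by omega) ?_ (R := R₂) ?_⟩
  · have hP₂0 : P₂ ≠ 0 := by
      rintro rfl
      rw [eval_zero] at hP₂a
      exact not_isUnit_zero hP₂a
    have h1 := natDegree_mul (X_sub_C_ne_zero z) hP₂0
    rw [← hP₂, natDegree_X_sub_C] at h1
    omega
  · rw [← hE, ← hR₂]
    ring

/-- **The local contradiction.** -/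
theorem loc_main {ρ : ℤ_[p]} {e : ℕ} (he : Even e) (he1 : 1 ≤ e) {P₂ S : ℤ_[p][X]}
    (hE : EisF ρ e P₂)
    (hS : ∀ (A : Type) [CommRing A] [IsDomain A] [IsDiscreteValuationRing A] (π : A)
      (τ : ℤ_[p] →+* A) (θ : A) (v : Aˣ), Irreducible π → π ∣ (p : A) → θ - τ ρ = v * π →
      ∃ (U : A) (m : ℕ), IsUnit U ∧ (S.map τ).eval θ = U * π ^ (2 * m + 1))
    {w h : ℚ_[p][X]} {c : ℚ_[p]} (hc : c ≠ 0)
    (heq : w ^ 2 - C c * S.map (algebraMap ℤ_[p] ℚ_[p]) = P₂.map (algebraMap ℤ_[p] ℚ_[p]) * h) :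
    False := by
  obtain ⟨hd, hlu, R, hR⟩ := hE
  have hinj : Function.Injective (algebraMap ℤ_[p] ℚ_[p]) := IsFractionRing.injective _ _
  have hFd : (P₂.map (algebraMap ℤ_[p] ℚ_[p])).natDegree = e := by
    rw [natDegree_map_eq_of_injective hinj, hd]
  obtain ⟨g, hg, hgF⟩ := exists_irreducible_of_natDegree_pos
    (f := P₂.map (algebraMap ℤ_[p] ℚ_[p])) (by omega)
  haveI : Fact (Irreducible g) := ⟨hg⟩
  have hF0 : P₂.map (algebraMap ℤ_[p] ℚ_[p]) ≠ 0 := by
    intro h0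
    rw [h0, natDegree_zero] at hFd
    omega
  have hgd : g.natDegree ≤ e := hFd ▸ natDegree_le_of_dvd hgF hF0
  let L := AdjoinRoot g
  haveI : FiniteDimensional ℚ_[p] L := (AdjoinRoot.powerBasis hg.ne_zero).finite
  have hfin : Module.finrank ℚ_[p] L ≤ e := by
    rw [(AdjoinRoot.powerBasis hg.ne_zero).finrank, AdjoinRoot.powerBasis_dim]
    exact hgd
  obtain ⟨A, _, _, _, _, _, π, hπ, hπp, hπD, -, hz⟩ := W21.UB.main p e L hfin
  have hAinj : Function.Injective (algebraMap A L) := IsFractionRing.injective A L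
  choose τ₀ hτ₀ using hz
  let τ : ℤ_[p] →+* A :=
    { toFun := τ₀
      map_one' := hAinj (by rw [hτ₀]; simp)
      map_mul' := fun x y => hAinj (by rw [hτ₀, map_mul, hτ₀, hτ₀]; simp)
      map_zero' := hAinj (by rw [hτ₀]; simp)
      map_add' := fun x y => hAinj (by rw [hτ₀, map_add, hτ₀, hτ₀]; simp) }
  have hτ : (algebraMap A L).comp τ = (algebraMap ℚ_[p] L).comp (algebraMap ℤ_[p] ℚ_[p]) := by
    ext x
    exact hτ₀ x
  have hp0 : (p : A) ≠ 0 := p_ne hπD
  set θ : L := AdjoinRoot.root g with hθ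
  have hroot : ∀ f : ℚ_[p][X], g ∣ f → f.eval₂ (algebraMap ℚ_[p] L) θ = 0 := by
    intro f hf
    have h1 := AdjoinRoot.mk_eq_zero.2 hf
    rw [← AdjoinRoot.aeval_eq, aeval_def] at h1
    exact h1
  have hPτ : ((P₂.map τ).map (algebraMap A L)).eval θ = 0 := by
    rw [Polynomial.map_map, hτ, ← Polynomial.map_map, eval_map]
    exact hroot _ hgF
  have hlτ : IsUnit (P₂.map τ).leadingCoeff := by
    have h1 : τ P₂.leadingCoeff ≠ 0 := (hlu.map τ).ne_zero
    rw [leadingCoeff_map_of_leadingCoeff_ne_zero _ h1]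
    exact hlu.map τ
  obtain ⟨θ₀, hθ₀, h0⟩ := int_root hlτ hPτ
  have hval : (θ₀ - τ ρ) ^ e - (p : A) + (p : A) ^ 2 * (R.map τ).eval θ₀ = 0 := by
    rw [← h0]
    conv_rhs => rw [hR]
    simp only [Polynomial.map_add, Polynomial.map_sub, Polynomial.map_mul, Polynomial.map_pow,
      map_X, map_C, eval_add, eval_sub, eval_mul, eval_pow, eval_X, eval_C, map_natCast, map_pow,
      Polynomial.map_natCast, eval_natCast]
  obtain ⟨e', c', u', v, hu', hv, hec, hc'⟩ := val_root (k := 1) (x := 1) (y := -1) hπ he1 le_rfl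
    hp0 hπp isUnit_one isUnit_one.neg (θ := θ₀ - τ ρ) (s := (R.map τ).eval θ₀) (by
      linear_combination hval)
  have hc1 : c' = 1 := by
    rw [hu', pow_dvd_unit hπ] at hπD
    by_contra hne
    have h1 : e * 2 ≤ e * c' := Nat.mul_le_mul_left _ (by omega)
    omega
  rw [hc1, pow_one] at hv
  rw [hc1, mul_one, one_mul] at hec
  obtain ⟨U, m, hU, hSθ⟩ := hS A π τ θ₀ v hπ hπp hv
  -- the constant
  obtain ⟨x, y, hy, rfl⟩ := IsFractionRing.div_surjective (A := ℤ_[p]) c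
  have hy0 : y ≠ 0 := nonZeroDivisors.ne_zero hy
  have hx0 : x ≠ 0 := by
    rintro rfl
    rw [map_zero, zero_div] at hc
    exact hc rfl
  obtain ⟨j, ε, hε⟩ := IsDiscreteValuationRing.eq_unit_mul_pow_irreducible (mul_ne_zero hx0 hy0)
    (PadicInt.irreducible_p (p := p))
  have hyQ : algebraMap ℤ_[p] ℚ_[p] y ≠ 0 := by
    rw [Ne, map_eq_zero_iff _ hinj]; exact hy0
  -- the equation at the root
  have h1 := hroot _ (hgF.trans ⟨h, heq⟩)
  rw [eval₂_sub, eval₂_pow, eval₂_mul, eval₂_C, sub_eq_zero] at h1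
  have h2 : (S.map (algebraMap ℤ_[p] ℚ_[p])).eval₂ (algebraMap ℚ_[p] L) θ =
      algebraMap A L ((S.map τ).eval θ₀) := by
    rw [eval₂_map, ← hτ, ← hθ₀, ← eval₂_map, eval₂_at_apply]
  rw [h2, hSθ] at h1
  have h3 : (w.eval₂ (algebraMap ℚ_[p] L) θ * algebraMap A L (τ y)) ^ 2 =
      algebraMap A L ((τ (ε : ℤ_[p]) * (u' : A) ^ j * U) * π ^ (2 * (e / 2 * j + m) + 1)) := by
    have h4 : ∀ z : ℤ_[p], algebraMap A L (τ z) = algebraMap ℚ_[p] L (algebraMap ℤ_[p] ℚ_[p] z) :=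
      fun z => RingHom.congr_fun hτ z
    have h5 : algebraMap ℚ_[p] L (algebraMap ℤ_[p] ℚ_[p] x / algebraMap ℤ_[p] ℚ_[p] y) *
        algebraMap A L (τ y) ^ 2 = algebraMap A L (τ (x * y)) := by
      rw [h4, h4, ← map_pow, ← map_mul, map_mul (algebraMap ℤ_[p] ℚ_[p]) x y]
      congr 1
      field_simp
    have h6 : (p : A) ^ j = (u' : A) ^ j * π ^ (2 * (e / 2 * j)) := by
      have h7 : 2 * (e / 2 * j) = e * j := by
        have := Nat.two_mul_div_two_of_even he
        rw [← mul_assoc, this]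
      rw [h7, hu', hec, mul_pow, ← pow_mul]
    rw [mul_pow, h1, mul_right_comm, h5, ← map_mul]
    congr 1
    rw [hε, map_mul, map_pow, map_natCast, h6, pow_succ, mul_add, pow_add, pow_succ]
    ring
  exact no_sqrt_odd hπ (((ε.isUnit.map τ).mul (u'.isUnit.pow j)).mul hU) h3

end padic

end Pool.Agent.Helper55.TT
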