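import Pool.Agent.Helper55.TT.Pl

/-!
# The step of the descent
-/

set_option autoImplicit false
set_option linter.all false

open Polynomial IsDedekindDomain WeierstrassCurve WeierstrassCurve.Affine
open scoped Classical

namespace Pool.Agent.Helper55.TT

open Pool.Agent.TH115.GD Pool.Agent.R939.EI
open Pool.Agent.W309.TD (exists_root sq_of_nonsq compare)

section hom

variable {K Ω : Type} [Field K] [Field Ω] [Algebra K Ω] [IsSepClosed Ω] {a b : K} {α β : Ω}
  (hR : Roots a b Ω α β) {E : (Ω ≃ₐ[K] Ω) → Pt (crvT a b) Ω}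
  (hE : ∀ σ τ, E (σ * τ) = E σ + act (crvT a b) (ak σ) (E τ))

include hR hE

theorem mul0 (h2 : ∀ σ, E σ + E σ = 0) (σ τ : Ω ≃ₐ[K] Ω) :
    s0 (E (σ * τ)) = s0 (E σ) * s0 (E τ) := by
  rw [hE, (s_addA hR.E (h2 σ) ((two_act _ _ _).2 (h2 τ))).1, s0_fix]

theorem mul1 (h : ∀ σ, E σ = 0 ∨ E σ = pt0 hR.E) (σ τ : Ω ≃ₐ[K] Ω) :
    s1 α (E (σ * τ)) = s1 α (E σ) * s1 α (E τ) := by
  have h2 : ∀ σ, E σ + E σ = 0 := fun σ => by
    rcases h σ with h | h
    · rw [h, add_zero]
    · rw [h, pt0_two]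
  have e : act (crvT a b) (ak σ) (E τ) = E τ := by
    rcases h τ with h | h
    · rw [h, map_zero]
    · rw [h, hR.pt0_act]
  rw [hE, e, (s_addA hR.E (h2 σ) (h2 τ)).2]

end hom

section core

variable {k k' K F : Type} [Field k] [Field k'] [Algebra k k'] [Field K] [Algebra k[X] K]
    [Field F] [Algebra k'[X] F] [IsFractionRing k'[X] F] [Algebra K F]

/-- The step of the descent. -/
theorem step (hT : IsTower k k' K F) (h2 : (2 : k) ≠ 0) {a b D π : k[X]} (hb : b ≠ 0)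
    (hd : a ^ 2 - 4 * b ≠ 0) (hD : D ≠ 0)
    (hsep : ∀ ρ : k[X], Irreducible ρ → ρ ∣ b * (a ^ 2 - 4 * b) * D → ρ.Separable)
    (hodd : OddFactor π D) (hπb : ¬ π ∣ b * (a ^ 2 - 4 * b))
    (hind : IndepAt π (b * (a ^ 2 - 4 * b) * D)) {AK BK : K}
    (hAK : AK = algebraMap k[X] K (a * D)) (hBK : BK = algebraMap k[X] K (b * D ^ 2))
    {c : ℕ → (Sep F ≃ₐ[F] Sep F) → Pt (crvT AK BK) (Sep F)}
    (hc : IsTateClass k' (crvT AK BK) c) : ∃ R : Pt (crvT AK BK) (Sep F),
      2 • (2 • R) = 0 ∧ (∀ σ : Sep F ≃ₐ[F] Sep F, act _ (rs K σ) (2 • R) = 2 • R) ∧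
      ∀ σ, c 1 σ = act _ (rs K σ) R - R := by
  haveI := hT.sep
  haveI := hT.fracK
  haveI : IsSepClosed k' := IsSepClosure.sep_closed k
  haveI : IsSepClosure K (Sep F) := sepKΩ hT.map
  haveI : Algebra.IsSeparable K (Sep F) := IsSepClosure.separable
  haveI : Algebra.IsSeparable F (Sep F) := IsSepClosure.separable
  haveI : IsGalois K (Sep F) := inferInstance
  have hKF := hT.map
  have h2K : (2 : K) ≠ 0 := tt h2
  have injK := IsFractionRing.injective k[X] K
  set p : k[X] := b * (a ^ 2 - 4 * b) * D with hp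
  have hp0 : p ≠ 0 := mul_ne_zero (mul_ne_zero hb hd) hD
  have hBK0 : BK ≠ 0 := by
    rw [hBK, Ne, map_eq_zero_iff _ injK]
    exact mul_ne_zero hb (pow_ne_zero 2 hD)
  have hdK : AK ^ 2 - 4 * BK = algebraMap k[X] K (D ^ 2 * (a ^ 2 - 4 * b)) := by
    rw [hAK, hBK, ← map_pow, ← map_ofNat (algebraMap k[X] K) 4, ← map_mul, ← map_sub]
    congr 1
    ring
  have hdK0 : AK ^ 2 - 4 * BK ≠ 0 := by
    rw [hdK, Ne, map_eq_zero_iff _ injK]
    exact mul_ne_zero (pow_ne_zero 2 hD) hd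
  obtain ⟨α, β, hR⟩ := exists_roots (Ω := Sep F) h2K hBK0 hdK0
  have hN : Preserves K F (Sep F) := preserves hKF
  -- the place
  have hπ := hodd.1
  have hπD : π ∣ D := by
    obtain ⟨-, m, hm, -⟩ := hodd
    exact (dvd_pow_self π (by omega)).trans hm
  obtain ⟨θ, hθ⟩ := exists_root_sep (k' := k') hπ (hsep π hπ (hπD.mul_left _))
  let ι : Sep F →ₐ[F] Sep (Comp k'[X] F (pl θ)) := IsSepClosed.lift
  have h2Ω : (2 : Sep F) ≠ 0 := hR.E.two
  haveI : NeZero ((2 : ℕ) : Sep F) := ⟨by exact_mod_cast h2Ω⟩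
  obtain ⟨r, hr⟩ := IsSepClosed.exists_pow_nat_eq (algebraMap K (Sep F) (algebraMap k[X] K D)) 2
  have hA := addPl hT h2 hD hodd hπb hθ ι (by rw [← hAK, ← hBK]; exact hR) hr
  obtain ⟨γ, hγ, hγr⟩ := hA.exists_flip
  -- valuations
  have vle : ∀ (v : HeightOneSpectrum k'[X]) (q : k[X]),
      v.valuation F (algebraMap K F (algebraMap k[X] K q)) ≤ 1 := by
    intro v q
    rw [hKF]
    exact v.valuation_le_one _
  have vone : ∀ (v : HeightOneSpectrum k'[X]) (q : k[X]), q ∣ p →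
      p.map (algebraMap k k') ∉ v.asIdeal →
      v.valuation F (algebraMap K F (algebraMap k[X] K q)) = 1 := by
    intro v q hq hv
    rw [hKF, v.valuation_of_algebraMap, HeightOneSpectrum.intValuation_eq_one_iff]
    intro hm
    apply hv
    obtain ⟨s, hs⟩ := hq
    rw [hs, Polynomial.map_mul]
    exact Ideal.mul_mem_right _ _ hm
  have v2 : ∀ v : HeightOneSpectrum k'[X], v.valuation F 2 ≤ 1 := by
    intro v
    have := vle v 2
    rwa [map_ofNat, map_ofNat] at this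
  have vB : ∀ v : HeightOneSpectrum k'[X], p.map (algebraMap k k') ∉ v.asIdeal →
      v.valuation F (algebraMap K F BK) = 1 := by
    intro v hv
    rw [hBK, map_mul, map_mul, map_mul, map_pow, map_pow, map_pow,
      vone v b ((dvd_mul_right _ _).mul_right _) hv, vone v D (dvd_mul_left _ _) hv, one_pow,
      mul_one]
  have vd : ∀ v : HeightOneSpectrum k'[X], p.map (algebraMap k k') ∉ v.asIdeal →
      v.valuation F (algebraMap K F (AK ^ 2 - 4 * BK)) = 1 := by
    intro v hv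
    rw [hdK, map_mul, map_mul, map_mul, map_pow, map_pow, map_pow,
      vone v _ ((dvd_mul_left _ _).mul_right _) hv, vone v D (dvd_mul_left _ _) hv, one_pow,
      mul_one]
  have pard : ∀ v : HeightOneSpectrum k'[X], p.map (algebraMap k k') ∉ v.asIdeal →
      par v (algebraMap K F (AK ^ 2 - 4 * BK)) = 0 := by
    intro v hv
    rw [par_eq_zero, vd v hv]
    exact ⟨1, (mul_one 1).symm⟩
  -- the extension
  have htor := fun m X hX h => hA.tors hR m (X := X) hX h
  obtain ⟨C, hC, hC0, hCF⟩ := exists_lift htor hN hc.tc hc.inv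
  -- the points of order two of the inertia group
  have rcases' : ∀ σ : Sep F ≃ₐ[F] Sep F, σ r = r ∨ σ r = -r := by
    intro σ
    have h1 : (σ.restrictScalars K) r ^ 2 = r ^ 2 := by
      rw [← map_pow, hr, (σ.restrictScalars K).commutes]
    have h3 : σ r ^ 2 = r ^ 2 := h1
    exact sq_eq_sq_iff_eq_or_eq_neg.1 h3
  have hc2 : ∀ σ, c 1 σ + c 1 σ = 0 := fun σ => by
    rw [← two_nsmul, hc.tc.two 0 σ, hc.tc.zero]
  set P0 := c 1 γ with hP0
  have hP02 : P0 + P0 = 0 := hc2 γ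
  have hdec1 : ∀ g : Sep F ≃ₐ[K] Sep F, InD K (Comp k'[X] F (pl θ)) ι g →
      C 0 g = P0 - act _ (ak g) P0 := by
    intro g hg
    rw [← hC.two 0 g]
    refine hA.dec hR hN hr hc.tc.coc hC 1 (fun σ _ => hc2 σ) hγ hγr hg ?_
    rw [hC.two, hC0]
  obtain ⟨S1, hS1, hCS1⟩ := hC.lc 0
  -- the cocycle `C 0 + d P0`
  set E0 : (Sep F ≃ₐ[K] Sep F) → Pt (crvT AK BK) (Sep F) :=
    fun g => C 0 g + (act _ (ak g) P0 - P0) with hE0
  have mulcob : ∀ (X : Pt (crvT AK BK) (Sep F)) (σ τ : Sep F ≃ₐ[K] Sep F),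
      act _ (ak (σ * τ)) X - X = (act _ (ak σ) X - X) + act _ (ak σ) (act _ (ak τ) X - X) := by
    intro X σ τ
    have e3 : act (crvT AK BK) (ak (σ * τ)) X = act _ (ak σ) (act _ (ak τ) X) := by
      rw [act_act]
      rfl
    rw [e3, map_sub]
    abel
  have hE0m : ∀ σ τ, E0 (σ * τ) = E0 σ + act _ (ak σ) (E0 τ) := by
    intro σ τ
    show C 0 (σ * τ) + (act _ (ak (σ * τ)) P0 - P0) = C 0 σ + (act _ (ak σ) P0 - P0) +
      act _ (ak σ) (C 0 τ + (act _ (ak τ) P0 - P0))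
    rw [hC.mul, mulcob, map_add]
    abel
  have hE02 : ∀ σ, E0 σ + E0 σ = 0 := by
    intro σ
    show C 0 σ + (act _ (ak σ) P0 - P0) + (C 0 σ + (act _ (ak σ) P0 - P0)) = 0
    have h1 := hC0 σ
    rw [two_nsmul] at h1
    rw [add_add_add_comm, h1, zero_add, sub_add_sub_comm, ← map_add, hP02, map_zero, sub_self]
  have hE0F : ∀ σ : Sep F ≃ₐ[F] Sep F,
      E0 (σ.restrictScalars K) = act _ (rs K σ) P0 - P0 := by
    intro σ
    show C 0 (σ.restrictScalars K) + (act _ (rs K σ) P0 - P0) = _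
    rw [hC.res, hc.tc.zero, zero_add]
  have hE0I : ∀ σ : Sep F ≃ₐ[F] Sep F, InI (Comp k'[X] F (pl θ)) ι σ →
      E0 (σ.restrictScalars K) = 0 := by
    intro σ hσ
    rw [hE0F, hA.fix_two hR hσ hP02, sub_self]
  have hE0D : ∀ g : Sep F ≃ₐ[K] Sep F, InD K (Comp k'[X] F (pl θ)) ι g → E0 g = 0 := by
    intro g hg
    show C 0 g + (act _ (ak g) P0 - P0) = 0
    rw [hdec1 g hg]
    abel
  have hE0S : ∀ u : Sep F ≃ₐ[K] Sep F, (∀ x ∈ S1 ∪ crd (crvT AK BK) P0, u x = x) →
      E0 u = 0 := by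
    intro u hu
    show C 0 u + (act _ (ak u) P0 - P0) = 0
    rw [hCS1 u fun x hx => hu x (Or.inl hx), act_crd _ (fun x hx => hu x (Or.inr hx)), sub_self,
      add_zero]
  have hSfin : (S1 ∪ crd (crvT AK BK) P0).Finite := hS1.union (crd_fin _ _)
  obtain ⟨uP, uP0, huP, huPφ⟩ := tw_root hR hP02
  -- even valuations of elements fixed by `Gal(Sep F / F)`
  have evF : ∀ (z : Sep F) (e : K), z ≠ 0 → z ^ 2 = algebraMap K (Sep F) e →
      (∀ σ : Sep F ≃ₐ[F] Sep F, σ z = z) → ∀ v : HeightOneSpectrum k'[X],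
        par v (algebraMap K F e) = 0 := by
    intro z e z0 hz hfix v
    have h1 : z ∈ Set.range (algebraMap F (Sep F)) := by
      rw [InfiniteGalois.mem_range_algebraMap_iff_fixed]
      exact hfix
    obtain ⟨t, rfl⟩ := h1
    have ht0 : t ≠ 0 := by
      rintro rfl
      exact z0 (map_zero _)
    have h3 : algebraMap K F e = t ^ 2 := by
      apply inj_alg (E := Sep F)
      rw [← IsScalarTower.algebraMap_apply K F (Sep F), ← hz, map_pow]
    rw [h3, par_pow_two v ht0]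
  have h1 : ∀ g, s0 (E0 g) = 1 := by
    refine char_one hT h2 hp0 hsep hπ hind hθ ι (χ := fun g => s0 (E0 g)) (fun g => s0_sq _)
      (mul0 hR hE0m hE02) hSfin (fun u hu => by rw [hE0S u hu]; rfl) ?_
      (fun σ hσ => by rw [hE0I σ hσ]; rfl) (fun g hg => by rw [hE0D g hg]; rfl)
    intro z e z0 hz hσz v hv
    refine evF z e z0 hz (fun σ => ?_) v
    have e1 := hσz σ
    have e3 : s0 (E0 (σ.restrictScalars K)) = 1 := by
      rw [hE0F]
      rcases (huPφ (rs K σ)).1 with h | h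
      · rw [h]; rfl
      · rw [h, s0_pt0]
    simp only [e3, one_mul] at e1
    exact e1
  have hE0T : ∀ g, E0 g = 0 ∨ E0 g = pt0 hR.E := fun g => tor_s0 hR.E (hE02 g) (h1 g)
  have h3 : ∀ g, s1 α (E0 g) = 1 := by
    refine char_one hT h2 hp0 hsep hπ hind hθ ι (χ := fun g => s1 α (E0 g)) (fun g => s1_sq _ _)
      (mul1 hR hE0m hE0T) hSfin (fun u hu => by rw [hE0S u hu]; rfl) ?_
      (fun σ hσ => by rw [hE0I σ hσ]; rfl) (fun g hg => by rw [hE0D g hg]; rfl)
    intro z e z0 hz hσz v hv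
    rcases huP with h | h
    · refine evF z e z0 hz (fun σ => ?_) v
      have e1 := hσz σ
      have e3 := (huPφ (rs K σ)).2
      rw [h, map_one, mul_one] at e3
      simp only [hE0F, ← e3, one_mul] at e1
      exact e1
    · obtain ⟨t, ht, hzt⟩ := compare (K := F) z0 uP0
        (fun σ => s1 α (act (crvT AK BK) (rs K σ) P0 - P0)) (fun σ => s1_ne _ _)
        (fun σ => by
          have e1 := hσz σ
          simp only [hE0F] at e1
          exact e1) (fun σ => (huPφ (rs K σ)).2)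
      have h4 : algebraMap K F e = t ^ 2 * algebraMap K F (AK ^ 2 - 4 * BK) := by
        apply inj_alg (E := Sep F)
        rw [← IsScalarTower.algebraMap_apply K F (Sep F), ← hz, hzt, mul_pow, h, map_mul,
          map_pow, ← IsScalarTower.algebraMap_apply K F (Sep F)]
      have h5 : algebraMap K F (AK ^ 2 - 4 * BK) ≠ 0 := (_root_.map_ne_zero _).2 hdK0
      rw [h4, par_sq v ht h5, pard v hv]
  have hE00 : ∀ g, E0 g = 0 := by
    intro g
    refine tor_ext hR.E (hE02 g) (add_zero 0) ?_ ?_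
    · rw [h1]; rfl
    · rw [h3]; rfl
  have hP0F : ∀ σ : Sep F ≃ₐ[F] Sep F, act _ (rs K σ) P0 = P0 := by
    intro σ
    have := hE00 (σ.restrictScalars K)
    rw [hE0F] at this
    exact sub_eq_zero.1 this
  -- the new class
  obtain ⟨P1, hP1⟩ := halve_sep hR.E P0
  have hdiv : ∀ X : Pt (crvT AK BK) (Sep F), ∃ Y, Y + Y = X := halve_sep hR.E
  choose hv hhv using hdiv
  obtain ⟨S, hS0, hSS⟩ : ∃ S : ℕ → Pt (crvT AK BK) (Sep F), S 0 = P0 ∧
      ∀ j, 2 • S (j + 1) = S j :=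
    ⟨fun j => Nat.rec P0 (fun _ X => hv X) j, rfl, fun j => by
      rw [two_nsmul]
      exact hhv _⟩
  have hC' := hC.add hSS
  set c' : ℕ → (Sep F ≃ₐ[F] Sep F) → Pt (crvT AK BK) (Sep F) :=
    fun n σ => c n σ + (act _ (rs K σ) (S n) - S n) with hc'
  set C' : ℕ → (Sep F ≃ₐ[K] Sep F) → Pt (crvT AK BK) (Sep F) :=
    fun n σ => C n σ + (act _ (ak σ) (S n) - S n) with hC'def
  have hcoc' : ∀ n, IsCoc (crvT AK BK) (c' n) := by
    intro n
    have e : c' n = fun σ => c n σ - (act _ (rs K σ) (-S n) - (-S n)) := by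
      funext σ
      show c n σ + (act _ (rs K σ) (S n) - S n) = _
      rw [map_neg]
      abel
    rw [e]
    exact (hc.tc.coc n).sub _ (cob_isCoc _ _)
  have hloc' : ∀ n, LocallyTrivial k' (crvT AK BK) (c' n) := by
    intro n
    have e : c' n = fun σ => c n σ - (act _ (rs K σ) (-S n) - (-S n)) := by
      funext σ
      show c n σ + (act _ (rs K σ) (S n) - S n) = _
      rw [map_neg]
      abel
    rw [e]
    exact lt_subT (hc.loc n) _
  have hC'0 : ∀ g, C' 0 g = 0 := by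
    intro g
    show C 0 g + (act _ (ak g) (S 0) - S 0) = 0
    rw [hS0]
    exact hE00 g
  have hC'2 : ∀ g, C' 1 g + C' 1 g = 0 := by
    intro g
    rw [← two_nsmul, hC'.two 0 g, hC'0]
  have hc'2 : ∀ σ, c' 1 σ + c' 1 σ = 0 := by
    intro σ
    have := hC'2 (σ.restrictScalars K)
    rw [hC'.res] at this
    exact this
  have hS1S : S 1 + S 1 = P0 := by rw [← two_nsmul, hSS 0, hS0]
  have hc'γ : c' 1 γ = 0 := by
    show c 1 γ + (act _ (rs K γ) (S 1) - S 1) = 0
    rw [hA.neg_four hR hγ hγr (by rw [hSS, hS0, two_nsmul]; exact hP02), ← hP0, ← hS1S]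
    abel
  have hc'I : ∀ σ, InI (Comp k'[X] F (pl θ)) ι σ → c' 1 σ = 0 := by
    intro σ hσ
    rcases rcases' σ with h | h
    · exact hA.van hR (hcoc' 1) (fun σ _ => hc'2 σ) hσ h
    · rw [← hc'γ]
      exact hA.eq_of_flip hR (hcoc' 1) (fun σ _ => hc'2 σ) hγ hσ hγr h
  have hc'I2 : ∀ σ, InI (Comp k'[X] F (pl θ)) ι σ → c' 2 σ + c' 2 σ = 0 := by
    intro σ hσ
    have h5 := hC'.two 1 (σ.restrictScalars K)
    rw [hC'.res, hC'.res] at h5
    rw [← two_nsmul]
    exact h5.trans (hc'I σ hσ)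
  set Q := c' 2 γ with hQ
  have hQ2 : Q + Q = 0 := hc'I2 γ hγ
  have hdec2 : ∀ g : Sep F ≃ₐ[K] Sep F, InD K (Comp k'[X] F (pl θ)) ι g →
      C' 1 g = Q - act _ (ak g) Q := by
    intro g hg
    rw [← hC'.two 1 g]
    refine hA.dec hR hN hr hcoc' hC' 2 hc'I2 hγ hγr hg ?_
    rw [hC'.two, hC'.two, hC'0]
  obtain ⟨S2, hS2, hCS2⟩ := hC'.lc 1
  -- the first character
  have hC'm : ∀ σ τ, C' 1 (σ * τ) = C' 1 σ + act _ (ak σ) (C' 1 τ) := hC'.mul 1
  have h5 : ∀ g, s0 (C' 1 g) = 1 := by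
    refine char_one hT h2 hp0 hsep hπ hind hθ ι (χ := fun g => s0 (C' 1 g)) (fun g => s0_sq _)
      (mul0 hR hC'm hC'2) hS2 (fun u hu => by rw [hCS2 u hu]; rfl) ?_
      (fun σ hσ => by rw [hC'.res, hc'I σ hσ]; rfl) (fun g hg => ?_)
    · intro z e z0 hz hσz v hv
      rw [par_eq_zero]
      refine gen0 (F := F) (L := Comp k'[X] F v)
        (Valued.v (R := v.adicCompletion F) (Γ₀ := WithZero (Multiplicative ℤ)))
        (v.valuation F) (wFin v) (by rw [hAK]; exact vle v (a * D)) (vB v hv)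
        (loc0T hR hc'2 ((hloc' 1).1 v) z0 (a0 := algebraMap K F e) ?_ (fun σ => ?_))
      · rw [hz, ← IsScalarTower.algebraMap_apply K F (Sep F)]
      · have e1 := hσz σ
        simp only [hC'.res] at e1
        exact e1
    · have h6 : act (crvT AK BK) (ak g) Q + act (crvT AK BK) (ak g) Q = 0 :=
        (two_act _ _ _).2 hQ2
      show s0 (C' 1 g) = 1
      rw [hdec2 g hg, sub_eq_add_neg, neg_eq_of_add_eq_zero_left h6, (s_addA hR.E hQ2 h6).1, s0_fix]
      rcases s0_sq Q with h | h <;> rw [h] <;> ring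
  have hC'T : ∀ g, C' 1 g = 0 ∨ C' 1 g = pt0 hR.E := fun g => tor_s0 hR.E (hC'2 g) (h5 g)
  -- the second character
  obtain ⟨uQ, uQ0, huQ, huQφ⟩ := tw_root hR hQ2
  set E1 : (Sep F ≃ₐ[K] Sep F) → Pt (crvT AK BK) (Sep F) :=
    fun g => C' 1 g + (act _ (ak g) Q - Q) with hE1
  have hE1m : ∀ σ τ, E1 (σ * τ) = E1 σ + act _ (ak σ) (E1 τ) := by
    intro σ τ
    show C' 1 (σ * τ) + (act _ (ak (σ * τ)) Q - Q) = C' 1 σ + (act _ (ak σ) Q - Q) +
      act _ (ak σ) (C' 1 τ + (act _ (ak τ) Q - Q))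
    rw [hC'm, mulcob Q, (act (crvT AK BK) (ak σ)).map_add (C' 1 τ)]
    abel
  have hTT : pt0 hR.E + pt0 hR.E = 0 := pt0_two hR.E
  have hcobT : ∀ g : Sep F ≃ₐ[K] Sep F, act (crvT AK BK) (ak g) Q - Q = 0 ∨
      act (crvT AK BK) (ak g) Q - Q = pt0 hR.E := fun g => (huQφ (ak g)).1
  have hE1T : ∀ g, E1 g = 0 ∨ E1 g = pt0 hR.E := by
    intro g
    show C' 1 g + (act _ (ak g) Q - Q) = 0 ∨ C' 1 g + (act _ (ak g) Q - Q) = pt0 hR.E
    rcases hC'T g with h | h <;> rcases hcobT g with h' | h' <;> rw [h, h']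
    · left; rw [add_zero]
    · right; rw [zero_add]
    · right; rw [add_zero]
    · left; exact hTT
  have hE12 : ∀ g, E1 g + E1 g = 0 := by
    intro g
    rcases hE1T g with h | h
    · rw [h, add_zero]
    · rw [h, hTT]
  have h7 : ∀ g, s1 α (E1 g) = 1 := by
    refine char_one hT h2 hp0 hsep hπ hind hθ ι (χ := fun g => s1 α (E1 g)) (fun g => s1_sq _ _)
      (mul1 hR hE1m hE1T) (S := S2 ∪ crd (crvT AK BK) Q) (hS2.union (crd_fin _ _))
      (fun u hu => ?_) ?_ (fun σ hσ => ?_) (fun g hg => ?_)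
    · have : E1 u = 0 := by
        show C' 1 u + (act _ (ak u) Q - Q) = 0
        rw [hCS2 u fun x hx => hu x (Or.inl hx), act_crd _ (fun x hx => hu x (Or.inr hx)),
          sub_self, add_zero]
      rw [this]; rfl
    · intro z e z0 hz hσz v hv
      -- the generator of `c' 1`
      have hf : ∀ σ, c' 1 σ = 0 ∨ c' 1 σ = pt0 hR.E := by
        intro σ
        have := hC'T (σ.restrictScalars K)
        rw [hC'.res] at this
        exact this
      have hE1F : ∀ σ : Sep F ≃ₐ[F] Sep F, s1 α (E1 (σ.restrictScalars K)) =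
          s1 α (c' 1 σ) * s1 α (act (crvT AK BK) (rs K σ) Q - Q) := by
        intro σ
        have e0 : E1 (σ.restrictScalars K) = c' 1 σ + (act (crvT AK BK) (rs K σ) Q - Q) := by
          show C' 1 (σ.restrictScalars K) + (act _ (rs K σ) Q - Q) = _
          rw [hC'.res]
        rw [e0]
        refine (s_addA hR.E (hc'2 σ) ?_).2
        rcases (huQφ (rs K σ)).1 with h | h
        · rw [h, add_zero]
        · rw [h, hTT]
      have hzu : ∀ σ : Sep F ≃ₐ[F] Sep F, σ (z * uQ) = s1 α (c' 1 σ) * (z * uQ) := by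
        intro σ
        have e1 := hσz σ
        simp only [hE1F] at e1
        have e3 : σ uQ = s1 α (act (crvT AK BK) (rs K σ) Q - Q) * uQ := (huQφ (rs K σ)).2
        rw [map_mul, e1, e3]
        have e4 : s1 α (act (crvT AK BK) (rs K σ) Q - Q) *
            s1 α (act (crvT AK BK) (rs K σ) Q - Q) = 1 := by
          rcases s1_sq α (act (crvT AK BK) (rs K σ) Q - Q) with h | h <;> rw [h] <;> ring
        linear_combination (s1 α (c' 1 σ) * z * uQ) * e4
      obtain ⟨e', he', he'0, hpar⟩ : ∃ e' : K, uQ ^ 2 = algebraMap K (Sep F) e' ∧ e' ≠ 0 ∧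
          par v (algebraMap K F e') = 0 := by
        rcases huQ with h | h
        · exact ⟨1, by rw [h, one_pow, map_one], one_ne_zero, by rw [map_one, par_one]⟩
        · exact ⟨_, h, hdK0, pard v hv⟩
      have he0 : e ≠ 0 := by
        rintro rfl
        rw [map_zero] at hz
        exact pow_ne_zero 2 z0 hz
      have hsq : par v (algebraMap K F e * algebraMap K F e') = 0 := by
        rw [par_eq_zero]
        refine gen1 (F := F) (L := Comp k'[X] F v)
          (Valued.v (R := v.adicCompletion F) (Γ₀ := WithZero (Multiplicative ℤ)))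
          (v.valuation F) (wFin v) (v2 v) (by rw [hAK]; exact vle v (a * D)) (vd v hv)
          (loc1T hR hf ((hloc' 1).1 v) (mul_ne_zero z0 uQ0)
            (a1 := algebraMap K F e * algebraMap K F e') ?_ hzu)
        rw [mul_pow, hz, he', map_mul, ← IsScalarTower.algebraMap_apply K F (Sep F),
          ← IsScalarTower.algebraMap_apply K F (Sep F)]
      rw [par_mul v ((_root_.map_ne_zero _).2 he0) ((_root_.map_ne_zero _).2 he'0), hpar,
        add_zero] at hsq
      exact hsq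
    · have : E1 (σ.restrictScalars K) = 0 := by
        show C' 1 (σ.restrictScalars K) + (act _ (rs K σ) Q - Q) = 0
        rw [hC'.res, hc'I σ hσ, hA.fix_two hR hσ hQ2, sub_self, add_zero]
      rw [this]; rfl
    · have : E1 g = 0 := by
        show C' 1 g + (act _ (ak g) Q - Q) = 0
        rw [hdec2 g hg]
        abel
      rw [this]; rfl
  have hE10 : ∀ g, E1 g = 0 := by
    intro g
    refine tor_ext hR.E (hE12 g) (add_zero 0) ?_ ?_
    · rcases hE1T g with h | h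
      · rw [h]
      · rw [h, s0_pt0]; rfl
    · rw [h7]; rfl
  have hfin : ∀ σ : Sep F ≃ₐ[F] Sep F, c' 1 σ = act _ (rs K σ) Q - Q := by
    intro σ
    have e0 : C' 1 (σ.restrictScalars K) + (act _ (rs K σ) Q - Q) = 0 :=
      hE10 (σ.restrictScalars K)
    rw [hC'.res] at e0
    have e1 := eq_neg_of_add_eq_zero_left e0
    rw [e1]
    refine neg_eq_of_add_eq_zero_left ?_
    rcases (huQφ (rs K σ)).1 with h | h
    · rw [h, add_zero]
    · rw [h, hTT]
  refine ⟨Q - S 1, ?_, fun σ => ?_, fun σ => ?_⟩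
  · rw [smul_sub, smul_sub, hSS, two_nsmul Q, hQ2, smul_zero, zero_sub, hS0, two_nsmul, hP02,
      neg_zero]
  · rw [smul_sub, hSS, two_nsmul Q, hQ2, zero_sub, hS0, map_neg, hP0F]
  · have e0 : c 1 σ + (act _ (rs K σ) (S 1) - S 1) = act _ (rs K σ) Q - Q := hfin σ
    rw [map_sub, ← eq_sub_iff_add_eq] at *
    rw [e0]
    abel

end core

end Pool.Agent.Helper55.TT
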