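import Pool.Agent.Helper55.TT.DenC
import Pool.Agent.Helper55.TT.OddC

/-!
# Number fields: constants times a fixed polynomial which are squares modulo a polynomial of the
family
-/

set_option autoImplicit false
set_option linter.all false

namespace Pool.Agent.Helper55.TT

open Polynomial NumberField Pool.Agent Pool.Agent.R939.EI Pool.Agent.R939.HI Pool.Agent.W275.UB
open Pool.Agent.TH115.GD Pool.Agent.H927R2.RD

/-- an order embeds in the `p`-adic integers for some prime `p` which does not divide `N` -/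
theorem spl3 (O J : Type) [CommRing O] [IsDomain O] [Fintype J] (ω : Module.Basis J ℤ O)
    {N : ℕ} (hN : N ≠ 0) :
    ∃ (p : ℕ) (_ : Fact p.Prime), ¬ p ∣ N ∧ Nonempty (O →+* ℤ_[p]) := by
  classical
  have hfree : Module.Free ℤ O := Module.Free.of_basis ω
  have hfin : Module.Finite ℤ O := Module.Finite.of_basis ω
  have hint : Algebra.IsIntegral ℤ O := Algebra.IsIntegral.of_finite ℤ O
  let σ : O →ₐ[ℤ] ℂ := IsAlgClosed.lift
  set s : Finset ℂ := Finset.univ.image (fun j => σ (ω j)) with hs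
  obtain ⟨K, hK, hK', S, h⟩ := exists_padic_embedding s
  obtain ⟨p, hpS', hp⟩ := W930.ND.exists_degOne K (N.primeFactors ∪ S)
  have hpS : p ∉ S := fun h => hpS' (Finset.mem_union_right _ h)
  have hpp : Fact p.Prime := ⟨hp.1⟩
  have hpN : ¬ p ∣ N := fun h => hpS' (Finset.mem_union_left _ (Nat.mem_primeFactors.2 ⟨hp.1, h, hN⟩))
  obtain ⟨e⟩ := h p hpS hp
  refine ⟨p, hpp, hpN, ?_⟩
  have hmem : ∀ x : O, σ x ∈ Subfield.closure (s : Set ℂ) := by
    intro x
    rw [← ω.sum_repr x, map_sum]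
    refine sum_mem fun j _ => ?_
    rw [map_zsmul]
    refine zsmul_mem (Subfield.subset_closure ?_) _
    rw [hs]
    simp
  let τ : O →+* Subfield.closure (s : Set ℂ) := (σ : O →+* ℂ).codRestrict _ hmem
  let g : O →+* ℚ_[p] := e.comp τ
  have hg : ∀ x : O, g x ∈ PadicInt.subring p := by
    intro x
    have h1 : IsIntegral ℤ (g x) := (hint.isIntegral x).map g.toIntAlgHom
    have h2 : IsIntegral ℤ_[p] (g x) := h1.tower_top
    obtain ⟨y, hy⟩ := IsIntegrallyClosed.isIntegral_iff.1 h2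
    rw [← hy]
    exact y.2
  exact ⟨g.codRestrict (PadicInt.subring p) hg⟩

section nf

variable {k : Type} [Field k] [NumberField k] {J : Type} [Fintype J] (ω : Module.Basis J ℤ (𝓞 k))
  {u : ℕ} {n : Fin u → ℕ}

include ω in
/-- an embedding for which a given element is a unit -/
theorem emb_unit {y : 𝓞 k} (hy : y ≠ 0) :
    ∃ (p : ℕ) (_ : Fact p.Prime) (σ₀ : 𝓞 k →+* ℤ_[p]), IsUnit (σ₀ y) := by
  have hI : (Ideal.span {y} : Ideal (𝓞 k)) ≠ ⊥ := by
    rw [Ne, Ideal.span_singleton_eq_bot]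
    exact hy
  have hN : Ideal.absNorm (Ideal.span {y}) ≠ 0 := by
    rw [Ne, Ideal.absNorm_eq_zero_iff]
    exact hI
  obtain ⟨p, hp, hpN, ⟨σ₀⟩⟩ := spl3 (𝓞 k) J ω hN
  refine ⟨p, hp, σ₀, ?_⟩
  have h1 : y ∣ ((Ideal.absNorm (Ideal.span {y}) : ℕ) : 𝓞 k) :=
    Ideal.mem_span_singleton.1 (Ideal.absNorm_mem _)
  have h2 := map_dvd σ₀ h1
  rw [map_natCast] at h2
  refine isUnit_of_dvd_unit h2 ?_
  rw [PadicInt.isUnit_iff]
  have h3 : ¬ ‖((Ideal.absNorm (Ideal.span {y}) : ℕ) : ℤ_[p])‖ < 1 := by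
    intro h4
    apply hpN
    have h5 := (PadicInt.norm_int_lt_one_iff_dvd (p := p)
      ((Ideal.absNorm (Ideal.span {y}) : ℕ) : ℤ)).1 (by exact_mod_cast h4)
    exact_mod_cast h5
  exact le_antisymm (PadicInt.norm_le_one _) (not_lt.1 h3)

/-- an integral model -/
theorem int_model (f : k[X]) : ∃ (Q : (𝓞 k)[X]) (c : k), c ≠ 0 ∧
    Q.map (algebraMap (𝓞 k) k) = C (c ^ 2) * f := by
  obtain ⟨d, hd, hd'⟩ := IsLocalization.integerNormalization_spec (nonZeroDivisors (𝓞 k)) f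
  set q := IsLocalization.integerNormalization (nonZeroDivisors (𝓞 k)) f with hq
  have hdk : algebraMap (𝓞 k) k d ≠ 0 := by
    rw [Ne, FaithfulSMul.algebraMap_eq_zero_iff]
    exact nonZeroDivisors.ne_zero hd
  have hqf : q.map (algebraMap (𝓞 k) k) = C (algebraMap (𝓞 k) k d) * f := by
    rw [hd']
    ext i
    rw [coeff_smul, coeff_C_mul, Algebra.smul_def]
  refine ⟨C d * q, algebraMap (𝓞 k) k d, hdk, ?_⟩
  rw [Polynomial.map_mul, hqf, map_C, C_pow]
  ring

/-- the polynomials of the family -/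
noncomputable abbrev Dp (x : (Σ l : Fin u, Fin (n l + 1)) × J → ℤ) (l : Fin u) : k[X] :=
  polA fun j => kv ω x ⟨l, j⟩

/-- the bad parameters: a constant times `f ∏ D l` is a nonzero square modulo `D l0` -/
def BadK (n : Fin u → ℕ) (l0 : Fin u) (f : k[X]) (T : Finset (Fin u)) :
    Set ((Σ l : Fin u, Fin (n l + 1)) × J → ℤ) :=
  {x | ∃ (w : k[X]) (c : k), w ≠ 0 ∧ w.natDegree < n l0 ∧ c ≠ 0 ∧
    Dp ω x l0 ∣ w ^ 2 - C c * (f * ∏ l ∈ T, Dp ω x l)}

theorem badK_sub {l0 : Fin u} {f : k[X]} {T : Finset (Fin u)} {Q : (𝓞 k)[X]} {c0 : k}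
    (hc0 : c0 ≠ 0) (hQ : Q.map (algebraMap (𝓞 k) k) = C (c0 ^ 2) * f)
    {x : (Σ l : Fin u, Fin (n l + 1)) × J → ℤ} (hx : x ∈ BadK ω n l0 f T)
    (hD0 : Dp ω x l0 ≠ 0) :
    ∃ i, x ∈ BadC ω n l0 Q T (2 * n l0 + Q.natDegree + ∑ l ∈ T, n l + 1) i := by
  obtain ⟨w, c, hw, hwd, hc, h, e⟩ := hx
  set i := w.natDegree with hi
  have ha : w.coeff i ≠ 0 := leadingCoeff_ne_zero.2 hw
  set a := w.coeff i with ha'
  refine ⟨⟨i, hwd⟩, k, inferInstance, inferInstance, algebraMap (𝓞 k) k,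
    fun j => (C a⁻¹ * w).coeff j, fun j => (C (a⁻¹ ^ 2) * h).coeff j,
    c * (a⁻¹ * c0⁻¹) ^ 2, ?_, ?_, ?_, ?_⟩
  · rw [card_J ω]
  · show (C a⁻¹ * w).coeff i = 1
    rw [coeff_C_mul]
    exact inv_mul_cancel₀ ha
  · exact mul_ne_zero hc (pow_ne_zero 2 (mul_ne_zero (inv_ne_zero ha) (inv_ne_zero hc0)))
  · have hkv : (cv (fun j => algebraMap (𝓞 k) k (ω j)) fun q => (x q : k)) = kv ω x := by
      have := cv_kv (K := k) ω x
      funext i
      have h3 := congrFun this i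
      simp only [Algebra.algebraMap_self, RingHom.id_apply] at h3
      exact h3
    have hwd' : (C a⁻¹ * w).natDegree < n l0 := by
      rw [natDegree_C_mul (inv_ne_zero ha)]
      exact hwd
    have hDl : ∀ l, (Dp ω x l).natDegree ≤ n l := fun l => polA_natDegree _
    have hprod : (∏ l ∈ T, Dp ω x l).natDegree ≤ ∑ l ∈ T, n l :=
      (natDegree_prod_le _ _).trans (Finset.sum_le_sum fun l _ => hDl l)
    have hfd : f.natDegree ≤ Q.natDegree := by
      have h1 : (C (c0 ^ 2) * f).natDegree = f.natDegree := natDegree_C_mul (pow_ne_zero 2 hc0)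
      rw [← h1, ← hQ]
      exact natDegree_map_le
    have hhd : (C (a⁻¹ ^ 2) * h).natDegree < 2 * n l0 + Q.natDegree + ∑ l ∈ T, n l + 1 := by
      rw [natDegree_C_mul (pow_ne_zero 2 (inv_ne_zero ha))]
      by_cases hh : h = 0
      · rw [hh, natDegree_zero]
        omega
      have h1 : h.natDegree ≤ (Dp ω x l0 * h).natDegree := by
        rw [natDegree_mul hD0 hh]
        omega
      refine Nat.lt_succ_of_le (h1.trans ?_)
      rw [← e]
      refine (natDegree_sub_le _ _).trans (max_le ?_ ?_)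
      · refine natDegree_pow_le.trans ?_
        have := Nat.mul_le_mul_left 2 hwd.le
        omega
      · refine (natDegree_C_mul_le _ _).trans (natDegree_mul_le.trans ?_)
        omega
    rw [hkv, map_PX, map_prodPX, ← eq_pl hwd', ← eq_pl hhd, hQ]
    have e2 : (C c0⁻¹ : k[X]) * C c0 = 1 := by rw [← C_mul, inv_mul_cancel₀ hc0, C_1]
    have e3 : (C (c0 ^ 2) : k[X]) = C c0 ^ 2 := C_pow
    have e4 : (C (c * (a⁻¹ * c0⁻¹) ^ 2) : k[X]) = C c * (C a⁻¹ * C c0⁻¹) ^ 2 := by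
      rw [C_mul, C_pow, C_mul]
    have e5 : (C (a⁻¹ ^ 2) : k[X]) = C a⁻¹ ^ 2 := C_pow
    rw [e4, e3, e5]
    linear_combination (C a⁻¹ ^ 2) * e - (C c * C a⁻¹ ^ 2 * (f * ∏ l ∈ T, Dp ω x l) *
      (C c0⁻¹ * C c0 + 1)) * e2

end nf

end Pool.Agent.Helper55.TT
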