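import Pool.Agent.Helper55.TT.Char

/-!
# The places with a fibre of type `I₀*` of `y² = x (x² + a D x + b D²)`
-/

set_option autoImplicit false
set_option linter.all false

open Polynomial IsDedekindDomain WeierstrassCurve WeierstrassCurve.Affine
open scoped Classical

namespace Pool.Agent.Helper55.TT

open Pool.Agent.TH115.GD Pool.Agent.R939.EI
open Pool.Agent.W309.TD (exists_root sq_of_nonsq)

section core

variable {k k' K F : Type} [Field k] [Field k'] [Algebra k k'] [Field K] [Algebra k[X] K]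
    [Field F] [Algebra k'[X] F] [IsFractionRing k'[X] F] [Algebra K F]

theorem addPl (hT : IsTower k k' K F) (h2 : (2 : k) ≠ 0) {a b D π : k[X]} (hD : D ≠ 0)
    (hodd : OddFactor π D) (hπb : ¬ π ∣ b * (a ^ 2 - 4 * b)) {θ : k'} (hθ : aeval θ π = 0)
    (ι : Sep F →ₐ[F] Sep (Comp k'[X] F (pl θ))) {α β r : Sep F}
    (hR : Roots (algebraMap k[X] K (a * D)) (algebraMap k[X] K (b * D ^ 2)) (Sep F) α β)
    (hr : r ^ 2 = algebraMap K (Sep F) (algebraMap k[X] K D)) :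
    AddPl (wv (F := F) (pl θ)) ι α β r := by
  haveI := hT.sep
  haveI := hT.fracK
  haveI : IsSepClosed k' := IsSepClosure.sep_closed k
  have h2' : (2 : k') ≠ 0 := by
    rw [← map_ofNat (algebraMap k k') 2]
    exact (_root_.map_ne_zero _).2 h2
  have hπ := hodd.1
  have hbδθ : aeval θ (b * (a ^ 2 - 4 * b)) ≠ 0 := by rwa [Ne, ← dvd_iff_aeval hπ hθ]
  have hbθ : aeval θ b ≠ 0 := aeval_ne_of_dvd (dvd_mul_right _ _) hbδθ
  have hδθ : aeval θ (a ^ 2 - 4 * b) ≠ 0 := aeval_ne_of_dvd (dvd_mul_left _ _) hbδθ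
  have hδ0 : a ^ 2 - 4 * b ≠ 0 := by
    intro h
    rw [h, map_zero] at hδθ
    exact hδθ rfl
  set L := Comp k'[X] F (pl θ) with hL
  set m : k[X] →+* L := (algebraMap K L).comp (algebraMap k[X] K) with hm
  have hιm : ∀ p : k[X], ι (algebraMap K (Sep F) (algebraMap k[X] K p)) =
      algebraMap L (Sep L) (m p) := by
    intro p
    have h1 : ι (algebraMap K (Sep F) (algebraMap k[X] K p)) =
      algebraMap K (Sep L) (algebraMap k[X] K p) := (ι.restrictScalars K).commutes _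
    rw [h1, IsScalarTower.algebraMap_apply K L (Sep L)]
    rfl
  have wD : ¬ IsSquare (wv (pl θ) (m D)) := by
    show ¬ IsSquare (wv (pl θ) (algebraMap K L (algebraMap k[X] K D)))
    rw [wv_poly hT hD θ, Nat.not_even_iff_odd]
    exact odd_of_factor hD hodd hθ
  have w1 : ∀ p : k[X], aeval θ p ≠ 0 → wv (pl θ) (m p) = 1 := fun p hp => wv_one hT hp
  have wle : ∀ p : k[X], wv (pl θ) (m p) ≤ 1 := fun p => wv_le hT p θ
  have h2L : wv (pl θ) (2 : L) = 1 := by
    have h3 := w1 2 (by rw [map_ofNat]; exact h2')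
    rwa [map_ofNat] at h3
  have h2L0 : (2 : L) ≠ 0 := by
    intro h
    rw [h, map_zero] at h2L
    exact zero_ne_one h2L
  have mne : ∀ {p : k[X]}, p ≠ 0 → m p ≠ 0 := by
    intro p hp
    have : algebraMap k[X] K p ≠ 0 := by simpa using hp
    exact (_root_.map_ne_zero (algebraMap K L)).2 this
  have hdiff : (α - β) ^ 2 = algebraMap K (Sep F) (algebraMap k[X] K (D ^ 2 * (a ^ 2 - 4 * b))) := by
    have e1 : (α - β) ^ 2 = (α + β) ^ 2 - 4 * (α * β) := by ring
    rw [e1, hR.sum, hR.prod]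
    simp only [map_mul, map_sub, map_pow, map_ofNat]
    ring
  obtain ⟨z0, hz0, hz⟩ := even_sq θ h2' (mne hδ0) ⟨1, by rw [w1 _ hδθ, mul_one]⟩
  obtain ⟨z, hz2, hzι⟩ : ∃ z : L, m (a ^ 2 - 4 * b) = z ^ 2 ∧
      ι (α - β) = algebraMap L (Sep L) (m D * z) := by
    have h3 : ι (α - β) ^ 2 = (algebraMap L (Sep L) (m D * z0)) ^ 2 := by
      rw [← map_pow, hdiff, hιm, ← map_pow, mul_pow, ← hz, map_mul, map_pow]
    rcases sq_eq_sq_iff_eq_or_eq_neg.1 h3 with h | h
    · exact ⟨z0, hz, h⟩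
    · exact ⟨-z0, by rw [hz, neg_sq], by rw [h, mul_neg, map_neg]⟩
  have wz : wv (pl θ) z = 1 := by
    have h3 := w1 _ hδθ
    rw [hz2, map_pow] at h3
    exact (pow_eq_one_iff.1 h3).resolve_right two_ne_zero
  -- the two roots
  have hsum : ι α + ι β = algebraMap L (Sep L) (-(m a * m D)) := by
    rw [← map_add, hR.sum, map_neg, hιm, map_mul, map_neg]
  have h2E : (2 : Sep L) ≠ 0 := by
    rw [← map_ofNat (algebraMap L (Sep L)) 2]
    exact (_root_.map_ne_zero _).2 h2L0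
  have hα : algebraMap L (Sep L) (m D * ((-m a + z) / 2)) = ι α := by
    have e1 : m D * ((-m a + z) / 2) = (-(m a * m D) + m D * z) / 2 := by ring
    rw [e1, map_div₀, map_add, ← hsum, ← hzι, map_sub, map_ofNat]
    field_simp
    ring
  have hβ : algebraMap L (Sep L) (m D * ((-m a - z) / 2)) = ι β := by
    have e1 : m D * ((-m a - z) / 2) = (-(m a * m D) - m D * z) / 2 := by ring
    rw [e1, map_div₀, map_sub, ← hsum, ← hzι, map_sub, map_ofNat]
    field_simp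
    ring
  have hprod : ((-m a + z) / 2) * ((-m a - z) / 2) = m b := by
    have e3 : z ^ 2 = m a ^ 2 - 4 * m b := by
      rw [← hz2, map_sub, map_mul, map_pow, map_ofNat]
    have h4 : (2 : L) * 2 ≠ 0 := mul_ne_zero h2L0 h2L0
    rw [div_mul_div_comm, div_eq_iff h4]
    linear_combination -e3
  have wα : wv (pl θ) ((-m a + z) / 2) ≤ 1 := by
    rw [map_div₀, h2L, div_one]
    refine (Valuation.map_add _ _ _).trans (max_le ?_ wz.le)
    rw [Valuation.map_neg]
    exact wle a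
  have wβ : wv (pl θ) ((-m a - z) / 2) ≤ 1 := by
    rw [map_div₀, h2L, div_one]
    refine (Valuation.map_sub _ _ _).trans (max_le ?_ wz.le)
    rw [Valuation.map_neg]
    exact wle a
  have wαβ : wv (pl θ) ((-m a + z) / 2) * wv (pl θ) ((-m a - z) / 2) = 1 := by
    rw [← map_mul, hprod, w1 b hbθ]
  have wα1 : wv (pl θ) ((-m a + z) / 2) = 1 := by
    refine le_antisymm wα ?_
    rw [← wαβ]
    exact mul_le_of_le_one_right' wβ
  have wβ1 : wv (pl θ) ((-m a - z) / 2) = 1 := by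
    rw [wα1, one_mul] at wαβ
    exact wαβ
  refine ⟨fun x hx h => even_sq θ h2' hx h, ⟨m D, ?_, wD⟩, ⟨_, hα, ?_⟩, ⟨_, hβ, ?_⟩,
    fun x hx => ?_⟩
  · rw [← hιm, ← hr, map_pow]
  · rw [map_mul, wα1, mul_one]; exact wD
  · rw [map_mul, wβ1, mul_one]; exact wD
  · rw [hzι] at hx
    rw [inj_alg hx, map_mul, wz, mul_one]
    exact wD

end core

section tw

variable {K Ω : Type} [Field K] [Field Ω] [Algebra K Ω] [IsSepClosed Ω] {a b : K} {α β : Ω}
  (hR : Roots a b Ω α β)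

include hR in
/-- The square root attached to a point of order two. -/
theorem tw_root {Q : Pt (crvT a b) Ω} (hQ : Q + Q = 0) : ∃ u : Ω, u ≠ 0 ∧
    (u = 1 ∨ u ^ 2 = algebraMap K Ω (a ^ 2 - 4 * b)) ∧
    ∀ φ : Ω →ₐ[K] Ω, (act (crvT a b) φ Q - Q = 0 ∨ act (crvT a b) φ Q - Q = pt0 hR.E) ∧
      φ u = s1 α (act (crvT a b) φ Q - Q) * u := by
  rcases tor_cases hR.E hQ with ⟨h, -⟩ | ⟨hn, h, -⟩ | ⟨hn, h, -⟩ | ⟨hn, h, -⟩
  · refine ⟨1, one_ne_zero, Or.inl rfl, fun φ => ?_⟩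
    rw [h, map_zero, sub_zero, map_one, mul_one]
    exact ⟨Or.inl rfl, rfl⟩
  · refine ⟨1, one_ne_zero, Or.inl rfl, fun φ => ?_⟩
    have h1 : Q = pt0 hR.E := h
    rw [h1, hR.pt0_act, sub_self, map_one, mul_one]
    exact ⟨Or.inl rfl, rfl⟩
  · obtain ⟨R, -, hsq, hne, ⟨hn', hR'⟩, hφ⟩ := sgn_root hR (Or.inl rfl : α = α ∨ α = β)
    have : Q = R := by rw [h, hR']
    rw [this]
    exact ⟨_, hne, Or.inr hsq, hφ⟩
  · obtain ⟨R, -, hsq, hne, ⟨hn', hR'⟩, hφ⟩ := sgn_root hR (Or.inr rfl : β = α ∨ β = β)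
    have : Q = R := by rw [h, hR']
    rw [this]
    exact ⟨_, hne, Or.inr hsq, hφ⟩

end tw

end Pool.Agent.Helper55.TT
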