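import Pool.Agent.Helper55.TT.Lmk1
import Pool.Graph.R_seed8.R939.HI.Trans2

/-!
# Hilbert irreducibility with densities: constants times a polynomial which are squares modulo the
generic polynomial
-/

set_option autoImplicit false
set_option linter.all false

namespace Pool.Agent.Helper55.TT

open MvPolynomial Pool.Agent.W275.UB Pool.Agent.W275.ND Pool.Agent Pool.Agent.H927R2.RD
open Pool.Agent.R939.HI

section alg

variable {E Ω : Type} [Field E] [Field Ω] [Algebra E Ω]

/-- interpolation of algebraic values at algebraic points -/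
theorem isAlg_interp {f : Polynomial Ω} {T : Finset Ω} (hT : ∀ θ ∈ T, IsAlgebraic E θ)
    (hv : ∀ θ ∈ T, IsAlgebraic E (f.eval θ)) (hd : f.degree < T.card) (n : ℕ) :
    IsAlgebraic E (f.coeff n) := by
  classical
  let E' := algebraicClosure E Ω
  have hl : ∀ q : Polynomial Ω, q ∈ Polynomial.lifts (algebraMap E' Ω) ↔
      ∀ n, IsAlgebraic E (q.coeff n) := by
    intro q
    rw [Polynomial.lifts_iff_coeff_lifts]
    constructor
    · intro h n
      obtain ⟨z, hz⟩ := h n
      rw [← hz]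
      exact mem_algebraicClosure_iff.1 z.2
    · intro h n
      exact ⟨⟨q.coeff n, mem_algebraicClosure_iff.2 (h n)⟩, rfl⟩
  have hC : ∀ x : Ω, IsAlgebraic E x → Polynomial.C x ∈ Polynomial.lifts (algebraMap E' Ω) := by
    intro x hx
    exact Polynomial.C'_mem_lifts (f := algebraMap E' Ω) ⟨⟨x, mem_algebraicClosure_iff.2 hx⟩, rfl⟩
  have hXm : (Polynomial.X : Polynomial Ω) ∈ Polynomial.lifts (algebraMap E' Ω) :=
    Polynomial.X_mem_lifts _
  refine (hl f).1 ?_ n
  rw [Lagrange.eq_interpolate (s := T) (v := id) (Set.injOn_id _) hd, Lagrange.interpolate_apply]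
  refine sum_mem fun i hi => mul_mem (hC _ (hv i hi)) ?_
  rw [Lagrange.basis]
  refine prod_mem fun j hj => ?_
  rw [Lagrange.basisDivisor]
  have hj' := (Finset.mem_erase.1 hj).2
  refine mul_mem (hC _ ((hT i hi).sub (hT j hj')).inv) ?_
  rw [sub_eq_add_neg, ← Polynomial.C_neg]
  exact add_mem hXm (hC _ (hT j hj').neg)

/-- the solutions of `w² - c Q = P h` with `w` normalised are algebraic -/
theorem isAlg_sys [IsAlgClosed Ω] {P Q w h : Polynomial Ω} {c : Ω} {i : ℕ}
    (hP : ∀ n, IsAlgebraic E (P.coeff n)) (hQ : ∀ n, IsAlgebraic E (Q.coeff n))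
    (hsep : P.Separable) (hw : w.natDegree < P.natDegree) (hi : w.coeff i = 1)
    (e : w ^ 2 - Polynomial.C c * Q = P * h) :
    IsAlgebraic E c ∧ (∀ n, IsAlgebraic E (w.coeff n)) ∧ ∀ n, IsAlgebraic E (h.coeff n) := by
  classical
  have hP0 : P ≠ 0 := hsep.ne_zero
  have hw0 : w ≠ 0 := by
    rintro rfl
    rw [Polynomial.coeff_zero] at hi
    exact zero_ne_one hi
  have hc : c ≠ 0 := by
    rintro rfl
    rw [Polynomial.C_0, zero_mul, sub_zero] at e
    have h1 : P ∣ w ^ 2 := ⟨h, e⟩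
    have h2 : P ∣ w := (hsep.squarefree.dvd_pow_iff_dvd two_ne_zero).1 h1
    have h3 := Polynomial.natDegree_le_of_dvd h2 hw0
    omega
  obtain ⟨γ, hγ⟩ := IsAlgClosed.exists_pow_nat_eq c (n := 2) (by norm_num)
  have hγ0 : γ ≠ 0 := by
    rintro rfl
    exact hc (by rw [← hγ]; ring)
  set T := P.roots.toFinset with hT
  have hTc : T.card = P.natDegree := by
    rw [hT, Multiset.toFinset_card_of_nodup (Polynomial.nodup_roots hsep)]
    exact Polynomial.splits_iff_card_roots.1 (IsAlgClosed.splits P)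
  have hTr : ∀ θ ∈ T, P.eval θ = 0 := fun θ hθ =>
    (Polynomial.mem_roots'.1 (Multiset.mem_toFinset.1 hθ)).2
  have hTa : ∀ θ ∈ T, IsAlgebraic E θ := fun θ hθ => isAlg_root hP0 hP (hTr θ hθ)
  set w' := Polynomial.C γ⁻¹ * w with hw'
  have hw'd : w'.degree < T.card := by
    rw [hTc]
    refine lt_of_le_of_lt ?_ (Polynomial.degree_lt_degree (p := w) (q := P) hw |>.trans_le
      Polynomial.degree_le_natDegree)
    rw [hw', Polynomial.degree_C_mul (inv_ne_zero hγ0)]
  have hval : ∀ θ ∈ T, IsAlgebraic E (w'.eval θ) := by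
    intro θ hθ
    have h1 := congrArg (Polynomial.eval θ) e
    rw [Polynomial.eval_sub, Polynomial.eval_pow, Polynomial.eval_mul, Polynomial.eval_C,
      Polynomial.eval_mul, hTr θ hθ, zero_mul] at h1
    have h2 : (w'.eval θ) ^ 2 = Q.eval θ := by
      rw [hw', Polynomial.eval_mul, Polynomial.eval_C, mul_pow, sub_eq_zero.1 h1, ← hγ]
      field_simp
    have h3 : IsAlgebraic E ((w'.eval θ) ^ 2) := by
      rw [h2]
      exact isAlg_eval hQ (hTa θ hθ)
    exact h3.of_pow (by norm_num)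
  have hw'a := isAlg_interp hTa hval hw'd
  have hγa : IsAlgebraic E γ := by
    have h1 := hw'a i
    rw [hw', Polynomial.coeff_C_mul, hi, mul_one] at h1
    have h2 := h1.inv
    rwa [inv_inv] at h2
  have hca : IsAlgebraic E c := by
    rw [← hγ]
    exact hγa.pow 2
  have hwa : ∀ n, IsAlgebraic E (w.coeff n) := by
    intro n
    have h1 : w.coeff n = γ * w'.coeff n := by
      rw [hw', Polynomial.coeff_C_mul, ← mul_assoc, mul_inv_cancel₀ hγ0, one_mul]
    rw [h1]
    exact hγa.mul (hw'a n)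
  refine ⟨hca, hwa, ?_⟩
  by_cases hf : w ^ 2 - Polynomial.C c * Q = 0
  · rw [hf] at e
    have h1 : h = 0 := by
      rcases mul_eq_zero.1 e.symm with h | h
      · exact absurd h hP0
      · exact h
    intro n
    rw [h1, Polynomial.coeff_zero]
    exact isAlgebraic_zero
  · have hfa : ∀ n, IsAlgebraic E ((w ^ 2 - Polynomial.C c * Q).coeff n) := by
      intro n
      rw [Polynomial.coeff_sub, Polynomial.coeff_C_mul, pow_two, Polynomial.coeff_mul]
      refine IsAlgebraic.sub ?_ (hca.mul (hQ n))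
      refine Finset.sum_induction _ (IsAlgebraic E) (fun _ _ => IsAlgebraic.add)
        isAlgebraic_zero ?_
      intro x _
      exact (hwa _).mul (hwa _)
    have hl0 : P.leadingCoeff ≠ 0 := Polynomial.leadingCoeff_ne_zero.2 hP0
    have hmon : (Polynomial.C P.leadingCoeff⁻¹ * P).Monic := by
      rw [Polynomial.Monic, Polynomial.leadingCoeff_mul, Polynomial.leadingCoeff_C,
        inv_mul_cancel₀ hl0]
    have h3 := (isAlg_factor (E := E) hf hfa hmon (h := Polynomial.C P.leadingCoeff * h) (by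
      rw [e]
      have : (Polynomial.C P.leadingCoeff⁻¹ : Polynomial Ω) * Polynomial.C P.leadingCoeff = 1 := by
        rw [← Polynomial.C_mul, inv_mul_cancel₀ hl0, Polynomial.C_1]
      linear_combination (P * h) * this)).2
    intro n
    have h4 : h.coeff n = P.leadingCoeff⁻¹ * (Polynomial.C P.leadingCoeff * h).coeff n := by
      rw [Polynomial.coeff_C_mul, ← mul_assoc, inv_mul_cancel₀ hl0, one_mul]
    rw [h4]
    exact (hP P.natDegree).inv.mul (h3 n)

end alg

section subst

variable {ι J : Type} [Fintype J] {O : Type} [CommRing O] (ω : Module.Basis J ℤ O)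

/-- a polynomial over `O` in terms of the unknown images of the basis -/
noncomputable def gQX (τ ι : Type) (Q : Polynomial O) :
    Polynomial (MvPolynomial (J ⊕ τ) (MvPolynomial (ι × J) ℤ)) :=
  ∑ n ∈ Finset.range (Q.natDegree + 1),
    Polynomial.C (∑ j, C (C (ω.repr (Q.coeff n) j)) * X (Sum.inl j)) * Polynomial.X ^ n

theorem map_gQX {τ R : Type} [CommRing R] (φ : MvPolynomial (ι × J) ℤ →+* R) (y : J ⊕ τ → R)
    (σ : O →+* R) (hσ : ∀ j, y (Sum.inl j) = σ (ω j)) (Q : Polynomial O) :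
    (gQX ω τ ι Q).map (eval₂Hom φ y) = Q.map σ := by
  have hc : ∀ n : ℤ, φ (C n) = (n : R) := fun n => by
    have : (C n : MvPolynomial (ι × J) ℤ) = ((n : ℤ) : MvPolynomial (ι × J) ℤ) := by
      simp
    rw [this, map_intCast]
  have key : ∀ n, eval₂Hom φ y (∑ j, C (C (ω.repr (Q.coeff n) j)) * X (Sum.inl j)) =
      σ (Q.coeff n) := by
    intro n
    conv_rhs => rw [← ω.sum_repr (Q.coeff n), map_sum]
    rw [map_sum]
    refine Finset.sum_congr rfl fun j _ => ?_
    rw [map_mul, coe_eval₂Hom, eval₂_C, hc, eval₂_X, hσ, zsmul_eq_mul, map_mul, map_intCast]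
  conv_rhs => rw [Q.as_sum_range_C_mul_X_pow, Polynomial.map_sum]
  rw [gQX, Polynomial.map_sum]
  refine Finset.sum_congr rfl fun n _ => ?_
  rw [Polynomial.map_mul, Polynomial.map_mul, Polynomial.map_pow, Polynomial.map_pow,
    Polynomial.map_X, Polynomial.map_X, Polynomial.map_C, Polynomial.map_C, key]

/-- the unknowns: the coefficients of `w` and `h`, and `c` -/
abbrev Un (q n : ℕ) : Type := Fin q ⊕ (Fin n ⊕ Unit)

/-- the equations `w² - c Q R = P h`, `w i = 1` -/
noncomputable def gS {q : ℕ} (n : ℕ) (i : Fin q) (P R : Polynomial (MvPolynomial ι ℤ))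
    (Q : Polynomial O) : Set (MvPolynomial (J ⊕ Un q n) (MvPolynomial (ι × J) ℤ)) :=
  (Set.range fun l : ℕ => ((pl fun j : Fin q => X (Sum.inr (Sum.inl j))) ^ 2 -
      Polynomial.C (X (Sum.inr (Sum.inr (Sum.inr ())))) *
        (gQX ω (Un q n) ι Q * R.map (sbT (Un q n) ι J)) -
    P.map (sbT (Un q n) ι J) * pl fun j : Fin n => X (Sum.inr (Sum.inr (Sum.inl j)))).coeff l) ∪
  {X (Sum.inr (Sum.inl i)) - 1}

theorem eval_gS {R' : Type} [CommRing R'] {q n : ℕ} (i : Fin q)
    (P R : Polynomial (MvPolynomial ι ℤ)) (Q : Polynomial O)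
    (φ : MvPolynomial (ι × J) ℤ →+* R') (y : J ⊕ Un q n → R')
    (σ : O →+* R') (hσ : ∀ j, y (Sum.inl j) = σ (ω j)) :
    (∀ g ∈ gS ω n i P R Q, eval₂ φ y g = 0) ↔
      ((pl fun j : Fin q => y (Sum.inr (Sum.inl j))) ^ 2 -
      Polynomial.C (y (Sum.inr (Sum.inr (Sum.inr ())))) *
        (Q.map σ * R.map (av (cv (fun j => σ (ω j)) fun q => φ (X q)))) =
      P.map (av (cv (fun j => σ (ω j)) fun q => φ (X q))) *
        (pl fun j : Fin n => y (Sum.inr (Sum.inr (Sum.inl j))))) ∧
      y (Sum.inr (Sum.inl i)) = 1 := by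
  have hv : (fun j => y (Sum.inl j)) = fun j => σ (ω j) := funext hσ
  have key : ∀ l, eval₂ φ y (((pl fun j : Fin q => (X (Sum.inr (Sum.inl j)) :
      MvPolynomial (J ⊕ Un q n) (MvPolynomial (ι × J) ℤ))) ^ 2 -
      Polynomial.C (X (Sum.inr (Sum.inr (Sum.inr ())))) *
        (gQX ω (Un q n) ι Q * R.map (sbT (Un q n) ι J)) -
    P.map (sbT (Un q n) ι J) * pl fun j : Fin n => X (Sum.inr (Sum.inr (Sum.inl j)))).coeff l) =
      (((pl fun j : Fin q => y (Sum.inr (Sum.inl j))) ^ 2 -
      Polynomial.C (y (Sum.inr (Sum.inr (Sum.inr ())))) *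
        (Q.map σ * R.map (av (cv (fun j => σ (ω j)) fun q => φ (X q))))) -
      P.map (av (cv (fun j => σ (ω j)) fun q => φ (X q))) *
        (pl fun j : Fin n => y (Sum.inr (Sum.inr (Sum.inl j))))).coeff l := by
    intro l
    rw [← coe_eval₂Hom, ← Polynomial.coeff_map]
    simp only [Polynomial.map_sub, Polynomial.map_mul, Polynomial.map_pow, pl_map,
      Polynomial.map_map, eval_sbT, hv, Polynomial.map_C, map_gQX ω φ y σ hσ Q]
    simp
  constructor
  · intro h
    constructor
    · rw [← sub_eq_zero]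
      ext l
      rw [← key, Polynomial.coeff_zero]
      exact h _ (Or.inl ⟨l, rfl⟩)
    · have h1 := h _ (Or.inr rfl)
      rw [eval₂_sub, eval₂_X, eval₂_one] at h1
      exact sub_eq_zero.1 h1
  · rintro ⟨h1, h2⟩ g (⟨l, rfl⟩ | rfl)
    · have h3 := key l
      rw [h1, sub_self, Polynomial.coeff_zero] at h3
      exact h3
    · rw [eval₂_sub, eval₂_X, eval₂_one, h2, sub_self]

end subst

end Pool.Agent.Helper55.TT
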