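import Pool.Agent.Helper55.TT.SysC
import Pool.Graph.R_seed8.R939.HI.Fix

/-!
# Hilbert irreducibility with densities: transfer to the `p`-adic numbers
-/

set_option autoImplicit false
set_option linter.all false

namespace Pool.Agent.Helper55.TT

open MvPolynomial Pool.Agent.W275.UB Pool.Agent.W275.ND Pool.Agent Pool.Agent.H927R2.RD
open Pool.Agent.R939.HI

/-- **Constants times a polynomial which are squares modulo the generic polynomial.** -/
theorem sysC {O J ι : Type} [CommRing O] [IsDomain O] [Fintype J] [Fintype ι]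
    (ω : Module.Basis J ℤ O) (P R A B : Polynomial (MvPolynomial ι ℤ)) (Δ : MvPolynomial ι ℤ)
    (hΔ : Δ ≠ 0) (hPs : A * P + B * Polynomial.derivative P = Polynomial.C Δ) (Q : Polynomial O)
    {q : ℕ} (n : ℕ) (i : Fin q) (hPd : P.natDegree = q)
    (p : ℕ) [Fact p.Prime] (σ₀ : O →+* ℤ_[p]) (a : ι → ℤ_[p]) (M : ℕ)
    (hno : ∀ b : ι → ℤ_[p], (∀ i, (p : ℤ_[p]) ^ M ∣ b i - a i) →
      ∀ (w h : Polynomial ℚ_[p]) (c : ℚ_[p]), c ≠ 0 →
      w ^ 2 - Polynomial.C c * ((Q.map σ₀).map (algebraMap ℤ_[p] ℚ_[p]) *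
        (R.map (av b)).map (algebraMap ℤ_[p] ℚ_[p])) ≠
        (P.map (av b)).map (algebraMap ℤ_[p] ℚ_[p]) * h) :
    D0 {x : ι × J → ℤ | ∃ (K : Type) (_ : Field K) (_ : NumberField K) (σ : O →+* K)
      (w : Fin q → K) (h : Fin n → K) (c : K),
      Module.finrank ℚ K ≤ Fintype.card J ∧ w i = 1 ∧ c ≠ 0 ∧
      (pl w) ^ 2 - Polynomial.C c *
        (Q.map σ * R.map (av (cv (fun j => σ (ω j)) fun q => (x q : K)))) =
        P.map (av (cv (fun j => σ (ω j)) fun q => (x q : K))) * pl h} := by
  classical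
  set γ : MvPolynomial (J ⊕ Un q n) (MvPolynomial (ι × J) ℤ) :=
    X (Sum.inr (Sum.inr (Sum.inr ()))) with hγ
  by_contra hcon
  have hcon' : ¬ (∀ ε : ℝ, 0 < ε → UD ε {x : ι × J → ℤ |
      ∃ (K : Type) (_ : Field K) (_ : NumberField K) (y : J ⊕ Un q n → K),
        Module.finrank ℚ K ≤ Fintype.card J ∧
        (∀ g ∈ gTT (Un q n) ω ι ∪ gS ω n i P R Q,
          eval₂ ((Int.castRingHom K).comp (eval x)) y g = 0) ∧
        eval₂ ((Int.castRingHom K).comp (eval x)) y γ ≠ 0}) := by
    intro h
    apply hcon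
    intro ε hε
    refine (h ε hε).mono ?_
    rintro x ⟨K, _, _, σ, w, h, c, hK, hwi, hc, e⟩
    have hx : ∀ q : ι × J, ((Int.castRingHom K).comp (eval x)) (X q) = (x q : K) := by
      intro q
      simp
    refine ⟨K, inferInstance, inferInstance, Sum.elim (fun j => σ (ω j))
      (Sum.elim w (Sum.elim h fun _ => c)), hK, ?_, ?_⟩
    · rintro f (hf | hf)
      · exact (eval_gTT _ ω _ _).2 ((tab O J K ω _).2 ⟨σ, fun j => rfl⟩) f hf
      · refine (eval_gS ω i P R Q _ _ σ (fun j => rfl)).2 ?_ f hf
        simp only [hx, Sum.elim_inl, Sum.elim_inr]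
        exact ⟨e, hwi⟩
    · rw [hγ, eval₂_X]
      exact hc
  obtain ⟨L, _, _, y, hfd, hdeg, hy, hy0⟩ := genT (ι × J) (J ⊕ Un q n) (Fintype.card J)
    (gTT (Un q n) ω ι ∪ gS ω n i P R Q) γ (by
      intro Ω _ _ _ y hy
      obtain ⟨σ, hσ⟩ := (tab O J Ω ω _).1 ((eval_gTT _ ω _ _).1 fun g hg => hy g (Or.inl hg))
      obtain ⟨h1, hi1⟩ := (eval_gS ω i P R Q _ _ σ hσ).1 fun g hg => hy g (Or.inr hg)
      set v : ι → Ω := cv (fun j => σ (ω j)) fun q => gn (ι × J) Ω (X q) with hv
      have hint : ∀ x : O, IsIntegral ℤ (σ x) := by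
        intro x
        haveI : Module.Finite ℤ O := Module.Finite.of_basis ω
        have h1 : IsIntegral ℤ x := Algebra.IsIntegral.isIntegral x
        have h2 := h1.map (σ.toIntAlgHom)
        exact h2
      have hσa : ∀ x : O, IsAlgebraic (EE (ι × J)) (σ x) := by
        intro x
        obtain ⟨p, hp, hpx⟩ := hint x
        refine IsIntegral.isAlgebraic
          ⟨p.map (Int.castRingHom (EE (ι × J))), hp.map _, ?_⟩
        rw [Polynomial.eval₂_map]
        have h2 : (algebraMap (EE (ι × J)) Ω).comp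
            (Int.castRingHom (EE (ι × J))) = algebraMap ℤ Ω := RingHom.ext_int _ _
        rw [h2]
        exact hpx
      have hvalg : ∀ i, IsAlgebraic (EE (ι × J)) (v i) := by
        intro i
        rw [hv]
        simp only [cv]
        refine Finset.sum_induction _ (IsAlgebraic (EE (ι × J))) (fun _ _ => IsAlgebraic.add)
          isAlgebraic_zero ?_
        intro j _
        exact (hσa _).mul (isAlgebraic_algebraMap _)
      have hne : ∀ c : MvPolynomial ι ℤ, c ≠ 0 → av v c ≠ 0 := by
        intro c hc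
        obtain ⟨cn, hcn, hdiv⟩ := norm O J ι ω c hc
        have h3 := hdiv Ω σ fun q => gn (ι × J) Ω (X q)
        rw [gn_aeval] at h3
        have h4 := ne_zero_of_dvd_ne_zero (gn_ne_zero cn hcn) h3
        rw [av_aeval]
        exact h4
      have hPa : ∀ n, IsAlgebraic (EE (ι × J)) ((P.map (av v)).coeff n) := by
        intro n
        rw [Polynomial.coeff_map]
        exact isAlg_av hvalg _
      have hQa : ∀ n, IsAlgebraic (EE (ι × J)) ((Q.map σ * R.map (av v)).coeff n) := by
        intro n
        rw [Polynomial.coeff_mul]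
        refine Finset.sum_induction _ (IsAlgebraic (EE (ι × J))) (fun _ _ => IsAlgebraic.add)
          isAlgebraic_zero ?_
        intro x _
        rw [Polynomial.coeff_map, Polynomial.coeff_map]
        exact (hσa _).mul (isAlg_av hvalg _)
      have hsep : (P.map (av v)).Separable := by
        have h2 := congrArg (fun f => Polynomial.C ((av v Δ)⁻¹) * Polynomial.map (av v) f) hPs
        simp only [Polynomial.map_add, Polynomial.map_mul, Polynomial.map_C] at h2
        rw [← Polynomial.C_mul, inv_mul_cancel₀ (hne Δ hΔ), Polynomial.C_1,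
          ← Polynomial.derivative_map] at h2
        refine ⟨Polynomial.C ((av v Δ)⁻¹) * A.map (av v), Polynomial.C ((av v Δ)⁻¹) * B.map (av v), ?_⟩
        rw [← h2]
        ring
      have hPv : (P.map (av v)).natDegree = q := by
        have hP0 : P ≠ 0 := by
          rintro rfl
          rw [Polynomial.natDegree_zero] at hPd
          have := i.2
          omega
        refine le_antisymm (Polynomial.natDegree_map_le.trans hPd.le)
          (Polynomial.le_natDegree_of_ne_zero ?_)
        rw [Polynomial.coeff_map, ← hPd]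
        exact hne _ (Polynomial.leadingCoeff_ne_zero.2 hP0)
      have hwd : (pl fun j : Fin q => y (Sum.inr (Sum.inl j))).natDegree <
          (P.map (av v)).natDegree := by
        rw [hPv]
        have h2 := pl_deg fun j : Fin q => y (Sum.inr (Sum.inl j))
        by_cases h0 : (pl fun j : Fin q => y (Sum.inr (Sum.inl j))) = 0
        · rw [h0, Polynomial.natDegree_zero]
          have := i.2
          omega
        · exact (Polynomial.natDegree_lt_iff_degree_lt h0).2 h2
      have hwi : (pl fun j : Fin q => y (Sum.inr (Sum.inl j))).coeff (i : ℕ) = 1 := by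
        rw [pl_coeff, dif_pos i.2]
        exact hi1
      obtain ⟨hca, hwa, hha⟩ := isAlg_sys (E := EE (ι × J)) hPa hQa hsep hwd hwi h1
      intro t
      rcases t with j | j | j | j
      · rw [show y (Sum.inl j) = σ (ω j) from hσ j]
        exact hσa _
      · have h5 := hwa j
        rw [pl_coeff, dif_pos j.2] at h5
        exact h5
      · have h5 := hha j
        rw [pl_coeff, dif_pos j.2] at h5
        exact h5
      · exact hca) hcon'
  haveI := hfd
  obtain ⟨σ, hσ⟩ := (tab O J L ω _).1 ((eval_gTT _ ω _ _).1 fun g hg => hy g (Or.inl hg))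
  obtain ⟨h1, -⟩ := (eval_gS ω i P R Q _ _ σ hσ).1 fun g hg => hy g (Or.inr hg)
  rw [hγ, eval₂_X] at hy0
  obtain ⟨φ, b, hb, hτ, hba⟩ := lmk1 O J ω p σ₀ ι a M L σ hdeg
  refine hno b hba ((pl fun j : Fin q => y (Sum.inr (Sum.inl j))).map φ)
    ((pl fun j : Fin n => y (Sum.inr (Sum.inr (Sum.inl j)))).map φ)
    (φ (y (Sum.inr (Sum.inr (Sum.inr ()))))) ((_root_.map_ne_zero φ).2 hy0) ?_
  have h3 := congrArg (Polynomial.map φ) h1
  have h4 : φ.comp σ = (algebraMap ℤ_[p] ℚ_[p]).comp σ₀ := by
    ext o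
    exact hτ o
  have h5 : φ.comp (av (cv (fun j => σ (ω j)) fun q => gn (ι × J) L (X q))) =
      (algebraMap ℤ_[p] ℚ_[p]).comp (av b) := by
    rw [hom_av, hom_av]
    congr 1
    funext i
    exact (hb i).symm
  simp only [Polynomial.map_sub, Polynomial.map_mul, Polynomial.map_pow, Polynomial.map_C,
    Polynomial.map_map, h4, h5] at h3
  simp only [Polynomial.map_map]
  exact h3

/-- the generic polynomial of degree `n` is separable -/
theorem gen_sep {ι : Type} {n : ℕ} (hn : 1 ≤ n) (e : Fin (n + 1) → ι) (he : Function.Injective e) :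
    ∃ (A B : Polynomial (MvPolynomial ι ℤ)) (Δ : MvPolynomial ι ℤ), Δ ≠ 0 ∧
      A * (Pool.Agent.R939.EI.polA fun j => (X (e j) : MvPolynomial ι ℤ)) +
        B * Polynomial.derivative (Pool.Agent.R939.EI.polA fun j => (X (e j) : MvPolynomial ι ℤ)) =
      Polynomial.C Δ := by
  classical
  set P : Polynomial (MvPolynomial ι ℤ) := Pool.Agent.R939.EI.polA fun j => (X (e j) : MvPolynomial ι ℤ) with hP
  have hPd : P.natDegree ≤ n := Pool.Agent.R939.EI.polA_natDegree _
  have hPd' : (Polynomial.derivative P).natDegree ≤ n - 1 :=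
    (Polynomial.natDegree_derivative_le P).trans (Nat.sub_le_sub_right hPd 1)
  obtain ⟨A, B, -, -, hAB⟩ := Polynomial.exists_mul_add_mul_eq_C_resultant P
    (Polynomial.derivative P) hPd hPd' (Or.inl (by omega))
  refine ⟨A, B, _, ?_, by rw [← hAB]; ring⟩
  intro h0
  set f : Polynomial ℚ := Polynomial.X ^ n - Polynomial.C 1 with hf
  have hfd : f.natDegree = n := Polynomial.natDegree_X_pow_sub_C
  let v : ι → ℚ := fun i => if h : ∃ j, e j = i then f.coeff (h.choose : ℕ) else 0
  have hv : ∀ j, v (e j) = f.coeff (j : ℕ) := by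
    intro j
    have h : ∃ j', e j' = e j := ⟨j, rfl⟩
    have h1 : h.choose = j := he h.choose_spec
    simp only [v]
    rw [dif_pos h, h1]
  have hPf : P.map (av v) = f := by
    rw [hP, Pool.Agent.R939.EI.polA_map]
    simp only [av_X, hv]
    exact polA_of hfd.le
  have h1 := Polynomial.resultant_map_map P (Polynomial.derivative P) n (n - 1) (av v)
  rw [h0, map_zero, ← Polynomial.derivative_map, hPf] at h1
  have hfd' : (Polynomial.derivative f).natDegree = n - 1 := by
    rw [Polynomial.natDegree_derivative f, hfd]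
  have hsep : f.Separable := Polynomial.separable_X_pow_sub_C (1 : ℚ) (by
    exact_mod_cast (by omega : n ≠ 0)) one_ne_zero
  have h2 : Polynomial.resultant f (Polynomial.derivative f) = 0 := by
    rw [hfd, hfd']
    exact h1
  exact (Polynomial.resultant_eq_zero_iff.1 h2).2 hsep

end Pool.Agent.Helper55.TT
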